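import Pool.Agent.Lib.MP_50b5e1_nt.X.Sz

/-!
# V/VSz (JOB VSz): sizes of the solutions with `log m₂ ≤ (log k₂)^θ`

Adapt X/Sz.lean (copy its private lemmas with new names).
`core_u`: the proof of `Sz_core` with the dependence on `E` explicit (`A = exp (E C₀ + 2 log 4)`; the constant there is a fixed multiple of a fixed power of `A`).
`freq'`: the proof of `freq` with `hk : log m₂ ≤ (log k₂)^θ` in place of `m₂^ε ≤ k₂`. Let `L = log m₂`, `l = log k₂`. `log (m₁+k₁) ≤ L ≤ l^θ ≤ E log k₁` with `E = l^(θ-1) ≤ l^(1/2)` (`l ≥ 1`), so `core_u` gives `(m₁+k₁) k₁ ≤ exp (c₀ (1 + √l)) (m₂-m₁)²`.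
All the inequalities of `freq` need only: `M L^4 ≤ k₂^(1/20)` with `M = 10^9 (1 + B₀)(1 + C^3)`, `B₀ = exp (c₀ (1 + √l))`, and this holds for large `k₂`: `L ≤ l^(3/2)`, `M L^4 ≤ const · exp (c₀ (1+√l)) l^6 ≤ exp (l/20)` for `l ≥ l₀`. And `m₂ ≥ B` gives `l ≥ l₀` because `l ≥ L^(1/θ)`.
Upper bound: `|a m₁ + b m₂| ≤ 64000 m₂ = exp (L + log 64000) ≤ exp (l^θ + 12) ≤ exp ((1 + log (2000 k₁))^θ')`, `θ' = (θ + 3/2)/2`, for `l ≥ l₀` (`x^θ' ≥ x^θ + 12`, or just: take `θ' = θ`: `(1 + log (2000 k₁))^θ ≥ (l + 1 + log 2000)^θ ≥ l^θ + 8`.. is not enough, so use `θ' > θ`).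
-/

set_option autoImplicit false

open Finset Real Filter

namespace Pool.Agent.Lib.MP_50b5e1_nt

private theorem VSz_choose_upper {n r : ℕ} (hr : 0 < r) :
    (n.choose r : ℝ) ≤ (Real.exp 1 * n / r) ^ r := by
  have h1 : (n.choose r : ℝ) ≤ (n : ℝ) ^ r / r.factorial := Nat.choose_le_pow_div r n
  have hr' : (0 : ℝ) < r := by exact_mod_cast hr
  have h2 : (r : ℝ) ^ r / r.factorial ≤ Real.exp r := Real.pow_div_factorial_le_exp _ hr'.le r
  have hf : (0 : ℝ) < r.factorial := by exact_mod_cast Nat.factorial_pos r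
  calc (n.choose r : ℝ) ≤ (n : ℝ) ^ r / r.factorial := h1
    _ = ((n : ℝ) / r) ^ r * ((r : ℝ) ^ r / r.factorial) := by
        rw [div_pow]; field_simp
    _ ≤ ((n : ℝ) / r) ^ r * Real.exp r := mul_le_mul_of_nonneg_left h2 (by positivity)
    _ = (Real.exp 1 * n / r) ^ r := by
        have : Real.exp (r : ℝ) = Real.exp 1 ^ r := by
          rw [← Real.exp_nat_mul, mul_one]
        rw [this, ← mul_pow]
        congr 1
        ring

private theorem VSz_choose_lower {m K : ℕ} (hK : 0 < K) (hm : K ≤ m) :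
    (((m : ℝ) + K) / (2 * K)) ^ K ≤ ((m + K).choose K : ℝ) := by
  have h1 : (((m + K + 1 - K : ℕ) : ℝ) ^ K) / K.factorial ≤ ((m + K).choose K : ℝ) :=
    Nat.pow_le_choose K (m + K)
  have h2 : (K.factorial : ℝ) ≤ (K : ℝ) ^ K := by exact_mod_cast Nat.factorial_le_pow K
  have hK' : (0 : ℝ) < K := by exact_mod_cast hK
  have hm' : (K : ℝ) ≤ m := by exact_mod_cast hm
  have hf : (0 : ℝ) < K.factorial := by exact_mod_cast Nat.factorial_pos K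
  have e : m + K + 1 - K = m + 1 := by omega
  rw [e] at h1
  calc (((m : ℝ) + K) / (2 * K)) ^ K ≤ (((m + 1 : ℕ) : ℝ) / K) ^ K := by
        refine pow_le_pow_left₀ (by positivity) ?_ K
        rw [div_le_div_iff₀ (by positivity) hK']
        push_cast
        nlinarith
    _ = ((m + 1 : ℕ) : ℝ) ^ K / (K : ℝ) ^ K := div_pow _ _ _
    _ ≤ ((m + 1 : ℕ) : ℝ) ^ K / K.factorial :=
        div_le_div_of_nonneg_left (by positivity) hf h2
    _ ≤ _ := h1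

private theorem VSz_natlog_le (n : ℕ) (hn : n ≠ 0) : (Nat.log 2 n : ℝ) * Real.log 2 ≤ Real.log n := by
  have h1 : 2 ^ (Nat.log 2 n) ≤ n := Nat.pow_log_le_self 2 hn
  have h2 : ((2 : ℝ)) ^ (Nat.log 2 n) ≤ n := by exact_mod_cast h1
  have h3 := Real.log_le_log (by positivity) h2
  rwa [Real.log_pow] at h3

private theorem VSz_diff_bound {m₁ k₁ m₂ k₂ : ℕ} (h : IsSol m₁ k₁ m₂ k₂) (hL : 1 ≤ Real.log m₂) :
    (k₁ : ℝ) - k₂ ≤ 4 * Real.log m₂ := by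
  have h2 := two_adic h
  have hlt := h.lt
  obtain ⟨h1, -, h3, -⟩ := h
  have hm : (0 : ℝ) < m₂ := by exact_mod_cast (by omega : 0 < m₂)
  have hl2 : 0.6931471803 < Real.log 2 := Real.log_two_gt_d9
  have a1 := VSz_natlog_le (m₂ + k₂) (by omega)
  have a2 := VSz_natlog_le k₁ (by omega)
  have a3 : Real.log ((m₂ + k₂ : ℕ) : ℝ) ≤ Real.log m₂ + Real.log 2 := by
    rw [← Real.log_mul hm.ne' (by norm_num)]
    apply Real.log_le_log
    · exact_mod_cast (by omega : 0 < m₂ + k₂)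
    · have : m₂ + k₂ ≤ m₂ * 2 := by omega
      exact_mod_cast this
  have a4 : Real.log (k₁ : ℝ) ≤ Real.log m₂ := by
    apply Real.log_le_log
    · exact_mod_cast (by omega : 0 < k₁)
    · exact_mod_cast (by omega : k₁ ≤ m₂)
  have h2' : (k₁ : ℝ) ≤ k₂ + Nat.log 2 (m₂ + k₂) + Nat.log 2 k₁ := by exact_mod_cast h2
  set x : ℝ := (Nat.log 2 (m₂ + k₂) : ℝ) with hx
  set y : ℝ := (Nat.log 2 k₁ : ℝ) with hy
  have hx0 : 0 ≤ x := by positivity
  have hy0 : 0 ≤ y := by positivity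
  have b1 : (x + y) * Real.log 2 ≤ 2 * Real.log m₂ + Real.log 2 := by linarith
  have b2 : (x + y - 1) * Real.log 2 ≤ 2 * Real.log m₂ := by linarith
  have b3 : x + y - 1 ≤ 3 * Real.log m₂ := by
    by_contra hcon
    push Not at hcon
    nlinarith
  linarith

theorem core_u : ∃ c₀ : ℝ, 0 < c₀ ∧ ∀ (E : ℝ) (m₁ k₁ m₂ k₂ : ℕ), 0 < E → IsSol m₁ k₁ m₂ k₂ →
    Real.log ((m₁ : ℝ) + k₁) ≤ E * Real.log k₁ →
      ((m₁ : ℝ) + k₁) * k₁ ≤ Real.exp (c₀ * (1 + E)) * ((m₂ : ℝ) - m₁) ^ 2 := by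
  obtain ⟨C₀, hC₀, hpi⟩ := primeCounting_bound
  refine ⟨C₀ + (3 + 2 + 2 * Real.log 4), by
    have : 0 < Real.log 4 := Real.log_pos (by norm_num)
    positivity, ?_⟩
  intro E₁ m₁ k₁ m₂ k₂ hE₁ h c8
  set A : ℝ := Real.exp (E₁ * C₀ + 2 * Real.log 4) with hA
  have hA1 : 1 ≤ A := by
    rw [hA]
    apply Real.one_le_exp
    have : 0 < Real.log 4 := Real.log_pos (by norm_num)
    positivity
  set B : ℝ := 8 * Real.exp 1 ^ 2 * A with hB
  have he1 : 1 ≤ Real.exp 1 := Real.one_le_exp (by norm_num)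
  have hB2 : 2 ≤ B := by
    rw [hB]
    have : 1 ≤ Real.exp 1 ^ 2 := one_le_pow₀ he1
    nlinarith
  have hBexp : B ≤ Real.exp ((C₀ + (3 + 2 + 2 * Real.log 4)) * (1 + E₁)) := by
    have h8 : (8 : ℝ) ≤ Real.exp 3 := by
      have h9 : (2.7 : ℝ) ≤ Real.exp 1 := by
        have := Real.exp_one_gt_d9
        linarith
      have h10 : Real.exp 3 = Real.exp 1 ^ 3 := by
        rw [← Real.exp_nat_mul]
        norm_num
      rw [h10]
      calc (8 : ℝ) ≤ 2.7 ^ 3 := by norm_num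
        _ ≤ Real.exp 1 ^ 3 := pow_le_pow_left₀ (by norm_num) h9 3
    have h11 : Real.exp 1 ^ 2 = Real.exp 2 := by
      rw [← Real.exp_nat_mul]
      norm_num
    have hl4 : 0 < Real.log 4 := Real.log_pos (by norm_num)
    calc B = 8 * Real.exp 2 * Real.exp (E₁ * C₀ + 2 * Real.log 4) := by rw [hB, hA, h11]
      _ ≤ Real.exp 3 * Real.exp 2 * Real.exp (E₁ * C₀ + 2 * Real.log 4) := by gcongr
      _ = Real.exp (3 + 2 + (E₁ * C₀ + 2 * Real.log 4)) := by rw [← Real.exp_add, ← Real.exp_add]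
      _ ≤ Real.exp ((C₀ + (3 + 2 + 2 * Real.log 4)) * (1 + E₁)) := by
        apply Real.exp_le_exp.2
        have h12 : 0 < (3 + 2 + 2 * Real.log 4) * E₁ := by positivity
        linarith [h12]
  refine le_trans ?_ (mul_le_mul_of_nonneg_right hBexp (sq_nonneg _))
  have hmass := mass h
  have hlt := h.lt
  have h1 := h.1
  have h2 := h.2.1
  have h3 := h.2.2.1
  set N : ℝ := (m₁ : ℝ) + k₁ with hN
  set D : ℝ := (m₂ : ℝ) - m₁ with hD
  have hk1 : (5 : ℝ) ≤ k₁ := by exact_mod_cast (by omega : 5 ≤ k₁)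
  have hk2 : (4 : ℝ) ≤ k₂ := by exact_mod_cast (by omega : 4 ≤ k₂)
  have hkK : (k₂ : ℝ) ≤ k₁ := by exact_mod_cast hlt.le
  have hm1 : (0 : ℝ) ≤ m₁ := by positivity
  have hN0 : 0 < N := by linarith
  have hNm : N ≤ m₂ := by rw [hN]; exact_mod_cast h3
  have hDK : (k₁ : ℝ) ≤ D := by linarith
  have hD0 : 0 < D := by linarith
  by_cases hmK : m₁ < k₁
  · have a1 : (m₁ : ℝ) ≤ k₁ := by exact_mod_cast hmK.le
    have a2 : N * k₁ ≤ 2 * D ^ 2 := by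
      have h5 : N ≤ 2 * k₁ := by linarith
      calc N * k₁ ≤ (2 * D) * D := mul_le_mul (by linarith) hDK (by linarith) (by linarith)
        _ = 2 * D ^ 2 := by ring
    have a3 : 2 * D ^ 2 ≤ B * D ^ 2 := mul_le_mul_of_nonneg_right hB2 (by positivity)
    linarith
  push Not at hmK
  have hr0 : 0 < k₁ + k₂ - 1 := by omega
  have c1 := VSz_choose_lower (by omega : 0 < k₁) hmK
  have c2 := VSz_choose_upper (n := m₂ - m₁ + k₂ - 1) hr0
  have hmassR : (((m₁ + k₁).choose k₁ : ℕ) : ℝ) ≤ N ^ (Nat.primeCounting k₁) *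
      4 ^ (k₁ + k₂ - 1) * (((m₂ - m₁ + k₂ - 1).choose (k₁ + k₂ - 1) : ℕ) : ℝ) := by
    rw [hN]
    exact_mod_cast hmass
  set E : ℝ := 2 * Real.exp 1 * D / k₁ with hE
  have hk0 : (0 : ℝ) < k₁ := by linarith
  have hE1 : 1 ≤ E := by
    rw [hE, le_div_iff₀ hk0]
    have h5 : 1 * D ≤ (2 * Real.exp 1) * D :=
      mul_le_mul_of_nonneg_right (by linarith) hD0.le
    linarith
  have hE0 : 0 < E := by linarith
  have c3 : Real.exp 1 * ((m₂ - m₁ + k₂ - 1 : ℕ) : ℝ) / ((k₁ + k₂ - 1 : ℕ) : ℝ) ≤ E := by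
    have b1 : ((m₂ - m₁ + k₂ - 1 : ℕ) : ℝ) ≤ 2 * D := by
      have : m₂ - m₁ + k₂ - 1 ≤ 2 * (m₂ - m₁) := by omega
      have h5 : ((m₂ - m₁ + k₂ - 1 : ℕ) : ℝ) ≤ ((2 * (m₂ - m₁) : ℕ) : ℝ) := by
        exact_mod_cast this
      rw [Nat.cast_mul, Nat.cast_sub (by omega : m₁ ≤ m₂), Nat.cast_ofNat] at h5
      exact h5
    have b2 : (k₁ : ℝ) ≤ ((k₁ + k₂ - 1 : ℕ) : ℝ) := by
      exact_mod_cast (by omega : k₁ ≤ k₁ + k₂ - 1)
    rw [hE]
    calc Real.exp 1 * ((m₂ - m₁ + k₂ - 1 : ℕ) : ℝ) / ((k₁ + k₂ - 1 : ℕ) : ℝ)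
        ≤ Real.exp 1 * (2 * D) / k₁ := by
          apply div_le_div₀ (by positivity) _ hk0 b2
          exact mul_le_mul_of_nonneg_left b1 (by positivity)
      _ = 2 * Real.exp 1 * D / k₁ := by ring
  have hr2 : k₁ + k₂ - 1 ≤ 2 * k₁ := by omega
  have c4 : (((m₂ - m₁ + k₂ - 1).choose (k₁ + k₂ - 1) : ℕ) : ℝ) ≤ E ^ (2 * k₁) := by
    refine c2.trans ?_
    calc _ ≤ E ^ (k₁ + k₂ - 1) := pow_le_pow_left₀ (by positivity) c3 _
      _ ≤ E ^ (2 * k₁) := pow_le_pow_right₀ hE1 hr2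
  have c5 : (4 : ℝ) ^ (k₁ + k₂ - 1) ≤ 4 ^ (2 * k₁) := pow_le_pow_right₀ (by norm_num) hr2
  have c6 : (N / (2 * k₁)) ^ k₁ ≤ N ^ (Nat.primeCounting k₁) * 4 ^ (2 * k₁) * E ^ (2 * k₁) := by
    refine c1.trans (hmassR.trans ?_)
    refine mul_le_mul (mul_le_mul_of_nonneg_left c5 (by positivity)) c4 (by positivity)
      (by positivity)
  have c7 := Real.log_le_log (by positivity) c6
  rw [Real.log_mul (by positivity) (by positivity), Real.log_mul (by positivity) (by positivity),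
    Real.log_pow, Real.log_pow, Real.log_pow, Real.log_pow] at c7
  push_cast at c7
  have c9 : (Nat.primeCounting k₁ : ℝ) * Real.log N ≤ E₁ * C₀ * k₁ := by
    have h5 := hpi k₁
    calc (Nat.primeCounting k₁ : ℝ) * Real.log N ≤
          (Nat.primeCounting k₁ : ℝ) * (E₁ * Real.log k₁) :=
          mul_le_mul_of_nonneg_left c8 (by positivity)
      _ = E₁ * ((Nat.primeCounting k₁ : ℝ) * Real.log k₁) := by ring
      _ ≤ E₁ * (C₀ * k₁) := mul_le_mul_of_nonneg_left h5 hE₁.le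
      _ = E₁ * C₀ * k₁ := by ring
  have c10 : Real.log (N / (2 * k₁)) ≤ E₁ * C₀ + 2 * Real.log 4 + 2 * Real.log E := by
    have : (k₁ : ℝ) * Real.log (N / (2 * k₁)) ≤
        k₁ * (E₁ * C₀ + 2 * Real.log 4 + 2 * Real.log E) := by
      linarith
    exact le_of_mul_le_mul_left this hk0
  have c11 : N / (2 * k₁) ≤ A * E ^ 2 := by
    have h5 : Real.log (N / (2 * k₁)) ≤ Real.log (A * E ^ 2) := by
      rw [Real.log_mul (by positivity) (by positivity), hA, Real.log_exp, Real.log_pow]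
      push_cast
      linarith
    exact (Real.log_le_log_iff (by positivity) (by positivity)).1 h5
  have c12 : N * k₁ = N / (2 * k₁) * (2 * k₁ ^ 2) := by field_simp
  rw [c12]
  calc N / (2 * k₁) * (2 * (k₁ : ℝ) ^ 2) ≤ A * E ^ 2 * (2 * (k₁ : ℝ) ^ 2) :=
        mul_le_mul_of_nonneg_right c11 (by positivity)
    _ = B * D ^ 2 := by
        rw [hE, hB]
        field_simp
        ring

private theorem VSz_aux (x y : ℝ) (hx : 0 < x) (hy : 0 < y) :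
    2 * x * y * 256000000000000 ≤ (10 ^ 9 * (1 + y) * (1 + x)) ^ 2 := by
  have h0 : 0 < x * y := mul_pos hx hy
  have h1 : 1 + x * y ≤ (1 + y) * (1 + x) := by linarith
  have h2 : 1 + x * y ≤ (1 + x * y) ^ 2 := by
    have : (1 + x * y) * 1 ≤ (1 + x * y) * (1 + x * y) :=
      mul_le_mul_of_nonneg_left (by linarith) (by linarith)
    linarith
  have h3 : (1 + x * y) ^ 2 ≤ ((1 + y) * (1 + x)) ^ 2 := pow_le_pow_left₀ (by linarith) h1 2
  have h4 : (10 ^ 9 * (1 + y) * (1 + x)) ^ 2 = 10 ^ 18 * ((1 + y) * (1 + x)) ^ 2 := by ring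
  rw [h4]
  linarith

private theorem VSz_aux2 (x y : ℝ) (hx : 0 < x) (hy : 0 < y) :
    10 ^ 9 ≤ 10 ^ 9 * (1 + y) * (1 + x) := by
  have h0 : 0 < x * y := mul_pos hx hy
  linarith

theorem freq' (θ : ℝ) (hθ1 : 1 ≤ θ) (hθ : θ < 3 / 2) : ∃ θ' : ℝ, 1 ≤ θ' ∧ θ' < 3 / 2 ∧ ∃ B : ℕ, ∀ m₁ k₁ m₂ k₂ : ℕ,
    IsSol m₁ k₁ m₂ k₂ → Real.log m₂ ≤ (Real.log k₂) ^ θ → B ≤ m₂ →
      ∀ a b : ℤ, (a ≠ 0 ∨ b ≠ 0) → |a| ≤ 32000 → |b| ≤ 32000 →
        ((2000 * k₁ : ℕ) : ℝ) ^ (1.9 : ℝ) ≤ |(a : ℝ) * m₁ + b * m₂| ∧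
        |(a : ℝ) * m₁ + b * m₂| ≤ Real.exp ((1 + Real.log ((2000 * k₁ : ℕ) : ℝ)) ^ θ') := by
  obtain ⟨c₀, hc₀, hcore⟩ := core_u
  obtain ⟨C, hC, hlen⟩ := length_bound
  obtain ⟨δ, hδ⟩ : ∃ δ : ℝ, δ = (3 / 2 - θ) / 2 := ⟨_, rfl⟩
  have hδ0 : 0 < δ := by rw [hδ]; linarith
  obtain ⟨K₁, hK₁⟩ : ∃ K₁ : ℝ, K₁ = 2 * 10 ^ 9 * (1 + C ^ 3) := ⟨_, rfl⟩
  have hK₁0 : 0 < K₁ := by rw [hK₁]; positivity
  obtain ⟨l₀, hl₀⟩ : ∃ l₀ : ℝ, l₀ = (20 * (K₁ + 2 * c₀ + 12)) ^ 2 + (13 : ℝ) ^ (1 / δ) := ⟨_, rfl⟩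
  have hl₀0 : 0 < l₀ := by rw [hl₀]; positivity
  refine ⟨θ + δ, by linarith, by rw [hδ]; linarith, ⌈Real.exp (l₀ ^ (3 / 2 : ℝ))⌉₊ + 1, ?_⟩
  intro m₁ k₁ m₂ k₂ h hk hBm a b hab ha hb
  obtain ⟨l, hldef⟩ : ∃ l : ℝ, l = Real.log k₂ := ⟨_, rfl⟩
  rw [← hldef] at hk
  have hk24 : (4 : ℝ) ≤ k₂ := by
    have := h.2.1
    exact_mod_cast (by omega : 4 ≤ k₂)
  have hl1 : 1 ≤ l := by
    rw [hldef, Real.le_log_iff_exp_le (by linarith)]
    have := Real.exp_one_lt_d9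
    linarith
  have hk32 : Real.log m₂ ≤ l ^ (3 / 2 : ℝ) := hk.trans (Real.rpow_le_rpow_of_exponent_le hl1 hθ.le)
  have hll : l₀ ≤ l := by
    by_contra hcon
    push Not at hcon
    have g1 : l ^ (3 / 2 : ℝ) ≤ l₀ ^ (3 / 2 : ℝ) := Real.rpow_le_rpow (by linarith) hcon.le (by norm_num)
    have g2 : Real.exp (l₀ ^ (3 / 2 : ℝ)) < m₂ := by
      have g3 : ((⌈Real.exp (l₀ ^ (3 / 2 : ℝ))⌉₊ + 1 : ℕ) : ℝ) ≤ m₂ := by exact_mod_cast hBm
      push_cast at g3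
      have g4 := Nat.le_ceil (Real.exp (l₀ ^ (3 / 2 : ℝ)))
      linarith
    have g5 : l₀ ^ (3 / 2 : ℝ) < Real.log m₂ := by
      rw [Real.lt_log_iff_exp_lt (by
        have := Real.exp_pos (l₀ ^ (3 / 2 : ℝ))
        linarith)]
      exact g2
    linarith
  -- the constants
  obtain ⟨s, hs⟩ : ∃ s : ℝ, s = Real.sqrt l := ⟨_, rfl⟩
  have hs0 : 0 < s := by rw [hs]; exact Real.sqrt_pos.2 (by linarith)
  have hss : s ^ 2 = l := by rw [hs]; exact Real.sq_sqrt (by linarith)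
  have hss1 : 1 ≤ s := by rw [hs]; exact Real.one_le_sqrt.2 hl1
  have hsl : 20 * (K₁ + 2 * c₀ + 12) ≤ s := by
    have g1 : (20 * (K₁ + 2 * c₀ + 12)) ^ 2 ≤ s ^ 2 := by
      rw [hss]
      refine le_trans ?_ hll
      rw [hl₀]
      have : 0 < (13 : ℝ) ^ (1 / δ) := by positivity
      linarith
    exact (pow_le_pow_iff_left₀ (by positivity) hs0.le (by norm_num)).1 g1
  have h13 : 13 ≤ l ^ δ := by
    have g1 : (13 : ℝ) ^ (1 / δ) ≤ l := by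
      refine le_trans ?_ hll
      rw [hl₀]
      have : 0 < (20 * (K₁ + 2 * c₀ + 12)) ^ 2 := by positivity
      linarith
    calc (13 : ℝ) = ((13 : ℝ) ^ (1 / δ)) ^ δ := by
          rw [← Real.rpow_mul (by norm_num), one_div_mul_cancel hδ0.ne', Real.rpow_one]
      _ ≤ l ^ δ := Real.rpow_le_rpow (by positivity) g1 hδ0.le
  obtain ⟨B₀, hB₀def⟩ : ∃ B₀ : ℝ, B₀ = Real.exp (c₀ * (1 + s)) := ⟨_, rfl⟩
  have hB₀ : 0 < B₀ := by rw [hB₀def]; exact Real.exp_pos _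
  have hB₀1 : 1 ≤ B₀ := by
    rw [hB₀def]
    exact Real.one_le_exp (by positivity)
  set M : ℝ := 10 ^ 9 * (1 + B₀) * (1 + C ^ 3) with hM
  have hM9 : 10 ^ 9 ≤ M := VSz_aux2 (C ^ 3) B₀ (pow_pos hC 3) hB₀
  have hM0 : 0 < M := by linarith
  have hMK : M ≤ K₁ * B₀ := by
    rw [hM, hK₁]
    have g1 : 1 + B₀ ≤ 2 * B₀ := by linarith
    calc 10 ^ 9 * (1 + B₀) * (1 + C ^ 3) ≤ 10 ^ 9 * (2 * B₀) * (1 + C ^ 3) := by gcongr
      _ = _ := by ring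
  have hk20' : (0 : ℝ) < k₂ := by linarith
  have hsize := size h
  have hlt := h.lt
  have h1 := h.1
  have h2 := h.2.1
  have h3 := h.2.2.1
  have hm5 : (5 : ℝ) ≤ m₂ := by exact_mod_cast (by omega : 5 ≤ m₂)
  have hL1 : 1 ≤ Real.log m₂ := by
    rw [Real.le_log_iff_exp_le (by linarith)]
    have := Real.exp_one_lt_d9
    linarith
  have hdiff := VSz_diff_bound h hL1
  have hlen' := hlen m₁ k₁ m₂ k₂ h
  set L : ℝ := Real.log m₂ with hLdef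
  have hm0 : (0 : ℝ) < m₂ := by linarith
  set N : ℝ := (m₁ : ℝ) + k₁ with hN
  set D : ℝ := (m₂ : ℝ) - m₁ with hD
  have hk1 : (5 : ℝ) ≤ k₁ := by exact_mod_cast (by omega : 5 ≤ k₁)
  have hk2 : (4 : ℝ) ≤ k₂ := by exact_mod_cast (by omega : 4 ≤ k₂)
  have hk20 : (0 : ℝ) < k₂ := by linarith
  have hkK : (k₂ : ℝ) ≤ k₁ := by exact_mod_cast hlt.le
  have hm1 : (0 : ℝ) ≤ m₁ := by positivity
  have hN0 : 0 < N := by linarith
  have hNm : N ≤ m₂ := by rw [hN]; exact_mod_cast h3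
  have hDK : (k₁ : ℝ) ≤ D := by linarith
  have hD0 : 0 < D := by linarith
  have hlogN : Real.log N ≤ L := Real.log_le_log hN0 hNm
  have hlogN0 : 0 ≤ Real.log N := Real.log_nonneg (by linarith)
  have hL4 : 1 ≤ L ^ 4 := one_le_pow₀ hL1
  have hL24 : L ^ 2 ≤ L ^ 4 := pow_le_pow_right₀ hL1 (by norm_num)
  have hL14 : L ≤ L ^ 4 := by
    calc L = L ^ 1 := (pow_one L).symm
      _ ≤ L ^ 4 := pow_le_pow_right₀ hL1 (by norm_num)
  -- `M L ^ 4 ≤ k ^ (1/20)`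
  have hMk : M * L ^ 4 ≤ (k₂ : ℝ) ^ (1 / 20 : ℝ) := by
    have g1 : L ^ 4 ≤ l ^ 6 := by
      have g2 : L ^ 4 ≤ (l ^ (3 / 2 : ℝ)) ^ 4 := pow_le_pow_left₀ (by linarith) hk32 4
      refine g2.trans (le_of_eq ?_)
      rw [← Real.rpow_natCast (l ^ (3 / 2 : ℝ)) 4, ← Real.rpow_mul (by linarith), ← Real.rpow_natCast l 6]
      norm_num
    have g3 : l ≤ Real.exp (2 * s) := by
      have g4 : s ≤ Real.exp s := by
        have := Real.add_one_le_exp s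
        linarith
      rw [← hss]
      calc s ^ 2 ≤ Real.exp s ^ 2 := pow_le_pow_left₀ hs0.le g4 2
        _ = Real.exp (2 * s) := by
          rw [← Real.exp_nat_mul]
          norm_num
    have g5 : l ^ 6 ≤ Real.exp (12 * s) := by
      calc l ^ 6 ≤ Real.exp (2 * s) ^ 6 := pow_le_pow_left₀ (by linarith) g3 6
        _ = Real.exp (12 * s) := by
          rw [← Real.exp_nat_mul]
          congr 1
          push_cast
          ring
    have g6 : K₁ ≤ Real.exp K₁ := by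
      have := Real.add_one_le_exp K₁
      linarith
    calc M * L ^ 4 ≤ (K₁ * B₀) * l ^ 6 := by gcongr
      _ ≤ (Real.exp K₁ * Real.exp (c₀ * (1 + s))) * Real.exp (12 * s) := by
        rw [← hB₀def]
        gcongr
      _ = Real.exp (K₁ + c₀ * (1 + s) + 12 * s) := by rw [← Real.exp_add, ← Real.exp_add]
      _ ≤ Real.exp (l * (1 / 20)) := by
        apply Real.exp_le_exp.2
        have g7 : (20 * (K₁ + 2 * c₀ + 12)) * s ≤ s * s := mul_le_mul_of_nonneg_right hsl hs0.le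
        have g8 : s * s = l := by rw [← hss]; ring
        have g9 : K₁ ≤ K₁ * s := le_mul_of_one_le_right hK₁0.le hss1
        have g10 : c₀ ≤ c₀ * s := le_mul_of_one_le_right hc₀.le hss1
        linarith
      _ = (k₂ : ℝ) ^ (1 / 20 : ℝ) := by rw [Real.rpow_def_of_pos hk20', ← hldef]
  have hk1' : (1 : ℝ) ≤ k₂ := by linarith
  have hMk1 : M * L ^ 4 ≤ k₂ := by
    refine hMk.trans ?_
    calc (k₂ : ℝ) ^ (1 / 20 : ℝ) ≤ (k₂ : ℝ) ^ (1 : ℝ) :=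
          Real.rpow_le_rpow_of_exponent_le hk1' (by norm_num)
      _ = k₂ := Real.rpow_one _
  have hbk : 10 ^ 9 * L ^ 4 ≤ k₂ := by
    refine le_trans ?_ hMk1
    gcongr
  -- step 1
  have st1 : (k₁ : ℝ) ≤ 2 * k₂ := by linarith
  -- step 2
  have st2 : (k₂ : ℝ) * Real.log (1 + D / N) ≤ 4 * L ^ 2 := by
    refine hsize.trans ?_
    calc ((k₁ : ℝ) - k₂) * Real.log N ≤ (4 * L) * L := by
          refine mul_le_mul hdiff hlogN hlogN0 (by linarith)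
      _ = 4 * L ^ 2 := by ring
  have hDN : D < N := by
    by_contra hcon
    push Not at hcon
    have a1 : (1 : ℝ) / 2 ≤ Real.log (1 + D / N) := by
      have : (2 : ℝ) ≤ 1 + D / N := by
        have := (one_le_div hN0).2 hcon
        linarith
      have h5 := Real.log_le_log (by norm_num) this
      have := Real.log_two_gt_d9
      linarith
    have a2 : (k₂ : ℝ) ≤ 8 * L ^ 2 := by
      have := mul_le_mul_of_nonneg_left a1 (by linarith : (0 : ℝ) ≤ k₂)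
      linarith
    linarith
  have st4 : (k₂ : ℝ) * D ≤ 8 * N * L ^ 2 := by
    have hx0 : 0 ≤ D / N := by positivity
    have hx1 : D / N ≤ 1 := (div_le_one hN0).2 hDN.le
    have a1 := Real.le_log_one_add_of_nonneg hx0
    have a2 : D / N / 2 ≤ 2 * (D / N) / (D / N + 2) := by
      rw [div_le_div_iff₀ (by norm_num) (by linarith)]
      have h5 : D / N * (D / N) ≤ D / N * 1 := mul_le_mul_of_nonneg_left hx1 hx0
      linarith
    have a3 : (k₂ : ℝ) * (D / N / 2) ≤ 4 * L ^ 2 :=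
      (mul_le_mul_of_nonneg_left (a2.trans a1) (by linarith)).trans st2
    have a4 : (k₂ : ℝ) * D = (k₂ : ℝ) * (D / N / 2) * (2 * N) := by
      field_simp
    rw [a4]
    calc (k₂ : ℝ) * (D / N / 2) * (2 * N) ≤ 4 * L ^ 2 * (2 * N) :=
          mul_le_mul_of_nonneg_right a3 (by positivity)
      _ = 8 * N * L ^ 2 := by ring
  have st5 : 200000 * D ≤ N := by
    have a1 : 200000 * D * (k₂ : ℝ) ≤ N * k₂ := by
      calc 200000 * D * (k₂ : ℝ) = 200000 * ((k₂ : ℝ) * D) := by ring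
        _ ≤ 200000 * (8 * N * L ^ 2) := by gcongr
        _ = N * (1600000 * L ^ 2) := by ring
        _ ≤ N * k₂ := by
          apply mul_le_mul_of_nonneg_left _ hN0.le
          linarith
    exact le_of_mul_le_mul_right a1 hk20
  have hDm : 64000 * D ≤ m₁ := by linarith
  have hmN : m₂ ≤ 2 * (m₁ : ℝ) := by linarith
  -- step 3
  have st3 : (k₂ : ℝ) ^ 3 ≤ C ^ 3 * m₂ * L ^ 4 := by
    have e1 : (C * (m₂ : ℝ) ^ (1 / 3 : ℝ) * L ^ (4 / 3 : ℝ)) ^ 3 = C ^ 3 * m₂ * L ^ 4 := by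
      rw [mul_pow, mul_pow, ← Real.rpow_natCast ((m₂ : ℝ) ^ (1 / 3 : ℝ)) 3, ← Real.rpow_mul hm0.le,
        ← Real.rpow_natCast (L ^ (4 / 3 : ℝ)) 3, ← Real.rpow_mul (by linarith)]
      have e2 : ((1 : ℝ) / 3 * ((3 : ℕ) : ℝ)) = 1 := by norm_num
      have e3 : ((4 : ℝ) / 3 * ((3 : ℕ) : ℝ)) = ((4 : ℕ) : ℝ) := by norm_num
      rw [e2, e3, Real.rpow_one, Real.rpow_natCast]
    rw [← e1]
    exact pow_le_pow_left₀ hk20.le hlen' 3
  -- step 4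
  have hllk : l ≤ Real.log k₁ := by
    rw [hldef]
    exact Real.log_le_log hk20 hkK
  have hlogk : Real.log N ≤ s * Real.log k₁ := by
    have g1 : l ^ (3 / 2 : ℝ) = s * l := by
      rw [show (3 / 2 : ℝ) = 1 / 2 + 1 by norm_num, Real.rpow_add (by linarith), Real.rpow_one, ← Real.sqrt_eq_rpow, ← hs]
    calc Real.log N ≤ L := hlogN
      _ ≤ l ^ (3 / 2 : ℝ) := hk32
      _ = s * l := g1
      _ ≤ s * Real.log k₁ := mul_le_mul_of_nonneg_left hllk hs0.le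
  have st6 : N * k₁ ≤ B₀ * D ^ 2 := by
    rw [hB₀def]
    exact hcore s m₁ k₁ m₂ k₂ hs0 h hlogk
  -- `(2000 K)^1.9 ≤ 1.6 10^7 k^1.9`
  have hkp : (0 : ℝ) < (k₂ : ℝ) ^ (1.9 : ℝ) := Real.rpow_pos_of_pos hk20 _
  have hpow : ((2000 * k₁ : ℕ) : ℝ) ^ (1.9 : ℝ) ≤ 16000000 * (k₂ : ℝ) ^ (1.9 : ℝ) := by
    have a1 : ((2000 * k₁ : ℕ) : ℝ) ≤ 4000 * k₂ := by
      push_cast
      linarith
    calc ((2000 * k₁ : ℕ) : ℝ) ^ (1.9 : ℝ) ≤ (4000 * (k₂ : ℝ)) ^ (1.9 : ℝ) :=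
          Real.rpow_le_rpow (by positivity) a1 (by norm_num)
      _ = (4000 : ℝ) ^ (1.9 : ℝ) * (k₂ : ℝ) ^ (1.9 : ℝ) := Real.mul_rpow (by norm_num) hk20.le
      _ ≤ 16000000 * (k₂ : ℝ) ^ (1.9 : ℝ) := by
          apply mul_le_mul_of_nonneg_right _ hkp.le
          calc (4000 : ℝ) ^ (1.9 : ℝ) ≤ (4000 : ℝ) ^ (2 : ℝ) :=
                Real.rpow_le_rpow_of_exponent_le (by norm_num) (by norm_num)
            _ = 16000000 := by
                rw [show (2 : ℝ) = ((2 : ℕ) : ℝ) by norm_num, Real.rpow_natCast]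
                norm_num
  have hk19 : (k₂ : ℝ) ^ (1.9 : ℝ) * ((k₂ : ℝ) ^ (1 / 20 : ℝ)) ^ 2 = (k₂ : ℝ) ^ 2 := by
    rw [← Real.rpow_natCast ((k₂ : ℝ) ^ (1 / 20 : ℝ)) 2, ← Real.rpow_mul hk20.le,
      ← Real.rpow_add hk20, ← Real.rpow_natCast (k₂ : ℝ) 2]
    norm_num
  have hML0 : 0 < M * L ^ 4 := by positivity
  have hk19' : (k₂ : ℝ) ^ (1.9 : ℝ) * (M * L ^ 4) ^ 2 ≤ (k₂ : ℝ) ^ 2 := by
    rw [← hk19]
    gcongr
  -- lower bound for `D`
  have hDlow : 16000000 * (k₂ : ℝ) ^ (1.9 : ℝ) ≤ D := by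
    have a1 : (m₂ : ℝ) / 2 ≤ N := by linarith
    -- D² ≥ k⁴ / (2 C³ B₀ L⁴)
    have a2 : (k₂ : ℝ) ^ 4 ≤ 2 * C ^ 3 * B₀ * L ^ 4 * D ^ 2 := by
      calc (k₂ : ℝ) ^ 4 = (k₂ : ℝ) ^ 3 * k₂ := by ring
        _ ≤ (C ^ 3 * m₂ * L ^ 4) * k₁ := by
          apply mul_le_mul st3 hkK hk20.le (by positivity)
        _ = 2 * C ^ 3 * L ^ 4 * ((m₂ / 2) * k₁) := by ring
        _ ≤ 2 * C ^ 3 * L ^ 4 * (N * k₁) := by gcongr
        _ ≤ 2 * C ^ 3 * L ^ 4 * (B₀ * D ^ 2) := by gcongr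
        _ = _ := by ring
    have a3 : 2 * C ^ 3 * B₀ * 256000000000000 ≤ M ^ 2 := VSz_aux (C ^ 3) B₀ (pow_pos hC 3) hB₀
    have a4 : (16000000 * (k₂ : ℝ) ^ (1.9 : ℝ)) ^ 2 * (M * L ^ 4) ^ 4 ≤
        256000000000000 * (k₂ : ℝ) ^ 4 := by
      calc (16000000 * (k₂ : ℝ) ^ (1.9 : ℝ)) ^ 2 * (M * L ^ 4) ^ 4
          = 256000000000000 * ((k₂ : ℝ) ^ (1.9 : ℝ) * (M * L ^ 4) ^ 2) ^ 2 := by ring
        _ ≤ 256000000000000 * ((k₂ : ℝ) ^ 2) ^ 2 := by gcongr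
        _ = _ := by ring
    have a5 : (16000000 * (k₂ : ℝ) ^ (1.9 : ℝ)) ^ 2 * (M * L ^ 4) ^ 4 ≤
        D ^ 2 * (M * L ^ 4) ^ 4 := by
      refine a4.trans ?_
      calc 256000000000000 * (k₂ : ℝ) ^ 4
          ≤ 256000000000000 * (2 * C ^ 3 * B₀ * L ^ 4 * D ^ 2) := by gcongr
        _ = (2 * C ^ 3 * B₀ * 256000000000000) * (L ^ 4 * D ^ 2) := by ring
        _ ≤ M ^ 2 * (L ^ 4 * D ^ 2) := by gcongr
        _ = D ^ 2 * (M ^ 2 * L ^ 4) := by ring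
        _ ≤ D ^ 2 * (M * L ^ 4) ^ 4 := by
          apply mul_le_mul_of_nonneg_left _ (by positivity)
          have c1 : (1 : ℝ) ≤ M := by linarith
          have c2 : M ^ 2 ≤ M ^ 4 := pow_le_pow_right₀ c1 (by norm_num)
          have c3 : L ^ 4 ≤ (L ^ 4) ^ 4 := by
            calc L ^ 4 = (L ^ 4) ^ 1 := (pow_one _).symm
              _ ≤ (L ^ 4) ^ 4 := pow_le_pow_right₀ hL4 (by norm_num)
          calc M ^ 2 * L ^ 4 ≤ M ^ 4 * (L ^ 4) ^ 4 :=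
                mul_le_mul c2 c3 (by positivity) (by positivity)
            _ = (M * L ^ 4) ^ 4 := by ring
    have a6 := le_of_mul_le_mul_right a5 (by positivity)
    exact le_of_sq_le_sq a6 hD0.le
  -- lower bound for `m₁`
  have hmlow : 16000000 * (k₂ : ℝ) ^ (1.9 : ℝ) ≤ (m₁ : ℝ) / 2 := by
    linarith
  have hlow2 : ((2000 * k₁ : ℕ) : ℝ) ^ (1.9 : ℝ) ≤ D := hpow.trans hDlow
  have hlow1 : ((2000 * k₁ : ℕ) : ℝ) ^ (1.9 : ℝ) ≤ (m₁ : ℝ) / 2 := hpow.trans hmlow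
  have ha' : |(a : ℝ)| ≤ 32000 := by exact_mod_cast ha
  have hb' : |(b : ℝ)| ≤ 32000 := by exact_mod_cast hb
  constructor
  · by_cases hs : a + b = 0
    · have hb0 : b ≠ 0 := by
        intro h0
        rcases hab with h' | h'
        · exact h' (by omega)
        · exact h' h0
      have hb1 : (1 : ℝ) ≤ |(b : ℝ)| := by exact_mod_cast Int.one_le_abs hb0
      have e1 : (a : ℝ) * m₁ + b * m₂ = b * D := by
        have : (a : ℝ) = -b := by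
          have : a = -b := by omega
          rw [this]
          push_cast
          ring
        rw [this, hD]
        ring
      rw [e1, abs_mul, abs_of_pos hD0]
      calc _ ≤ D := hlow2
        _ ≤ |(b : ℝ)| * D := le_mul_of_one_le_left hD0.le hb1
    · have hs1 : (1 : ℝ) ≤ |((a + b : ℤ) : ℝ)| := by exact_mod_cast Int.one_le_abs hs
      have e1 : (a : ℝ) * m₁ + b * m₂ = ((a + b : ℤ) : ℝ) * m₁ + b * D := by
        rw [hD]
        push_cast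
        ring
      rw [e1]
      have e2 : |((a + b : ℤ) : ℝ) * m₁| - |(b : ℝ) * D| ≤
          |((a + b : ℤ) : ℝ) * m₁ + b * D| := by
        have := abs_sub_abs_le_abs_sub (((a + b : ℤ) : ℝ) * m₁) (-((b : ℝ) * D))
        rwa [abs_neg, sub_neg_eq_add] at this
      refine le_trans ?_ e2
      rw [abs_mul, abs_mul, abs_of_pos hD0, abs_of_nonneg hm1]
      have e3 : (m₁ : ℝ) ≤ |((a + b : ℤ) : ℝ)| * m₁ := le_mul_of_one_le_left hm1 hs1
      have e4 : |(b : ℝ)| * D ≤ 32000 * D := mul_le_mul_of_nonneg_right hb' hD0.le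
      linarith
  · have e1 : |(a : ℝ) * m₁ + b * m₂| ≤ 64000 * m₂ := by
      have hm12 : (m₁ : ℝ) ≤ m₂ := by linarith
      calc |(a : ℝ) * m₁ + b * m₂| ≤ |(a : ℝ) * m₁| + |(b : ℝ) * m₂| := abs_add_le _ _
        _ = |(a : ℝ)| * m₁ + |(b : ℝ)| * m₂ := by
          rw [abs_mul, abs_mul, abs_of_nonneg hm1, abs_of_pos hm0]
        _ ≤ 32000 * m₂ + 32000 * m₂ := by gcongr
        _ = _ := by ring
    have hK2 : (k₂ : ℝ) ≤ ((2000 * k₁ : ℕ) : ℝ) := by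
      push_cast
      linarith
    have hK0 : (0 : ℝ) < ((2000 * k₁ : ℕ) : ℝ) := by linarith
    have g1 : l ≤ 1 + Real.log ((2000 * k₁ : ℕ) : ℝ) := by
      have g2 : Real.log k₂ ≤ Real.log ((2000 * k₁ : ℕ) : ℝ) := Real.log_le_log hk20 hK2
      rw [hldef]
      linarith
    have g3 : 1 ≤ l ^ θ := Real.one_le_rpow hl1 (by linarith)
    have g4 : 12 + L ≤ (1 + Real.log ((2000 * k₁ : ℕ) : ℝ)) ^ (θ + δ) := by
      calc 12 + L ≤ 12 * l ^ θ + l ^ θ := by linarith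
        _ = l ^ θ * 13 := by ring
        _ ≤ l ^ θ * l ^ δ := by gcongr
        _ = l ^ (θ + δ) := (Real.rpow_add (by linarith) θ δ).symm
        _ ≤ (1 + Real.log ((2000 * k₁ : ℕ) : ℝ)) ^ (θ + δ) := Real.rpow_le_rpow (by linarith) g1 (by linarith)
    have g5 : (64000 : ℝ) ≤ Real.exp 12 := by
      have g6 : (2.7 : ℝ) ≤ Real.exp 1 := by
        have := Real.exp_one_gt_d9
        linarith
      have g7 : Real.exp 12 = Real.exp 1 ^ 12 := by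
        rw [← Real.exp_nat_mul]
        norm_num
      rw [g7]
      calc (64000 : ℝ) ≤ 2.7 ^ 12 := by norm_num
        _ ≤ Real.exp 1 ^ 12 := pow_le_pow_left₀ (by norm_num) g6 12
    calc |(a : ℝ) * m₁ + b * m₂| ≤ 64000 * m₂ := e1
      _ ≤ Real.exp 12 * m₂ := mul_le_mul_of_nonneg_right g5 hm0.le
      _ = Real.exp 12 * Real.exp L := by rw [hLdef, Real.exp_log hm0]
      _ = Real.exp (12 + L) := (Real.exp_add _ _).symm
      _ ≤ Real.exp ((1 + Real.log ((2000 * k₁ : ℕ) : ℝ)) ^ (θ + δ)) := Real.exp_le_exp.2 g4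

end Pool.Agent.Lib.MP_50b5e1_nt
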