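import Pool.Agent.Lib.MP_50b5e1_nt.V.VDef
import Pool.Agent.Lib.MP_570bef_ntV.VM.Lift

/-!
# V/HExp (JOB HExp): expansion of the even moments

`pow_expand`: `‖g‖ ^ (2 s) = g ^ s * conj g ^ s`, `g = ∑_{v < M} e (∑_i β_i v ^ (i+1))`; write `g = ∑ v : Fin M, ..` (`Finset.sum_range`), `g ^ s = ∑ x : Fin s → Fin M, ∏ k, e (..)`
(`Finset.sum_pow'` / `Finset.prod_univ_sum`, `Fintype.piFinset_univ`), a product of `e` is the `e` of the sum (`e_add`; lemma by `Finset.induction`), `conj (e x) = e (-x)` (`conj_e`). So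
`‖g‖ ^ (2 s) = ∑_{(x,y)} e (∑_i β_i (∑_k x_k^(i+1) - ∑_k y_k^(i+1)))`; group the pairs `(x,y)` by the vector `l = (∑ x_k^(i+1) - ∑ y_k^(i+1))_i` (`Finset.sum_fiberwise_of_maps_to`):
the vector is in `box r s M` because `0 ≤ ∑_k x_k^(i+1) ≤ s M^(i+1)`, and the fibre of `l` has `nu s r M l` elements.
`sum_nu`: the same grouping (`Finset.card_eq_sum_card_fiberwise`), the number of pairs is `(M^s)^2`.
`nu_le`: with `n w = #{x : vector of power sums of x = w}`: `nu l = ∑_w n w * n (w + l)`-like sum `≤ ∑ (n w)^2` (Cauchy-Schwarz / `2 a b ≤ a^2 + b^2`), and `∑_w (n w)^2 = JN s r M`. Exactly this is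
`Pool.Agent.Lib.MP_570bef_ntV.VM.triangle` in MP_570bef_ntV/VM/Lift.lean (import it): with `A = univ : Finset (Fin s → Fin M)`, `G x = fun i : Fin r => ∑ k, (x k : ℤ)^(i+1)`, `h = l`
(`nu` counts the pairs with `G x - G y = l`, `triangle` those with `G z.2 - G z.1 = h`: swap), and `#{G x = G y} = JN s r M` (`Nat.cast` injective; `j ∈ Icc 1 r` corresponds to `i = j - 1 : Fin r`).
-/

set_option autoImplicit false

open Finset Real
open Pool.Agent.Lib.MP_2a816b_nt (e norm_e conj_e e_add e_neg)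

namespace Pool.Agent.Lib.MP_50b5e1_nt

/-- the vector of the power sums -/
private noncomputable def hexpG (r s M : ℕ) (x : Fin s → Fin M) : Fin r → ℤ :=
  fun i => ∑ k, ((x k : ℕ) : ℤ) ^ ((i : ℕ) + 1)

private lemma hexp_prod {α : Type*} (t : Finset α) (f : α → ℝ) : ∏ k ∈ t, e (f k) = e (∑ k ∈ t, f k) := by
  classical
  induction t using Finset.induction_on with
  | empty => simp [e]
  | insert a t ha ih => rw [prod_insert ha, sum_insert ha, e_add, ih]

private lemma hexp_nu (r s M : ℕ) (l : Fin r → ℤ) :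
    nu s r M l = ((univ : Finset ((Fin s → Fin M) × (Fin s → Fin M))).filter
      (fun q => hexpG r s M q.1 - hexpG r s M q.2 = l)).card := by
  unfold nu
  refine congrArg card ?_
  ext q
  simp only [mem_filter, mem_univ, true_and]
  constructor
  · intro h
    funext i
    exact h i
  · intro h i
    exact congrFun h i

private lemma hexp_maps (r s M : ℕ) (q : (Fin s → Fin M) × (Fin s → Fin M)) :
    hexpG r s M q.1 - hexpG r s M q.2 ∈ box r s M := by
  have key : ∀ (x : Fin s → Fin M) (i : Fin r), 0 ≤ hexpG r s M x i ∧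
      hexpG r s M x i ≤ ((s * M ^ ((i : ℕ) + 1) : ℕ) : ℤ) := by
    intro x i
    constructor
    · exact sum_nonneg fun k _ => by positivity
    · have h1 : hexpG r s M x i ≤ ∑ _k : Fin s, ((M : ℤ)) ^ ((i : ℕ) + 1) := by
        refine sum_le_sum fun k _ => ?_
        exact pow_le_pow_left₀ (by positivity) (by exact_mod_cast (x k).2.le) _
      refine h1.trans (le_of_eq ?_)
      simp
  unfold box
  rw [Fintype.mem_piFinset]
  intro i
  have h1 := key q.1 i
  have h2 := key q.2 i
  rw [mem_Icc, Pi.sub_apply]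
  constructor <;> linarith [h1.1, h1.2, h2.1, h2.2]

private lemma hexp_pow (r s M : ℕ) (β : Fin r → ℝ) :
    (∑ v ∈ range M, e (∑ i : Fin r, β i * (v : ℝ) ^ ((i : ℕ) + 1))) ^ s =
      ∑ x : Fin s → Fin M, e (∑ i : Fin r, β i * (hexpG r s M x i : ℝ)) := by
  rw [Finset.sum_range (fun v : ℕ => e (∑ i : Fin r, β i * (v : ℝ) ^ ((i : ℕ) + 1))), Finset.sum_pow',
    Fintype.piFinset_univ]
  refine sum_congr rfl fun x _ => ?_
  rw [hexp_prod, sum_comm]
  refine congrArg e (sum_congr rfl fun i _ => ?_)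
  rw [← mul_sum]
  unfold hexpG
  push_cast
  rfl

theorem pow_expand (r s M : ℕ) (β : Fin r → ℝ) :
    ((‖∑ v ∈ range M, e (∑ i : Fin r, β i * (v : ℝ) ^ ((i : ℕ) + 1))‖ ^ (2 * s) : ℝ) : ℂ) =
      ∑ l ∈ box r s M, (nu s r M l : ℂ) * e (∑ i : Fin r, β i * (l i : ℝ)) := by
  set g := ∑ v ∈ range M, e (∑ i : Fin r, β i * (v : ℝ) ^ ((i : ℕ) + 1)) with hg
  have h1 : ((‖g‖ ^ (2 * s) : ℝ) : ℂ) = g ^ s * (starRingEnd ℂ) (g ^ s) := by
    rw [Complex.mul_conj, Complex.normSq_eq_norm_sq, norm_pow, ← pow_mul, mul_comm s 2]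
  have h2 : g ^ s = ∑ x : Fin s → Fin M, e (∑ i : Fin r, β i * (hexpG r s M x i : ℝ)) := hexp_pow r s M β
  have h3 : (starRingEnd ℂ) (g ^ s) =
      ∑ y : Fin s → Fin M, e (-(∑ i : Fin r, β i * (hexpG r s M y i : ℝ))) := by
    rw [h2, map_sum]
    refine sum_congr rfl fun y _ => ?_
    rw [conj_e]
  rw [h1, h3, h2, sum_mul_sum]
  have h4 : ∑ x : Fin s → Fin M, ∑ y : Fin s → Fin M, e (∑ i : Fin r, β i * (hexpG r s M x i : ℝ)) *
      e (-(∑ i : Fin r, β i * (hexpG r s M y i : ℝ))) =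
      ∑ q : (Fin s → Fin M) × (Fin s → Fin M),
        e (∑ i : Fin r, β i * (((hexpG r s M q.1 - hexpG r s M q.2) i : ℤ) : ℝ)) := by
    rw [Fintype.sum_prod_type]
    refine sum_congr rfl fun x _ => sum_congr rfl fun y _ => ?_
    rw [← e_add]
    refine congrArg e ?_
    rw [← sub_eq_add_neg, ← sum_sub_distrib]
    refine sum_congr rfl fun i _ => ?_
    rw [Pi.sub_apply]
    push_cast
    ring
  rw [h4, ← sum_fiberwise_of_maps_to (s := (univ : Finset ((Fin s → Fin M) × (Fin s → Fin M))))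
    (t := box r s M) (g := fun q => hexpG r s M q.1 - hexpG r s M q.2) (fun q _ => hexp_maps r s M q)]
  refine sum_congr rfl fun l _ => ?_
  rw [hexp_nu]
  have h5 : ∀ q ∈ (univ : Finset ((Fin s → Fin M) × (Fin s → Fin M))).filter
      (fun q => hexpG r s M q.1 - hexpG r s M q.2 = l),
      e (∑ i : Fin r, β i * (((hexpG r s M q.1 - hexpG r s M q.2) i : ℤ) : ℝ)) =
        e (∑ i : Fin r, β i * (l i : ℝ)) := by
    intro q hq
    rw [(mem_filter.1 hq).2]
  rw [sum_congr rfl h5, sum_const, nsmul_eq_mul]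

theorem sum_nu (r s M : ℕ) : ∑ l ∈ box r s M, nu s r M l = M ^ (2 * s) := by
  have h1 := card_eq_sum_card_fiberwise (s := (univ : Finset ((Fin s → Fin M) × (Fin s → Fin M))))
    (t := box r s M) (f := fun q => hexpG r s M q.1 - hexpG r s M q.2) (fun q _ => hexp_maps r s M q)
  rw [sum_congr rfl fun l _ => hexp_nu r s M l, ← h1, card_univ, Fintype.card_prod, Fintype.card_fun,
    Fintype.card_fin, Fintype.card_fin, ← pow_add, two_mul]

theorem nu_le (r s M : ℕ) (l : Fin r → ℤ) : nu s r M l ≤ VM.JN s r M := by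
  classical
  have h1 := Pool.Agent.Lib.MP_570bef_ntV.VM.triangle (univ : Finset (Fin s → Fin M)) (hexpG r s M) l
  have h2 : nu s r M l = (((univ : Finset (Fin s → Fin M)) ×ˢ (univ : Finset (Fin s → Fin M))).filter
      (fun z => hexpG r s M z.2 - hexpG r s M z.1 = l)).card := by
    rw [hexp_nu]
    refine card_bij' (fun q _ => (q.2, q.1)) (fun q _ => (q.2, q.1)) ?_ ?_ ?_ ?_
    · intro q hq
      simp only [mem_filter, mem_univ, true_and, univ_product_univ] at hq ⊢
      exact hq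
    · intro q hq
      simp only [mem_filter, mem_univ, true_and, univ_product_univ] at hq ⊢
      exact hq
    · intro q _
      rfl
    · intro q _
      rfl
  have h3 : (((univ : Finset (Fin s → Fin M)) ×ˢ (univ : Finset (Fin s → Fin M))).filter
      (fun z => hexpG r s M z.1 = hexpG r s M z.2)).card = VM.JN s r M := by
    unfold VM.JN
    rw [univ_product_univ]
    refine congrArg card ?_
    ext q
    simp only [mem_filter, mem_univ, true_and]
    constructor
    · intro h j hj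
      rw [mem_Icc] at hj
      have h4 := congrFun h (⟨j - 1, by omega⟩ : Fin r)
      unfold hexpG at h4
      simp only at h4
      rw [Nat.sub_add_cancel hj.1] at h4
      exact_mod_cast h4
    · intro h
      funext i
      have h4 := h ((i : ℕ) + 1) (mem_Icc.2 ⟨by omega, i.2⟩)
      unfold hexpG
      exact_mod_cast h4
  rw [h2]
  exact h1.trans (le_of_eq h3)

end Pool.Agent.Lib.MP_50b5e1_nt
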