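import Pool.Agent.Lib.MP_50b5e1_nt.V.HExp

/-!
# V/HHol (JOB HHol): the double sum and the mean value

`holder3`: `(∑ ν T)^s ≤ (∑ ν)^(s-1) ∑ ν T^s` (power mean with the weights `ν`: `inner_le_Lp_mul_Lq_of_nonneg` or `Real.inner_le_Lp_mul_Lq`, or
`Finset.inner_mul_le_norm_mul_norm`; simplest: `Real.pow_arith_mean_le_arith_mean_pow` after dividing by `∑ ν` if it is positive; if `∑ ν = 0` all `ν i = 0`), then square: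
`(∑ ν T)^(2s) ≤ (∑ ν)^(2s-2) (∑ ν T^s)^2` and `(∑ ν T^s)^2 ≤ (∑ ν^2) (∑ T^(2s))` (`Finset.sum_mul_sq_le_sq_mul_sq`).
`WW_le`: let `g u = ∑_{v<M} e (∑_i (α_i u^(i+1)) v^(i+1))`, `J = JN s r M`, `ν l = nu s r M l`, `T l = ‖∑_{u<M} e (∑_i (α_i l_i) u^(i+1))‖`.
(1) `‖WW‖ ≤ ∑_u ‖g u‖`, `(∑_u ‖g u‖)^(2s) ≤ M^(2s-1) ∑_u ‖g u‖^(2s)` (power mean, `inner_le_nnorm_mul_nnorm`.. or `holder`: `Finset.inner..`; there is `inner_le_...`; or `pow_sum_le..`; prove as (holder3) with `ν = 1`).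
(2) `pow_expand` with `β_i = α_i u^(i+1)`: `∑_u ‖g u‖^(2s) = ∑_l ν l ∑_u e (∑_i α_i u^(i+1) l_i)` (as complex numbers), so `∑_u ‖g u‖^(2s) ≤ ∑_l ν l T l` (the left side is real: take norms).
(3) `(∑ ν T)^(2s) ≤ (∑ ν)^(2s-2) (∑ ν^2) (∑ T^(2s))`, `∑ ν = M^(2s)` (`sum_nu`), `∑ ν^2 ≤ J ∑ ν = J M^(2s)` (`nu_le`).
(4) `pow_expand` with `β_i = α_i l_i`: `∑_l T(l)^(2s) = ∑_l ∑_{l'} ν(l') e (∑_i α_i l_i l'_i)`, so `∑_l T(l)^(2s) ≤ ∑_{l'} ν(l') ‖∑_{l ∈ box} e (∑_i α_i l_i l'_i)‖`, and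
`∑_{l ∈ box} e (∑_i α_i l_i l'_i) = ∏_i ∑_{l_i} e (α_i l_i l'_i)` (`Finset.prod_univ_sum`), `ν(l') ≤ J`, and
`∑_{l' ∈ box} ∏_i ‖∑_{l_i} e (α_i l_i l'_i)‖ = ∏_i Phi (α_i) (s M^(i+1))` (`Finset.prod_univ_sum` again). So `∑ T^(2s) ≤ J ∏_i Phi`.
(5) `‖WW‖^(4 s^2) = (‖WW‖^(2s))^(2s) ≤ (M^(2s-1) ∑ ν T)^(2s) ≤ M^(2s(2s-1)) M^(2s(2s-2)) J M^(2s) J ∏ Phi = M^(8s^2-4s) J^2 ∏ Phi`.
(All exponents are natural numbers; put `s = n + 1` to avoid subtractions.)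
-/

set_option autoImplicit false

open Finset Real
open Pool.Agent.Lib.MP_2a816b_nt (e norm_e conj_e e_add e_neg)

namespace Pool.Agent.Lib.MP_50b5e1_nt

private theorem HHol_pm {ι : Type*} (A : Finset ι) (ν T : ι → ℝ) (hν : ∀ i ∈ A, 0 ≤ ν i) (hT : ∀ i ∈ A, 0 ≤ T i)
    (n : ℕ) : (∑ i ∈ A, ν i * T i) ^ (n + 1) ≤ (∑ i ∈ A, ν i) ^ n * ∑ i ∈ A, ν i * T i ^ (n + 1) := by
  have hW0 : 0 ≤ ∑ i ∈ A, ν i := Finset.sum_nonneg hν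
  have hR : 0 ≤ ∑ i ∈ A, ν i * T i ^ (n + 1) :=
    Finset.sum_nonneg fun i hi => mul_nonneg (hν i hi) (pow_nonneg (hT i hi) _)
  rcases hW0.eq_or_lt with h0 | hpos
  · have h1 : ∀ i ∈ A, ν i = 0 := (Finset.sum_eq_zero_iff_of_nonneg hν).1 h0.symm
    have h2 : ∑ i ∈ A, ν i * T i = 0 := Finset.sum_eq_zero fun i hi => by rw [h1 i hi, zero_mul]
    rw [h2, zero_pow (Nat.succ_ne_zero n)]
    exact mul_nonneg (pow_nonneg hW0 _) hR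
  · set W : ℝ := ∑ i ∈ A, ν i with hW
    have h1 := Real.pow_arith_mean_le_arith_mean_pow A (fun i => ν i / W) T
      (fun i hi => div_nonneg (hν i hi) hpos.le) (by rw [← Finset.sum_div, ← hW, div_self hpos.ne']) hT (n + 1)
    have h2 : ∑ i ∈ A, ν i / W * T i = (∑ i ∈ A, ν i * T i) / W := by
      rw [Finset.sum_div]
      exact Finset.sum_congr rfl fun i _ => by ring
    have h3 : ∑ i ∈ A, ν i / W * T i ^ (n + 1) = (∑ i ∈ A, ν i * T i ^ (n + 1)) / W := by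
      rw [Finset.sum_div]
      exact Finset.sum_congr rfl fun i _ => by ring
    rw [h2, h3, div_pow, div_le_div_iff₀ (pow_pos hpos _) hpos] at h1
    have h4 : (∑ i ∈ A, ν i * T i) ^ (n + 1) * W ≤ (W ^ n * ∑ i ∈ A, ν i * T i ^ (n + 1)) * W := by
      calc (∑ i ∈ A, ν i * T i) ^ (n + 1) * W ≤ (∑ i ∈ A, ν i * T i ^ (n + 1)) * W ^ (n + 1) := h1
        _ = _ := by ring
    exact le_of_mul_le_mul_right h4 hpos

private theorem HHol_e_sum {ι : Type*} (A : Finset ι) (f : ι → ℝ) : e (∑ i ∈ A, f i) = ∏ i ∈ A, e (f i) := by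
  unfold Pool.Agent.Lib.MP_2a816b_nt.e
  rw [← Complex.exp_sum]
  congr 1
  rw [Complex.ofReal_sum, Finset.mul_sum, Finset.sum_mul]

theorem holder3 {ι : Type*} (A : Finset ι) (ν T : ι → ℝ) (hν : ∀ i ∈ A, 0 ≤ ν i) (hT : ∀ i ∈ A, 0 ≤ T i) (s : ℕ)
    (hs : 1 ≤ s) : (∑ i ∈ A, ν i * T i) ^ (2 * s) ≤
      (∑ i ∈ A, ν i) ^ (2 * s - 2) * (∑ i ∈ A, ν i ^ 2) * ∑ i ∈ A, T i ^ (2 * s) := by
  obtain ⟨n, rfl⟩ : ∃ n, s = n + 1 := ⟨s - 1, by omega⟩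
  have h1 := HHol_pm A ν T hν hT n
  have h2 := Finset.sum_mul_sq_le_sq_mul_sq A ν (fun i => T i ^ (n + 1))
  have hW0 : 0 ≤ ∑ i ∈ A, ν i := Finset.sum_nonneg hν
  have h0 : 0 ≤ ∑ i ∈ A, ν i * T i := Finset.sum_nonneg fun i hi => mul_nonneg (hν i hi) (hT i hi)
  have h3 : ∑ i ∈ A, (T i ^ (n + 1)) ^ 2 = ∑ i ∈ A, T i ^ (2 * (n + 1)) :=
    Finset.sum_congr rfl fun i _ => by rw [← pow_mul, mul_comm]
  rw [h3] at h2
  have e1 : 2 * (n + 1) - 2 = 2 * n := by omega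
  rw [e1]
  calc (∑ i ∈ A, ν i * T i) ^ (2 * (n + 1)) = ((∑ i ∈ A, ν i * T i) ^ (n + 1)) ^ 2 := by
        rw [← pow_mul, mul_comm]
    _ ≤ ((∑ i ∈ A, ν i) ^ n * ∑ i ∈ A, ν i * T i ^ (n + 1)) ^ 2 :=
        pow_le_pow_left₀ (pow_nonneg h0 _) h1 2
    _ = (∑ i ∈ A, ν i) ^ (2 * n) * (∑ i ∈ A, ν i * T i ^ (n + 1)) ^ 2 := by
        rw [mul_pow, ← pow_mul, mul_comm n 2]
    _ ≤ (∑ i ∈ A, ν i) ^ (2 * n) * ((∑ i ∈ A, ν i ^ 2) * ∑ i ∈ A, T i ^ (2 * (n + 1))) :=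
        mul_le_mul_of_nonneg_left h2 (pow_nonneg hW0 _)
    _ = _ := by ring

theorem WW_le (r s M : ℕ) (hs : 1 ≤ s) (α : Fin r → ℝ) : ‖WW r M α‖ ^ (4 * s ^ 2) ≤
    (M : ℝ) ^ (8 * s ^ 2 - 4 * s) * (VM.JN s r M : ℝ) ^ 2 * ∏ i : Fin r, Phi (α i) (s * M ^ ((i : ℕ) + 1)) := by
  obtain ⟨n, rfl⟩ : ∃ n, s = n + 1 := ⟨s - 1, by omega⟩
  set J : ℝ := (VM.JN (n + 1) r M : ℝ) with hJ
  have hJ0 : 0 ≤ J := Nat.cast_nonneg _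
  set B : Finset (Fin r → ℤ) := box r (n + 1) M with hB
  let ν : (Fin r → ℤ) → ℝ := fun l => (nu (n + 1) r M l : ℝ)
  let T : (Fin r → ℤ) → ℝ := fun l =>
    ‖∑ u ∈ range M, e (∑ i : Fin r, (α i * (l i : ℝ)) * (u : ℝ) ^ ((i : ℕ) + 1))‖
  let g : ℕ → ℂ := fun u => ∑ v ∈ range M, e (∑ i : Fin r, (α i * (u : ℝ) ^ ((i : ℕ) + 1)) * (v : ℝ) ^ ((i : ℕ) + 1))
  have hν0 : ∀ l, 0 ≤ ν l := fun l => Nat.cast_nonneg _
  have hT0 : ∀ l, 0 ≤ T l := fun l => norm_nonneg _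
  have hWW : WW r M α = ∑ u ∈ range M, g u := by
    unfold WW
    refine Finset.sum_congr rfl fun u _ => Finset.sum_congr rfl fun v _ => ?_
    congr 1
    exact Finset.sum_congr rfl fun i _ => by ring
  have h1 : ‖WW r M α‖ ≤ ∑ u ∈ range M, ‖g u‖ := by
    rw [hWW]
    exact norm_sum_le _ _
  have h2 : (∑ u ∈ range M, ‖g u‖) ^ (2 * (n + 1)) ≤ (M : ℝ) ^ (2 * n + 1) * ∑ u ∈ range M, ‖g u‖ ^ (2 * (n + 1)) := by
    have h := HHol_pm (range M) (fun _ => (1 : ℝ)) (fun u => ‖g u‖) (fun _ _ => zero_le_one)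
      (fun u _ => norm_nonneg _) (2 * n + 1)
    simp only [one_mul, Finset.sum_const, Finset.card_range, nsmul_eq_mul, mul_one] at h
    exact h
  have h3 : ∑ u ∈ range M, ‖g u‖ ^ (2 * (n + 1)) ≤ ∑ l ∈ B, ν l * T l := by
    have e1 : ((∑ u ∈ range M, ‖g u‖ ^ (2 * (n + 1)) : ℝ) : ℂ) = ∑ l ∈ B, (nu (n + 1) r M l : ℂ) *
        ∑ u ∈ range M, e (∑ i : Fin r, (α i * (l i : ℝ)) * (u : ℝ) ^ ((i : ℕ) + 1)) := by
      rw [Complex.ofReal_sum]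
      have e2 : ∀ u ∈ range M, ((‖g u‖ ^ (2 * (n + 1)) : ℝ) : ℂ) = ∑ l ∈ B, (nu (n + 1) r M l : ℂ) *
          e (∑ i : Fin r, (α i * (l i : ℝ)) * (u : ℝ) ^ ((i : ℕ) + 1)) := by
        intro u _
        rw [pow_expand r (n + 1) M (fun i => α i * (u : ℝ) ^ ((i : ℕ) + 1))]
        refine Finset.sum_congr rfl fun l _ => ?_
        congr 2
        exact Finset.sum_congr rfl fun i _ => by ring
      rw [Finset.sum_congr rfl e2, Finset.sum_comm]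
      exact Finset.sum_congr rfl fun l _ => by rw [Finset.mul_sum]
    have e3 : 0 ≤ ∑ u ∈ range M, ‖g u‖ ^ (2 * (n + 1)) :=
      Finset.sum_nonneg fun u _ => pow_nonneg (norm_nonneg _) _
    have e4 : ∑ u ∈ range M, ‖g u‖ ^ (2 * (n + 1)) = ‖((∑ u ∈ range M, ‖g u‖ ^ (2 * (n + 1)) : ℝ) : ℂ)‖ := by
      rw [Complex.norm_real, Real.norm_of_nonneg e3]
    rw [e4, e1]
    refine (norm_sum_le _ _).trans (Finset.sum_le_sum fun l _ => ?_)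
    rw [norm_mul, Complex.norm_natCast]
  have h4 := holder3 B ν T (fun l _ => hν0 l) (fun l _ => hT0 l) (n + 1) (by omega)
  have e0 : 2 * (n + 1) - 2 = 2 * n := by omega
  rw [e0] at h4
  have h5 : ∑ l ∈ B, ν l = (M : ℝ) ^ (2 * (n + 1)) := by
    have h := sum_nu r (n + 1) M
    have h' := congrArg (fun k : ℕ => (k : ℝ)) h
    simp only [Nat.cast_sum, Nat.cast_pow] at h'
    exact h'
  have hνJ : ∀ l, ν l ≤ J := fun l => Nat.cast_le.2 (nu_le r (n + 1) M l)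
  have h6 : ∑ l ∈ B, ν l ^ 2 ≤ J * (M : ℝ) ^ (2 * (n + 1)) := by
    rw [← h5, Finset.mul_sum]
    refine Finset.sum_le_sum fun l _ => ?_
    rw [sq]
    exact mul_le_mul_of_nonneg_right (hνJ l) (hν0 l)
  have h7 : ∑ l ∈ B, T l ^ (2 * (n + 1)) ≤ J * ∏ i : Fin r, Phi (α i) ((n + 1) * M ^ ((i : ℕ) + 1)) := by
    have e1 : ((∑ l ∈ B, T l ^ (2 * (n + 1)) : ℝ) : ℂ) = ∑ k ∈ B, (nu (n + 1) r M k : ℂ) *
        ∑ l ∈ B, e (∑ i : Fin r, α i * (l i : ℝ) * (k i : ℝ)) := by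
      rw [Complex.ofReal_sum]
      have e2 : ∀ l ∈ B, ((T l ^ (2 * (n + 1)) : ℝ) : ℂ) = ∑ k ∈ B, (nu (n + 1) r M k : ℂ) *
          e (∑ i : Fin r, α i * (l i : ℝ) * (k i : ℝ)) := fun l _ =>
        pow_expand r (n + 1) M (fun i => α i * (l i : ℝ))
      rw [Finset.sum_congr rfl e2, Finset.sum_comm]
      exact Finset.sum_congr rfl fun l _ => by rw [Finset.mul_sum]
    have e3 : 0 ≤ ∑ l ∈ B, T l ^ (2 * (n + 1)) := Finset.sum_nonneg fun l _ => pow_nonneg (hT0 l) _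
    have e4 : ∑ l ∈ B, T l ^ (2 * (n + 1)) = ‖((∑ l ∈ B, T l ^ (2 * (n + 1)) : ℝ) : ℂ)‖ := by
      rw [Complex.norm_real, Real.norm_of_nonneg e3]
    have e5 : ∀ k : Fin r → ℤ, ∑ l ∈ B, e (∑ i : Fin r, α i * (l i : ℝ) * (k i : ℝ)) =
        ∏ i : Fin r, ∑ l ∈ Icc (-((((n + 1) * M ^ ((i : ℕ) + 1) : ℕ)) : ℤ)) (((n + 1) * M ^ ((i : ℕ) + 1) : ℕ) : ℤ),
          e (α i * (l : ℝ) * (k i : ℝ)) := by
      intro k
      rw [Finset.prod_univ_sum]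
      refine Finset.sum_congr rfl fun l _ => ?_
      exact HHol_e_sum _ _
    rw [e4, e1]
    refine (norm_sum_le _ _).trans ?_
    have e6 : ∀ k ∈ B, ‖(nu (n + 1) r M k : ℂ) * ∑ l ∈ B, e (∑ i : Fin r, α i * (l i : ℝ) * (k i : ℝ))‖ ≤
        J * ∏ i : Fin r, ‖∑ l ∈ Icc (-((((n + 1) * M ^ ((i : ℕ) + 1) : ℕ)) : ℤ))
          (((n + 1) * M ^ ((i : ℕ) + 1) : ℕ) : ℤ), e (α i * (l : ℝ) * (k i : ℝ))‖ := by
      intro k _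
      rw [norm_mul, Complex.norm_natCast, e5, norm_prod]
      exact mul_le_mul_of_nonneg_right (hνJ k) (Finset.prod_nonneg fun i _ => norm_nonneg _)
    refine (Finset.sum_le_sum e6).trans (le_of_eq ?_)
    rw [← Finset.mul_sum]
    congr 1
    have e7 := (Finset.prod_univ_sum (ι := Fin r) (κ := fun _ => ℤ)
      (fun i => Icc (-((((n + 1) * M ^ ((i : ℕ) + 1) : ℕ)) : ℤ)) (((n + 1) * M ^ ((i : ℕ) + 1) : ℕ) : ℤ))
      (fun i m => ‖∑ l ∈ Icc (-((((n + 1) * M ^ ((i : ℕ) + 1) : ℕ)) : ℤ))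
          (((n + 1) * M ^ ((i : ℕ) + 1) : ℕ) : ℤ), e (α i * (l : ℝ) * (m : ℝ))‖)).symm
    exact e7
  set Q : ℝ := ∏ i : Fin r, Phi (α i) ((n + 1) * M ^ ((i : ℕ) + 1)) with hQ
  have hQ0 : 0 ≤ Q := Finset.prod_nonneg fun i _ => Finset.sum_nonneg fun m _ => norm_nonneg _
  have hM0 : (0 : ℝ) ≤ M := Nat.cast_nonneg _
  have hY0 : 0 ≤ ∑ l ∈ B, ν l * T l := Finset.sum_nonneg fun l _ => mul_nonneg (hν0 l) (hT0 l)
  have h8 : ‖WW r M α‖ ^ (2 * (n + 1)) ≤ (M : ℝ) ^ (2 * n + 1) * ∑ l ∈ B, ν l * T l :=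
    (pow_le_pow_left₀ (norm_nonneg _) h1 _).trans (h2.trans
      (mul_le_mul_of_nonneg_left h3 (pow_nonneg hM0 _)))
  have h9 : (∑ l ∈ B, ν l * T l) ^ (2 * (n + 1)) ≤
      ((M : ℝ) ^ (2 * (n + 1))) ^ (2 * n) * (J * (M : ℝ) ^ (2 * (n + 1))) * (J * Q) := by
    rw [h5] at h4
    refine h4.trans ?_
    refine mul_le_mul (mul_le_mul_of_nonneg_left h6 (pow_nonneg (pow_nonneg hM0 _) _)) h7
      (Finset.sum_nonneg fun l _ => pow_nonneg (hT0 l) _) ?_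
    exact mul_nonneg (pow_nonneg (pow_nonneg hM0 _) _) (mul_nonneg hJ0 (pow_nonneg hM0 _))
  have e10 : 8 * (n + 1) ^ 2 - 4 * (n + 1) = (2 * n + 1) * (2 * (n + 1)) + (2 * (n + 1)) * (2 * n) + 2 * (n + 1) := by
    have : 8 * (n + 1) ^ 2 = (2 * n + 1) * (2 * (n + 1)) + (2 * (n + 1)) * (2 * n) + 2 * (n + 1) + 4 * (n + 1) := by
      ring
    omega
  rw [e10, pow_add, pow_add]
  calc ‖WW r M α‖ ^ (4 * (n + 1) ^ 2) = (‖WW r M α‖ ^ (2 * (n + 1))) ^ (2 * (n + 1)) := by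
        rw [← pow_mul]
        congr 1
        ring
    _ ≤ ((M : ℝ) ^ (2 * n + 1) * ∑ l ∈ B, ν l * T l) ^ (2 * (n + 1)) :=
        pow_le_pow_left₀ (pow_nonneg (norm_nonneg _) _) h8 _
    _ = (M : ℝ) ^ ((2 * n + 1) * (2 * (n + 1))) * (∑ l ∈ B, ν l * T l) ^ (2 * (n + 1)) := by
        rw [mul_pow, ← pow_mul]
    _ ≤ (M : ℝ) ^ ((2 * n + 1) * (2 * (n + 1))) *
        (((M : ℝ) ^ (2 * (n + 1))) ^ (2 * n) * (J * (M : ℝ) ^ (2 * (n + 1))) * (J * Q)) :=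
        mul_le_mul_of_nonneg_left h9 (pow_nonneg hM0 _)
    _ = (M : ℝ) ^ ((2 * n + 1) * (2 * (n + 1))) * (M : ℝ) ^ (2 * (n + 1) * (2 * n)) * (M : ℝ) ^ (2 * (n + 1)) *
        J ^ 2 * Q := by
        rw [← pow_mul]
        ring

end Pool.Agent.Lib.MP_50b5e1_nt
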