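import Pool.Agent.Lib.MP_50b5e1_nt.V.VCO
import Pool.Agent.Lib.MP_50b5e1_nt.X.Block

/-!
# V/VBL: one dyadic block of the type II sums, log-power savings

As `block` in X/Block, with `corr' θ (2 B)` (constant `C₀`). Let `P = 2^i`, `M = 2^(i+1)`, `N' = 4*K/2^i + 1 ≤ 8K/P`, `x = 1 + log K`, `δ = x^(-2B)`.
Case `4^i ≤ 4K`: `opB_of_rows`: a row has the diagonal term `≤ 8K/P` and the others `0` or `≤ C₀ (4K/P) δ`.
Case `4^i > 4K`: `opB_of_cols`, symmetric.
-/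

set_option autoImplicit false

open Finset Real
open Pool.Agent.Lib.MP_2a816b_nt (e norm_e conj_e e_add e_neg OpB)

namespace Pool.Agent.Lib.MP_50b5e1_nt

lemma VBL_fin (K U P C₀ δ b Q : ℝ) (hK : 1 ≤ K) (hU : 1 ≤ U) (hP : 0 < P) (hC : 1 ≤ C₀)
    (hQ : 0 ≤ Q) (hb : 0 ≤ b) (hδ : b ^ 2 = K ^ 2 * δ)
    (h : 8 * K * Q ≤ 128 * K ^ 2 / U + 128 * C₀ * (K ^ 2 * δ)) :
    √Q * (√P * √(2 * (4 * K) / P)) ≤ 12 * C₀ * (K / √U + b) := by
  have hK0 : 0 < K := by linarith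
  have hU0 : 0 < U := by linarith
  have e1 : √Q * (√P * √(2 * (4 * K) / P)) = √(8 * K * Q) := by
    rw [← Real.sqrt_mul hP.le, ← Real.sqrt_mul hQ]
    congr 1
    field_simp
    ring
  rw [e1]
  apply Real.sqrt_le_iff.2
  constructor
  · positivity
  · have s1 : √U ^ 2 = U := Real.sq_sqrt hU0.le
    have ha2 : (K / √U) ^ 2 = K ^ 2 / U := by rw [div_pow, s1]
    have ha : 0 ≤ K / √U := by positivity
    rw [← hδ] at h
    have h2 : 8 * K * Q ≤ 128 * (K / √U) ^ 2 + 128 * C₀ * b ^ 2 := by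
      rw [ha2]
      calc _ ≤ _ := h
        _ = _ := by ring
    generalize K / √U = a at ha h2 ⊢
    have hC2 : 1 ≤ C₀ ^ 2 := by nlinarith
    have hC3 : C₀ ≤ C₀ ^ 2 := by nlinarith
    have ha' : 0 ≤ a ^ 2 := sq_nonneg a
    have hb' : 0 ≤ b ^ 2 := sq_nonneg b
    have hab : 0 ≤ a * b := mul_nonneg ha hb
    have t1 : a ^ 2 ≤ C₀ ^ 2 * a ^ 2 := by nlinarith
    have t2 : C₀ * b ^ 2 ≤ C₀ ^ 2 * b ^ 2 := by nlinarith
    have t3 : 0 ≤ C₀ ^ 2 * (a * b) := by positivity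
    have t4 : 0 ≤ C₀ ^ 2 * b ^ 2 := by positivity
    have t5 : 0 ≤ C₀ ^ 2 * a ^ 2 := by positivity
    nlinarith

lemma VBL_off (K : ℕ) (y : ℝ) (C₀ δ R : ℝ) (hC : 1 ≤ C₀) (hδ : 0 ≤ δ) (hR : 0 < R)
    (hK : 1 ≤ K) (t : ℕ) (ht : ∀ n < t, (n : ℝ) ≤ R) (m m' : ℕ)
    (hcorr : 1 ≤ m → 1 ≤ m' →
      ‖∑ n ∈ range t, kap K y (m * n) * (starRingEnd ℂ) (kap K y (m' * n))‖ ≤
        C₀ * (((K : ℝ) / (min m m' : ℕ)) * δ)) :
    ‖∑ n ∈ range t, kap K y (m * n) * (starRingEnd ℂ) (kap K y (m' * n))‖ ≤ C₀ * (R * δ) := by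
  have hpos : 0 ≤ C₀ * (R * δ) := by positivity
  by_cases hz : ((min m m' : ℕ) : ℝ) * R ≤ K
  · have : ∑ n ∈ range t, kap K y (m * n) * (starRingEnd ℂ) (kap K y (m' * n)) = 0 := by
      apply sum_eq_zero
      intro n hn
      rw [mem_range] at hn
      have hnR := ht n hn
      have h1 : ((min m m' : ℕ) : ℝ) * n ≤ K := by
        refine le_trans ?_ hz
        gcongr
      have h2 : (min m m') * n ≤ K := by exact_mod_cast h1
      rcases le_total m m' with hm | hm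
      · rw [min_eq_left hm] at h2
        have : kap K y (m * n) = 0 := by
          unfold kap
          rw [if_neg]
          omega
        rw [this, zero_mul]
      · rw [min_eq_right hm] at h2
        have : kap K y (m' * n) = 0 := by
          unfold kap
          rw [if_neg]
          omega
        rw [this, map_zero, mul_zero]
    rw [this, norm_zero]
    exact hpos
  · push Not at hz
    have hK0 : (0 : ℝ) < K := by exact_mod_cast hK
    have hmin : 0 < min m m' := by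
      rcases Nat.eq_zero_or_pos (min m m') with h | h
      · rw [h] at hz
        simp only [Nat.cast_zero, zero_mul] at hz
        linarith
      · exact h
    have h1 : 1 ≤ m := by omega
    have h2 : 1 ≤ m' := by omega
    refine (hcorr h1 h2).trans ?_
    have h3 : (K : ℝ) / (min m m' : ℕ) ≤ R := by
      have : (0 : ℝ) < (min m m' : ℕ) := by exact_mod_cast hmin
      rw [div_le_iff₀ this]
      linarith
    gcongr

lemma VBL_row (K : ℕ) (y : ℝ) (C₀ δ R : ℝ) (hC : 1 ≤ C₀) (hδ : 0 ≤ δ) (hR : 0 < R)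
    (hK : 1 ≤ K) (M t : ℕ) (ht : ∀ n < t, (n : ℝ) ≤ R)
    (hcorr : ∀ m m' : ℕ, m < M → m' < M → 1 ≤ m → 1 ≤ m' → m ≠ m' →
      ‖∑ n ∈ range t, kap K y (m * n) * (starRingEnd ℂ) (kap K y (m' * n))‖ ≤
        C₀ * (((K : ℝ) / (min m m' : ℕ)) * δ)) (m : ℕ) (hm : m < M) :
    ∑ m' ∈ range M, ‖∑ n ∈ range t, kap K y (m * n) * (starRingEnd ℂ) (kap K y (m' * n))‖ ≤
      t + M * (C₀ * (R * δ)) := by
  have hpos : 0 ≤ C₀ * (R * δ) := by positivity
  calc ∑ m' ∈ range M, ‖∑ n ∈ range t, kap K y (m * n) * (starRingEnd ℂ) (kap K y (m' * n))‖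
      ≤ ∑ m' ∈ range M, ((if m' = m then (t : ℝ) else 0) + C₀ * (R * δ)) := by
        apply sum_le_sum
        intro m' hm'
        rw [mem_range] at hm'
        by_cases h : m' = m
        · rw [if_pos h]
          have : ‖∑ n ∈ range t, kap K y (m * n) * (starRingEnd ℂ) (kap K y (m' * n))‖ ≤ t := by
            refine (norm_sum_le _ _).trans ?_
            calc _ ≤ ∑ n ∈ range t, (1 : ℝ) := by
                  apply sum_le_sum
                  intro n _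
                  rw [norm_mul, RCLike.norm_conj]
                  have h1 := norm_kap_le K y (m * n)
                  have h2 := norm_kap_le K y (m' * n)
                  have h3 := norm_nonneg (kap K y (m * n))
                  have h4 := norm_nonneg (kap K y (m' * n))
                  nlinarith
              _ = t := by simp
          linarith
        · rw [if_neg h, zero_add]
          exact VBL_off K y C₀ δ R hC hδ hR hK t ht m m'
            (fun h1 h2 => hcorr m m' hm hm' h1 h2 (fun h3 => h h3.symm))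
    _ = t + M * (C₀ * (R * δ)) := by
        rw [sum_add_distrib, sum_const, card_range, nsmul_eq_mul, sum_ite_eq' (range M) m, if_pos (mem_range.2 hm)]

theorem block' (θ B : ℝ) (hθ1 : 1 ≤ θ) (hθ : θ < 3 / 2) (hB : 0 ≤ B) : ∃ C : ℝ, 1 ≤ C ∧
    ∀ (K U i : ℕ) (y : ℝ), 1 ≤ K → 1 ≤ U → (K : ℝ) ^ (1.9 : ℝ) ≤ |y| → |y| ≤ Real.exp ((1 + Real.log K) ^ θ) →
      2 ^ i ≤ 4 * K → U < 2 ^ (i + 1) → 2 ^ i * U ≤ 4 * K →
      ∃ D : ℝ, 0 ≤ D ∧ OpB (fun m n => kap K y (m * n)) (2 ^ (i + 1)) (4 * K / 2 ^ i + 1) D ∧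
        D * (√(2 ^ i) * √(2 * ((4 * K : ℕ) : ℝ) / 2 ^ i)) ≤ C * (K / √U + K / (1 + Real.log K) ^ B) := by
  obtain ⟨C₀, hC₀, hcorr⟩ := corr' θ (2 * B) hθ1 hθ (by linarith)
  refine ⟨12 * C₀, by linarith, ?_⟩
  intro K U i y hK hU hy1 hy2 hi hUi hPU
  have hKr : (1 : ℝ) ≤ K := by exact_mod_cast hK
  have hUr : (1 : ℝ) ≤ U := by exact_mod_cast hU
  have hK0 : (0 : ℝ) < K := by linarith
  have hU0 : (0 : ℝ) < U := by linarith
  have hx : (0 : ℝ) < 1 + Real.log K := by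
    have := Real.log_nonneg hKr
    linarith
  obtain ⟨δ, hδd⟩ : ∃ δ : ℝ, δ = ((1 + Real.log K) ^ (2 * B))⁻¹ := ⟨_, rfl⟩
  have hδ : 0 ≤ δ := by rw [hδd]; positivity
  have hδb : ((K : ℝ) / (1 + Real.log K) ^ B) ^ 2 = K ^ 2 * δ := by
    rw [hδd, div_pow, ← Real.rpow_natCast ((1 + Real.log K) ^ B), ← Real.rpow_mul hx.le, mul_comm B]
    push_cast
    rfl
  have hcorr2 : ∀ m m' t : ℕ, 1 ≤ m → 1 ≤ m' → m ≠ m' → m ^ 2 ≤ 16 * K → m' ^ 2 ≤ 16 * K →
      ‖∑ n ∈ range t, kap K y (m * n) * (starRingEnd ℂ) (kap K y (m' * n))‖ ≤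
        C₀ * (((K : ℝ) / (min m m' : ℕ)) * δ) := fun m m' t h1 h2 h3 h4 h5 => by
    have h6 := hcorr K y hK hy1 hy2 m m' t h1 h2 h3 h4 h5
    rw [hδd, ← mul_assoc, ← div_eq_mul_inv]
    exact h6
  obtain ⟨P, hP⟩ : ∃ P : ℕ, P = 2 ^ i := ⟨_, rfl⟩
  have hP1 : 1 ≤ P := by rw [hP]; exact Nat.one_le_two_pow
  have hPr : (1 : ℝ) ≤ P := by exact_mod_cast hP1
  have hP0 : (0 : ℝ) < P := by linarith
  have hpow : (2 : ℝ) ^ i = P := by rw [hP]; push_cast; rfl
  have hpow1 : 2 ^ (i + 1) = 2 * P := by rw [hP, pow_succ]; ring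
  rw [hpow1] at hUi ⊢
  rw [hpow]
  rw [← hP] at hi hPU ⊢
  have hir : (P : ℝ) ≤ 4 * K := by exact_mod_cast hi
  have hUir : (U : ℝ) ≤ 2 * P := by exact_mod_cast hUi.le
  have hPUr : (P : ℝ) * U ≤ 4 * K := by exact_mod_cast hPU
  have hcast : ((4 * K : ℕ) : ℝ) = 4 * K := by push_cast; ring
  rw [hcast]
  -- the length of the n-range
  have hN : ((4 * K / P + 1 : ℕ) : ℝ) ≤ 8 * K / P := by
    push_cast
    have h1 : ((4 * K / P : ℕ) : ℝ) ≤ 4 * K / P := by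
      have := @Nat.cast_div_le ℝ _ _ _ (4 * K) P
      push_cast at this
      exact this
    have h2 : (1 : ℝ) ≤ 4 * K / P := by
      rw [le_div_iff₀ hP0]; linarith
    calc ((4 * K / P : ℕ) : ℝ) + 1 ≤ 4 * K / P + 4 * K / P := by linarith
      _ = 8 * K / P := by ring
  have hn : ∀ n < 4 * K / P + 1, (n : ℝ) ≤ 4 * K / P := by
    intro n hn
    have h0 : n ≤ 4 * K / P := by omega
    have h1 : ((4 * K / P : ℕ) : ℝ) ≤ 4 * K / P := by
      have := @Nat.cast_div_le ℝ _ _ _ (4 * K) P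
      push_cast at this
      exact this
    refine le_trans ?_ h1
    exact_mod_cast h0
  have hb0 : 0 ≤ (K : ℝ) / (1 + Real.log K) ^ B := by positivity
  by_cases hcase : P ^ 2 ≤ 4 * K
  · -- rows
    set R : ℝ := 4 * K / P with hR
    have hR0 : 0 < R := by positivity
    set Q : ℝ := ((4 * K / P + 1 : ℕ) : ℝ) + ((2 * P : ℕ) : ℝ) * (C₀ * (R * δ)) with hQ
    have hQ0 : 0 ≤ Q := by positivity
    have hsq : ∀ m < 2 * P, m ^ 2 ≤ 16 * K := by
      intro m hm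
      have : m ^ 2 ≤ (2 * P) ^ 2 := Nat.pow_le_pow_left hm.le 2
      calc m ^ 2 ≤ (2 * P) ^ 2 := this
        _ = 4 * P ^ 2 := by ring
        _ ≤ 4 * (4 * K) := by omega
        _ = 16 * K := by ring
    refine ⟨√Q, Real.sqrt_nonneg _, ?_, ?_⟩
    · apply opB_of_rows _ _ _ _ (Real.sqrt_nonneg _)
      intro m hm
      rw [mem_range] at hm
      rw [Real.sq_sqrt hQ0]
      exact VBL_row K y C₀ δ R hC₀ hδ hR0 hK (2 * P) (4 * K / P + 1) hn
        (fun m m' hm hm' h1 h2 h3 => hcorr2 m m' _ h1 h2 h3 (hsq m hm) (hsq m' hm')) m hm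
    · apply VBL_fin K U P C₀ δ _ Q hKr hUr hP0 hC₀ hQ0 hb0 hδb
      have a1 : 8 * (K : ℝ) * ((4 * K / P + 1 : ℕ) : ℝ) ≤ 128 * K ^ 2 / U := by
        calc 8 * (K : ℝ) * ((4 * K / P + 1 : ℕ) : ℝ) ≤ 8 * K * (8 * K / P) := by gcongr
          _ = 64 * K ^ 2 / P := by ring
          _ ≤ 64 * K ^ 2 / (U / 2) := by
              gcongr
              linarith
          _ = 128 * K ^ 2 / U := by ring
      have a2 : 8 * (K : ℝ) * (((2 * P : ℕ) : ℝ) * (C₀ * (R * δ))) ≤ 128 * C₀ * (K ^ 2 * δ) := by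
        push_cast
        calc 8 * (K : ℝ) * (2 * (P : ℝ) * (C₀ * (R * δ)))
            = 16 * K * C₀ * (P * R) * δ := by ring
          _ = 64 * C₀ * (K ^ 2 * δ) := by
              have : (P : ℝ) * R = 4 * K := by rw [hR]; field_simp
              rw [this]; ring
          _ ≤ 128 * C₀ * (K ^ 2 * δ) := by
              have : 0 ≤ C₀ * ((K : ℝ) ^ 2 * δ) := by positivity
              nlinarith
      calc 8 * (K : ℝ) * Q = 8 * (K : ℝ) * ((4 * K / P + 1 : ℕ) : ℝ) +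
            8 * (K : ℝ) * (((2 * P : ℕ) : ℝ) * (C₀ * (R * δ))) := by rw [hQ]; ring
        _ ≤ _ := add_le_add a1 a2
  · -- columns
    push Not at hcase
    set R : ℝ := 2 * P with hR
    have hR0 : 0 < R := by positivity
    set Q : ℝ := ((2 * P : ℕ) : ℝ) + ((4 * K / P + 1 : ℕ) : ℝ) * (C₀ * (R * δ)) with hQ
    have hQ0 : 0 ≤ Q := by positivity
    have hsq : ∀ n < 4 * K / P + 1, n ^ 2 ≤ 16 * K := by
      intro n hn'
      have h0 : n ≤ 4 * K / P := by omega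
      have h1 : n * P ≤ 4 * K := (Nat.mul_le_mul_right P h0).trans (Nat.div_mul_le_self _ _)
      have h2 : n ^ 2 * P ^ 2 ≤ (4 * K) ^ 2 := by
        rw [← mul_pow]; exact Nat.pow_le_pow_left h1 2
      have h3 : n ^ 2 * (4 * K) ≤ (4 * K) * (4 * K) := by
        calc n ^ 2 * (4 * K) ≤ n ^ 2 * P ^ 2 := Nat.mul_le_mul_left _ hcase.le
          _ ≤ (4 * K) ^ 2 := h2
          _ = (4 * K) * (4 * K) := by ring
      have h4 : n ^ 2 ≤ 4 * K := Nat.le_of_mul_le_mul_right h3 (by omega)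
      omega
    have hm' : ∀ n < 2 * P, (n : ℝ) ≤ R := by
      intro n hn'
      rw [hR]
      exact_mod_cast hn'.le
    refine ⟨√Q, Real.sqrt_nonneg _, ?_, ?_⟩
    · apply opB_of_cols _ _ _ _ (Real.sqrt_nonneg _)
      intro n hn'
      rw [mem_range] at hn'
      rw [Real.sq_sqrt hQ0]
      have := VBL_row K y C₀ δ R hC₀ hδ hR0 hK (4 * K / P + 1) (2 * P) hm'
        (fun m m' hm hm' h1 h2 h3 => hcorr2 m m' _ h1 h2 h3 (hsq m hm) (hsq m' hm')) n hn'
      simpa only [hQ, mul_comm] using this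
    · apply VBL_fin K U P C₀ δ _ Q hKr hUr hP0 hC₀ hQ0 hb0 hδb
      have a1 : 8 * (K : ℝ) * ((2 * P : ℕ) : ℝ) ≤ 128 * K ^ 2 / U := by
        push_cast
        have : (P : ℝ) ≤ 4 * K / U := by
          rw [le_div_iff₀ hU0]; exact hPUr
        calc 8 * (K : ℝ) * (2 * P) ≤ 8 * K * (2 * (4 * K / U)) := by gcongr
          _ = 64 * K ^ 2 / U := by ring
          _ ≤ 128 * K ^ 2 / U := by
              gcongr
              norm_num
      have a2 : 8 * (K : ℝ) * (((4 * K / P + 1 : ℕ) : ℝ) * (C₀ * (R * δ))) ≤ 128 * C₀ * (K ^ 2 * δ) := by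
        calc 8 * (K : ℝ) * (((4 * K / P + 1 : ℕ) : ℝ) * (C₀ * (R * δ)))
            ≤ 8 * (K : ℝ) * ((8 * K / P) * (C₀ * (R * δ))) := by gcongr
          _ = 128 * C₀ * (K ^ 2 * δ) := by
              rw [hR]; field_simp; ring
      calc 8 * (K : ℝ) * Q = 8 * (K : ℝ) * ((2 * P : ℕ) : ℝ) +
            8 * (K : ℝ) * (((4 * K / P + 1 : ℕ) : ℝ) * (C₀ * (R * δ))) := by rw [hQ]; ring
        _ ≤ _ := add_le_add a1 a2

end Pool.Agent.Lib.MP_50b5e1_nt
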