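import Pool.Agent.Lib.MP_50b5e1_nt.V.VRec
import Pool.Agent.Lib.MP_570bef_ntV.VM.Mean

/-!
# V/VMV (JOB VMV): Vinogradov's mean value theorem with constants uniform in the degree

Induction on `t` exactly as `mean_of_rec` in MP_570bef_ntV/VM/Mean.lean (copy it), with `rec_u r (r t)` in place of the recursion: `E = 2rt - r(r+1)/2 + (r(r+1)/2)(1-1/r)^t ∈ [0, 2rt]`, `m = 2rt + r(r-1)/2`, `m/r = 2t + (r-1)/2`;
`p^m = (p^r)^(m/r) ≤ (8^r Z)^(m/r) = 8^m Z^(m/r)`; `Z/p + 1 ≤ 2 Z^(1-1/r)`. So the constants satisfy `C_(t+1) ≤ (10^9 r^4)^(2r(r+rt)) · 8^m · 2^E · C_t`, with `C_t = exp (100 r^2 (t+1)^2 (1 + log r))`: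
`log` of the new factor `= 2r^2(1+t)(log 10^9 + 4 log r) + m log 8 + E log 2 ≤ r^2 (1+t) (42 + 8 log r) + 2.1 (2rt + r^2/2) + 1.4 rt ≤ 50 r^2 (1+t)(1 + log r)` (`r t ≤ r^2 t`), and `100 r^2 ((t+2)^2 - (t+1)^2) (1 + log r) ≥ 50 r^2 (1+t)(1+log r)`.
(`log 10 ≤ 2.31`, `log 8 = 3 log 2 ≤ 2.1`: `Real.log_two_lt_d9`; `log 10^9 = 9 log 10`, `log 10 = log 2 + log 5`; or just `10^9 ≤ exp 21`: `exp 1 > 2.7182818283`, `Real.exp_one_gt_d9`.) Base `t = 0`: `JN 0 r Z ≤ 1` (`VM.JN_zero`), exponent `0`.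
-/

set_option autoImplicit false

open Finset Real

namespace Pool.Agent.Lib.MP_50b5e1_nt

private theorem VMV_const {r t : ℕ} {m : ℕ} {E : ℝ} (hr : 1 ≤ r)
    (hm : (m : ℝ) ≤ 2 * r * t + r ^ 2 / 2) (hE : E ≤ 2 * r * t) :
    (10 ^ 9 * (r : ℝ) ^ 4) ^ (2 * r * (r + r * t)) * 8 ^ m *
      Real.exp (100 * (r : ℝ) ^ 2 * ((t : ℝ) + 1) ^ 2 * (1 + Real.log r)) * (2 : ℝ) ^ E ≤
    Real.exp (100 * (r : ℝ) ^ 2 * (((t + 1 : ℕ) : ℝ) + 1) ^ 2 * (1 + Real.log r)) := by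
  have hr' : (1 : ℝ) ≤ (r : ℝ) := by exact_mod_cast hr
  have hr0 : (0 : ℝ) < (r : ℝ) := by linarith
  have hL : 0 ≤ Real.log r := Real.log_nonneg hr'
  have ht : (0 : ℝ) ≤ (t : ℝ) := Nat.cast_nonneg t
  have h2 : (2 : ℝ) ≤ Real.exp (0.7) := by
    rw [← Real.log_le_iff_le_exp (by norm_num)]
    have := Real.log_two_lt_d9
    linarith
  have h8 : (8 : ℝ) ≤ Real.exp (2.1) := by
    have e : (2.1 : ℝ) = ((3 : ℕ) : ℝ) * 0.7 := by norm_num
    rw [e, Real.exp_nat_mul]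
    calc (8 : ℝ) = 2 ^ 3 := by norm_num
      _ ≤ _ := pow_le_pow_left₀ (by norm_num) h2 3
  have h10 : (10 : ℝ) ^ 9 ≤ Real.exp 21 := by
    have e : (21 : ℝ) = ((21 : ℕ) : ℝ) * 1 := by norm_num
    rw [e, Real.exp_nat_mul]
    have h1 : (2.718 : ℝ) ≤ Real.exp 1 := by
      have := Real.exp_one_gt_d9
      linarith
    calc (10 : ℝ) ^ 9 ≤ 2.718 ^ 21 := by norm_num
      _ ≤ _ := pow_le_pow_left₀ (by norm_num) h1 21
  have hr4 : (r : ℝ) ^ 4 = Real.exp (4 * Real.log r) := by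
    have e : (4 : ℝ) * Real.log r = ((4 : ℕ) : ℝ) * Real.log r := by norm_num
    rw [e, Real.exp_nat_mul, Real.exp_log hr0]
  have hA : (10 ^ 9 * (r : ℝ) ^ 4) ^ (2 * r * (r + r * t)) ≤
      Real.exp (((2 * r * (r + r * t) : ℕ) : ℝ) * (21 + 4 * Real.log r)) := by
    rw [Real.exp_nat_mul, Real.exp_add, hr4]
    exact pow_le_pow_left₀ (by positivity)
      (mul_le_mul_of_nonneg_right h10 (Real.exp_pos _).le) _
  have hB : (8 : ℝ) ^ m ≤ Real.exp ((m : ℝ) * 2.1) := by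
    rw [Real.exp_nat_mul]
    exact pow_le_pow_left₀ (by norm_num) h8 _
  have hC : (2 : ℝ) ^ E ≤ Real.exp (0.7 * (2 * r * t)) := by
    have h1 : (2 : ℝ) ^ E ≤ (2 : ℝ) ^ (2 * (r : ℝ) * t) :=
      Real.rpow_le_rpow_of_exponent_le (by norm_num) hE
    refine h1.trans ?_
    rw [Real.exp_mul]
    exact Real.rpow_le_rpow (by norm_num) h2 (by positivity)
  calc (10 ^ 9 * (r : ℝ) ^ 4) ^ (2 * r * (r + r * t)) * 8 ^ m *
        Real.exp (100 * (r : ℝ) ^ 2 * ((t : ℝ) + 1) ^ 2 * (1 + Real.log r)) * (2 : ℝ) ^ E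
      ≤ Real.exp (((2 * r * (r + r * t) : ℕ) : ℝ) * (21 + 4 * Real.log r)) *
          Real.exp ((m : ℝ) * 2.1) *
          Real.exp (100 * (r : ℝ) ^ 2 * ((t : ℝ) + 1) ^ 2 * (1 + Real.log r)) *
          Real.exp (0.7 * (2 * r * t)) := by gcongr
    _ = Real.exp (((2 * r * (r + r * t) : ℕ) : ℝ) * (21 + 4 * Real.log r) + (m : ℝ) * 2.1 +
          100 * (r : ℝ) ^ 2 * ((t : ℝ) + 1) ^ 2 * (1 + Real.log r) + 0.7 * (2 * r * t)) := by
        rw [Real.exp_add, Real.exp_add, Real.exp_add]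
    _ ≤ _ := by
        apply Real.exp_le_exp.mpr
        push_cast
        have hrt : (r : ℝ) * t ≤ (r : ℝ) ^ 2 * t := by nlinarith [mul_nonneg hr0.le ht]
        have hrL : 0 ≤ (r : ℝ) ^ 2 * Real.log r := by positivity
        have hrLt : 0 ≤ (r : ℝ) ^ 2 * t * Real.log r := by positivity
        have hr2 : 0 ≤ (r : ℝ) ^ 2 := by positivity
        have hr2t : 0 ≤ (r : ℝ) ^ 2 * t := by positivity
        nlinarith [hm, hrt, hrL, hrLt, hr2, hr2t]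

theorem mean_u (r t : ℕ) (hr : 1 ≤ r) (Z : ℕ) (hZ : 1 ≤ Z) : (VM.JN (r * t) r Z : ℝ) ≤
    Real.exp (100 * (r : ℝ) ^ 2 * ((t : ℝ) + 1) ^ 2 * (1 + Real.log r)) *
      (Z : ℝ) ^ (2 * r * t - r * (r + 1) / 2 + (r * (r + 1) / 2) * (1 - 1 / (r : ℝ)) ^ t : ℝ) := by
  have hr' : (1 : ℝ) ≤ (r : ℝ) := by exact_mod_cast hr
  have hr0 : (0 : ℝ) < (r : ℝ) := by linarith
  have hL : 0 ≤ Real.log r := Real.log_nonneg hr'
  induction t generalizing Z with
  | zero =>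
    rw [Nat.mul_zero]
    have h1 : ((VM.JN 0 r Z : ℕ) : ℝ) ≤ 1 := by exact_mod_cast VM.JN_zero r Z
    have e : (2 * (r : ℝ) * ((0 : ℕ) : ℝ) - r * (r + 1) / 2 + (r * (r + 1) / 2) * (1 - 1 / (r : ℝ)) ^ 0) = 0 := by
      simp
    rw [e, Real.rpow_zero, mul_one]
    refine h1.trans (Real.one_le_exp ?_)
    positivity
  | succ t ih =>
    set E : ℝ := 2 * r * t - r * (r + 1) / 2 + (r * (r + 1) / 2) * (1 - 1 / (r : ℝ)) ^ t with hE
    have hinv : 1 / (r : ℝ) ≤ 1 := (div_le_one hr0).2 hr'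
    have hE0 : 0 ≤ E := by
      have hb : 1 + (t : ℝ) * (-(1 / (r : ℝ))) ≤ (1 + -(1 / (r : ℝ))) ^ t := by
        refine one_add_mul_le_pow ?_ t
        linarith
      have hb' : (r * (r + 1) / 2 : ℝ) * (1 + (t : ℝ) * (-(1 / (r : ℝ)))) ≤ (r * (r + 1) / 2) * (1 - 1 / (r : ℝ)) ^ t := by
        refine mul_le_mul_of_nonneg_left ?_ (by positivity)
        rw [sub_eq_add_neg]
        exact hb
      have e : (r * (r + 1) / 2 : ℝ) * (1 + (t : ℝ) * (-(1 / (r : ℝ)))) = r * (r + 1) / 2 - (r + 1) * t / 2 := by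
        field_simp
        ring
      rw [e] at hb'
      have ht : (0 : ℝ) ≤ (t : ℝ) := by positivity
      have h2 : ((r : ℝ) + 1) * t / 2 ≤ 2 * r * t := by nlinarith
      linarith
    have hE1 : E ≤ 2 * r * t := by
      have h1 : (1 - 1 / (r : ℝ)) ^ t ≤ 1 := by
        refine pow_le_one₀ (by linarith) ?_
        have : 0 ≤ 1 / (r : ℝ) := by positivity
        linarith
      have h2 : (r * (r + 1) / 2 : ℝ) * (1 - 1 / (r : ℝ)) ^ t ≤ (r * (r + 1) / 2 : ℝ) * 1 :=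
        mul_le_mul_of_nonneg_left h1 (by positivity)
      linarith
    set m : ℕ := 2 * (r * t) + r * (r - 1) / 2 with hm
    have h3 : (2 : ℝ) * ((r * (r - 1) / 2 : ℕ) : ℝ) = r * (r - 1) := by
      have h2 : 2 * (r * (r - 1) / 2) = r * (r - 1) := by
        refine Nat.mul_div_cancel' ?_
        exact (Nat.even_mul_pred_self r).two_dvd
      have h4 : ((2 * (r * (r - 1) / 2) : ℕ) : ℝ) = ((r * (r - 1) : ℕ) : ℝ) := by rw [h2]
      rw [Nat.cast_mul, Nat.cast_mul, Nat.cast_sub hr] at h4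
      simpa using h4
    have hmr : (m : ℝ) / r = 2 * t + (r - 1) / 2 := by
      rw [hm, Nat.cast_add, Nat.cast_mul, Nat.cast_mul, div_eq_iff hr0.ne']
      push_cast
      nlinarith
    have hmle : (m : ℝ) ≤ 2 * r * t + r ^ 2 / 2 := by
      rw [hm, Nat.cast_add, Nat.cast_mul, Nat.cast_mul]
      push_cast
      nlinarith
    obtain ⟨p, hp, hp1, hp2, hp3⟩ := rec_u r (r * t) hr Z hZ
    set C1 : ℝ := (10 ^ 9 * (r : ℝ) ^ 4) ^ (2 * r * (r + r * t)) with hC1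
    set C0 : ℝ := Real.exp (100 * (r : ℝ) ^ 2 * ((t : ℝ) + 1) ^ 2 * (1 + Real.log r)) with hC0
    have hC1p : 0 < C1 := by rw [hC1]; positivity
    have hC0p : 0 < C0 := Real.exp_pos _
    set z : ℝ := (Z : ℝ) with hz
    set P : ℝ := (p : ℝ) with hP
    have hz1 : 1 ≤ z := by rw [hz]; exact_mod_cast hZ
    have hz0 : 0 < z := by linarith
    have hP1 : 1 ≤ P := by rw [hP]; exact_mod_cast hp
    have hP0 : 0 < P := by linarith
    have hrt : r * (t + 1) = r + r * t := by ring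
    rw [hrt]
    refine hp3.trans ?_
    have hY := ih (Z / p + 1) (Nat.succ_pos _)
    have hroot : z ^ (1 / (r : ℝ)) ≤ P := by
      have h2 : z ^ (1 / (r : ℝ)) ≤ (P ^ r) ^ (1 / (r : ℝ)) := Real.rpow_le_rpow hz0.le hp1 (by positivity)
      rw [← Real.rpow_natCast P r, ← Real.rpow_mul hP0.le, mul_one_div_cancel hr0.ne', Real.rpow_one] at h2
      exact h2
    have hYle : (((Z / p + 1 : ℕ)) : ℝ) ≤ 2 * z ^ (1 - 1 / (r : ℝ)) := by
      have h2 : ((Z / p : ℕ) : ℝ) ≤ z / P := Nat.cast_div_le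
      have h3 : z / P ≤ z ^ (1 - 1 / (r : ℝ)) := by
        rw [Real.rpow_sub hz0, Real.rpow_one]
        exact div_le_div_of_nonneg_left hz0.le (Real.rpow_pos_of_pos hz0 _) hroot
      have h4 : 1 ≤ z ^ (1 - 1 / (r : ℝ)) := Real.one_le_rpow hz1 (by linarith)
      push_cast
      linarith
    have hJ : (VM.JN (r * t) r (Z / p + 1) : ℝ) ≤ C0 * (2 ^ E * z ^ ((1 - 1 / (r : ℝ)) * E)) := by
      refine hY.trans (mul_le_mul_of_nonneg_left ?_ hC0p.le)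
      calc (((Z / p + 1 : ℕ)) : ℝ) ^ E ≤ (2 * z ^ (1 - 1 / (r : ℝ))) ^ E :=
            Real.rpow_le_rpow (by positivity) hYle hE0
        _ = 2 ^ E * z ^ ((1 - 1 / (r : ℝ)) * E) := by
            rw [Real.mul_rpow (by norm_num) (Real.rpow_nonneg hz0.le _), ← Real.rpow_mul hz0.le]
    have hPm : P ^ m ≤ 8 ^ m * z ^ ((m : ℝ) / r) := by
      have h2 : P ^ m = (P ^ r) ^ ((m : ℝ) / r) := by
        rw [← Real.rpow_natCast P r, ← Real.rpow_mul hP0.le, mul_div_cancel₀ _ hr0.ne', Real.rpow_natCast]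
      have h8 : (8 : ℝ) ^ m = ((8 : ℝ) ^ r) ^ ((m : ℝ) / r) := by
        rw [← Real.rpow_natCast 8 r, ← Real.rpow_mul (by norm_num), mul_div_cancel₀ _ hr0.ne', Real.rpow_natCast]
      rw [h2, h8, ← Real.mul_rpow (by positivity) hz0.le]
      exact Real.rpow_le_rpow (by positivity) hp2 (by positivity)
    have hzr : z ^ r = z ^ (r : ℝ) := (Real.rpow_natCast z r).symm
    have hcon := VMV_const (t := t) (m := m) (E := E) hr hmle hE1
    calc C1 * (z ^ r * P ^ m * (VM.JN (r * t) r (Z / p + 1) : ℝ))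
        ≤ C1 * (z ^ r * (8 ^ m * z ^ ((m : ℝ) / r)) * (C0 * (2 ^ E * z ^ ((1 - 1 / (r : ℝ)) * E)))) := by
          refine mul_le_mul_of_nonneg_left ?_ hC1p.le
          refine mul_le_mul (mul_le_mul_of_nonneg_left hPm (by positivity)) hJ (by positivity) ?_
          positivity
      _ = (C1 * 8 ^ m * C0 * 2 ^ E) * (z ^ r * z ^ ((m : ℝ) / r) * z ^ ((1 - 1 / (r : ℝ)) * E)) := by ring
      _ ≤ Real.exp (100 * (r : ℝ) ^ 2 * (((t + 1 : ℕ) : ℝ) + 1) ^ 2 * (1 + Real.log r)) *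
          (z ^ r * z ^ ((m : ℝ) / r) * z ^ ((1 - 1 / (r : ℝ)) * E)) :=
          mul_le_mul_of_nonneg_right hcon (by positivity)
      _ = _ := by
          congr 1
          rw [hzr, ← Real.rpow_add hz0, ← Real.rpow_add hz0]
          congr 1
          rw [hmr, hE, pow_succ]
          push_cast
          field_simp
          ring

end Pool.Agent.Lib.MP_50b5e1_nt
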