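import Pool.Agent.Lib.MP_50b5e1_nt.V.VPhi

/-!
# V/VProd (JOB VProd): the product of the `Phi`

Write `j = i + 1`, `L_i = s M^j`, `ℓ = 1 + log (s M^r) ≥ 1`. Call `i` good if `9 r ≤ 20 j ≤ 12 r`.
* Not good: `Phi_triv`: `Phi ≤ (2 s M^j + 1)^2 ≤ 9 s^2 M^(2j) ≤ 3000 s^2 ℓ M^(2j)`.
* Good: `0 < |α_i| ≤ 1` and `Phi_good`: with `M^(-3j/2) ≤ |α| ≤ M^(-j/2)`: `|α| L^2 ≤ s^2 M^(3j/2)`, `L (1+log L) ≤ s M^j ℓ`, `(1 + log L)/|α| ≤ ℓ M^(3j/2)`, so `Phi ≤ 3000 s^2 ℓ M^(3j/2) = 3000 s^2 ℓ M^(2j) M^(-j/2)`. (`log L ≤ log (s M^r)`, `j ≤ r`.)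
So in both cases `Phi ≤ 3000 s^2 ℓ · M^(2j - [good] j/2)` (real exponent), and the product over `i : Fin r` is `(3000 s^2 ℓ)^r M^(∑ (2j - [good] j/2))` (`Real.rpow_sum_of_pos` or induction), `∑_{i : Fin r} 2 (i+1) = r (r+1)`.
The number of the good `i` is at least `r/10`: the naturals `j` with `9r/20 ≤ j ≤ 12r/20` (all in `1..r`) are at least `3r/20 - 1 ≥ r/10` for `r ≥ 20` (`Ico ⌈9r/20⌉ (⌊12r/20⌋+1)`: map `j ↦ ⟨j - 1, _⟩ : Fin r` injectively), and each has `j/2 ≥ 9r/40`: `∑_{good} j/2 ≥ (r/10)(9r/40) = 9 r^2/400`.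
`M ≥ 1` (`M ≥ 2`): a bigger exponent gives a bigger power.
-/

set_option autoImplicit false

open Finset Real
open Pool.Agent.Lib.MP_2a816b_nt (e norm_e conj_e e_add e_neg)

namespace Pool.Agent.Lib.MP_50b5e1_nt

/-- `α` has the sizes used in the Vinogradov double sum -/
def Good (r M : ℕ) (α : Fin r → ℝ) : Prop :=
  ∀ i : Fin r, 9 * r ≤ 20 * ((i : ℕ) + 1) → 20 * ((i : ℕ) + 1) ≤ 12 * r →
    (M : ℝ) ^ (-(3 * ((i : ℝ) + 1) / 2)) ≤ |α i| ∧ |α i| ≤ (M : ℝ) ^ (-(((i : ℝ) + 1) / 2))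

/-- the indices where the better bound holds -/
private def VProdG (r i : ℕ) : Prop := 9 * r ≤ 20 * (i + 1) ∧ 20 * (i + 1) ≤ 12 * r

private instance VProdDec (r i : ℕ) : Decidable (VProdG r i) := by
  unfold VProdG
  infer_instance

private noncomputable def VProdE (r i : ℕ) : ℝ := 2 * ((i : ℝ) + 1) - if VProdG r i then ((i : ℝ) + 1) / 2 else 0

private theorem VProd_gauss (r : ℕ) : ∑ i ∈ range r, 2 * ((i : ℝ) + 1) = (r : ℝ) * (r + 1) := by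
  induction r with
  | zero => simp
  | succ r ih =>
    rw [Finset.sum_range_succ, ih]
    push_cast
    ring

private theorem VProd_sum (r : ℕ) (hr : 20 ≤ r) :
    ∑ i ∈ range r, VProdE r i ≤ (r : ℝ) * (r + 1) - 9 * (r : ℝ) ^ 2 / 400 := by
  unfold VProdE
  rw [Finset.sum_sub_distrib, VProd_gauss]
  have h1 : 9 * (r : ℝ) ^ 2 / 400 ≤ ∑ i ∈ range r, if VProdG r i then ((i : ℝ) + 1) / 2 else 0 := by
    have hsub : Finset.Ico ((9 * r + 19) / 20 - 1) (12 * r / 20) ⊆ range r := by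
      intro i hi
      rw [Finset.mem_Ico] at hi
      rw [Finset.mem_range]
      omega
    have h2 : ∑ i ∈ Finset.Ico ((9 * r + 19) / 20 - 1) (12 * r / 20), (9 * (r : ℝ) / 40) ≤
        ∑ i ∈ Finset.Ico ((9 * r + 19) / 20 - 1) (12 * r / 20),
          if VProdG r i then ((i : ℝ) + 1) / 2 else 0 := by
      refine Finset.sum_le_sum fun i hi => ?_
      rw [Finset.mem_Ico] at hi
      have hg : VProdG r i := ⟨by omega, by omega⟩
      rw [if_pos hg]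
      have h3 : (9 * (r : ℝ)) ≤ 20 * ((i : ℝ) + 1) := by exact_mod_cast hg.1
      linarith
    have h4 : ∑ i ∈ Finset.Ico ((9 * r + 19) / 20 - 1) (12 * r / 20),
          (if VProdG r i then ((i : ℝ) + 1) / 2 else 0) ≤
        ∑ i ∈ range r, if VProdG r i then ((i : ℝ) + 1) / 2 else 0 := by
      refine Finset.sum_le_sum_of_subset_of_nonneg hsub fun i _ _ => ?_
      split_ifs
      · positivity
      · exact le_refl _
    refine le_trans ?_ (h2.trans h4)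
    rw [Finset.sum_const, Nat.card_Ico, nsmul_eq_mul]
    have h5 : r ≤ 10 * (12 * r / 20 - ((9 * r + 19) / 20 - 1)) := by omega
    have h6 : (r : ℝ) ≤ 10 * ((12 * r / 20 - ((9 * r + 19) / 20 - 1) : ℕ) : ℝ) := by exact_mod_cast h5
    have h7 : (0 : ℝ) ≤ r := Nat.cast_nonneg r
    have h8 : (r : ℝ) * (9 * r / 40) ≤
        10 * ((12 * r / 20 - ((9 * r + 19) / 20 - 1) : ℕ) : ℝ) * (9 * r / 40) :=
      mul_le_mul_of_nonneg_right h6 (by positivity)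
    linarith
  linarith

private theorem VProd_one (r s M : ℕ) (α : Fin r → ℝ) (hs : 1 ≤ s) (hM : 2 ≤ M) (h : Good r M α)
    (i : Fin r) : Phi (α i) (s * M ^ ((i : ℕ) + 1)) ≤
      3000 * (s : ℝ) ^ 2 * (1 + Real.log ((s : ℝ) * (M : ℝ) ^ r)) * (M : ℝ) ^ VProdE r i := by
  have hM0 : (0 : ℝ) < M := by
    have : 0 < M := by omega
    exact_mod_cast this
  have hM1 : (1 : ℝ) ≤ M := by
    have : 1 ≤ M := by omega
    exact_mod_cast this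
  have hs1 : (1 : ℝ) ≤ s := by exact_mod_cast hs
  have hi := i.2
  have hMr : (1 : ℝ) ≤ (M : ℝ) ^ r := one_le_pow₀ hM1
  have hl : (1 : ℝ) ≤ 1 + Real.log ((s : ℝ) * (M : ℝ) ^ r) := by
    have h1 : (1 : ℝ) ≤ (s : ℝ) * (M : ℝ) ^ r := by nlinarith
    have := Real.log_nonneg h1
    linarith
  obtain ⟨l, hl'⟩ : ∃ l : ℝ, l = 1 + Real.log ((s : ℝ) * (M : ℝ) ^ r) := ⟨_, rfl⟩
  have hlog : 1 + Real.log (((s * M ^ ((i : ℕ) + 1) : ℕ)) : ℝ) ≤ l := by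
    rw [hl']
    have h1 : Real.log (((s * M ^ ((i : ℕ) + 1) : ℕ)) : ℝ) ≤ Real.log ((s : ℝ) * (M : ℝ) ^ r) := by
      push_cast
      refine Real.log_le_log (by positivity) ?_
      exact mul_le_mul_of_nonneg_left (pow_le_pow_right₀ hM1 (by omega)) (by linarith)
    linarith
  rw [← hl'] at hl ⊢
  have hL1 : 1 ≤ s * M ^ ((i : ℕ) + 1) := Nat.one_le_iff_ne_zero.2
    (Nat.mul_ne_zero (by omega) (pow_ne_zero _ (by omega)))
  have hL1' : (1 : ℝ) ≤ ((s * M ^ ((i : ℕ) + 1) : ℕ) : ℝ) := by exact_mod_cast hL1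
  have hLc : ((s * M ^ ((i : ℕ) + 1) : ℕ) : ℝ) = s * (M : ℝ) ^ (((i : ℕ) : ℝ) + 1) := by
    push_cast
    rw [← Real.rpow_natCast (M : ℝ) ((i : ℕ) + 1)]
    push_cast
    rfl
  have hL2 : ((s * M ^ ((i : ℕ) + 1) : ℕ) : ℝ) ^ 2 = (s : ℝ) ^ 2 * (M : ℝ) ^ (2 * (((i : ℕ) : ℝ) + 1)) := by
    rw [hLc, mul_pow]
    congr 1
    rw [← Real.rpow_natCast ((M : ℝ) ^ (((i : ℕ) : ℝ) + 1)) 2, ← Real.rpow_mul hM0.le]
    congr 1
    push_cast
    ring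
  by_cases hg : VProdG r i
  · obtain ⟨ha1, ha2⟩ := h i hg.1 hg.2
    have hE : VProdE r i = 3 * (((i : ℕ) : ℝ) + 1) / 2 := by
      unfold VProdE
      rw [if_pos hg]
      ring
    rw [hE]
    have ha0 : 0 < |α i| := lt_of_lt_of_le (Real.rpow_pos_of_pos hM0 _) ha1
    have ha3 : |α i| ≤ 1 := by
      refine ha2.trans (Real.rpow_le_one_of_one_le_of_nonpos hM1 ?_)
      have : (0 : ℝ) ≤ ((i : ℕ) : ℝ) := Nat.cast_nonneg _
      linarith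
    refine (Phi_good (α i) _ hL1 ha0 ha3).trans ?_
    obtain ⟨X, hX⟩ : ∃ X : ℝ, X = (M : ℝ) ^ (3 * (((i : ℕ) : ℝ) + 1) / 2) := ⟨_, rfl⟩
    have hX0 : 0 < X := by
      rw [hX]
      exact Real.rpow_pos_of_pos hM0 _
    have hs2 : (s : ℝ) ≤ (s : ℝ) ^ 2 := by nlinarith
    have hs3 : (1 : ℝ) ≤ (s : ℝ) ^ 2 := by nlinarith
    have t1 : |α i| * ((s * M ^ ((i : ℕ) + 1) : ℕ) : ℝ) ^ 2 ≤ (s : ℝ) ^ 2 * X := by
      rw [hL2]
      have h1 : |α i| * ((s : ℝ) ^ 2 * (M : ℝ) ^ (2 * (((i : ℕ) : ℝ) + 1))) ≤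
          (M : ℝ) ^ (-((((i : ℕ) : ℝ) + 1) / 2)) * ((s : ℝ) ^ 2 * (M : ℝ) ^ (2 * (((i : ℕ) : ℝ) + 1))) :=
        mul_le_mul_of_nonneg_right ha2 (by positivity)
      refine h1.trans (le_of_eq ?_)
      have h2 : (M : ℝ) ^ (-((((i : ℕ) : ℝ) + 1) / 2)) * ((s : ℝ) ^ 2 * (M : ℝ) ^ (2 * (((i : ℕ) : ℝ) + 1))) =
          (s : ℝ) ^ 2 * ((M : ℝ) ^ (-((((i : ℕ) : ℝ) + 1) / 2)) * (M : ℝ) ^ (2 * (((i : ℕ) : ℝ) + 1))) := by ring
      rw [h2, ← Real.rpow_add hM0, hX]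
      congr 2
      ring
    have t2 : ((s * M ^ ((i : ℕ) + 1) : ℕ) : ℝ) * (1 + Real.log (((s * M ^ ((i : ℕ) + 1) : ℕ)) : ℝ)) ≤
        (s : ℝ) ^ 2 * X * l := by
      have h1 : ((s * M ^ ((i : ℕ) + 1) : ℕ) : ℝ) ≤ (s : ℝ) ^ 2 * X := by
        rw [hLc, hX]
        have h2 : (M : ℝ) ^ (((i : ℕ) : ℝ) + 1) ≤ (M : ℝ) ^ (3 * (((i : ℕ) : ℝ) + 1) / 2) := by
          refine Real.rpow_le_rpow_of_exponent_le hM1 ?_
          have : (0 : ℝ) ≤ ((i : ℕ) : ℝ) := Nat.cast_nonneg _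
          linarith
        exact mul_le_mul hs2 h2 (by positivity) (by positivity)
      have h3 : 0 ≤ 1 + Real.log (((s * M ^ ((i : ℕ) + 1) : ℕ)) : ℝ) := by
        have := Real.log_nonneg hL1'
        linarith
      exact mul_le_mul h1 hlog h3 (by positivity)
    have t3 : (1 + Real.log (((s * M ^ ((i : ℕ) + 1) : ℕ)) : ℝ)) / |α i| ≤ (s : ℝ) ^ 2 * X * l := by
      have h1 : X⁻¹ ≤ |α i| := by
        rw [hX, ← Real.rpow_neg hM0.le]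
        exact ha1
      have h2 : 1 / |α i| ≤ X := by
        rw [div_le_iff₀ ha0]
        have h3 : X * X⁻¹ ≤ X * |α i| := mul_le_mul_of_nonneg_left h1 hX0.le
        rw [mul_inv_cancel₀ hX0.ne'] at h3
        exact h3
      have h4 : (1 + Real.log (((s * M ^ ((i : ℕ) + 1) : ℕ)) : ℝ)) / |α i| ≤ l * X := by
        rw [div_eq_mul_one_div]
        exact mul_le_mul hlog h2 (by positivity) (by linarith)
      refine h4.trans ?_
      have h5 : l * X ≤ (s : ℝ) ^ 2 * (l * X) := by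
        have h6 : 0 ≤ l * X := by positivity
        nlinarith
      refine h5.trans (le_of_eq (by ring))
    have t4 : (s : ℝ) ^ 2 * X ≤ (s : ℝ) ^ 2 * X * l := by
      have h6 : 0 ≤ (s : ℝ) ^ 2 * X := by positivity
      nlinarith
    rw [← hX]
    linarith
  · have hE : VProdE r i = 2 * (((i : ℕ) : ℝ) + 1) := by
      unfold VProdE
      rw [if_neg hg, sub_zero]
    rw [hE]
    refine (Phi_triv (α i) _).trans ?_
    have h1 : (2 * ((s * M ^ ((i : ℕ) + 1) : ℕ) : ℝ) + 1) ^ 2 ≤ 9 * ((s * M ^ ((i : ℕ) + 1) : ℕ) : ℝ) ^ 2 := by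
      nlinarith
    refine h1.trans ?_
    rw [hL2]
    obtain ⟨Y, hY⟩ : ∃ Y : ℝ, Y = (s : ℝ) ^ 2 * (M : ℝ) ^ (2 * (((i : ℕ) : ℝ) + 1)) := ⟨_, rfl⟩
    have hY0 : 0 ≤ Y := by
      rw [hY]
      positivity
    have h2 : 3000 * (s : ℝ) ^ 2 * l * (M : ℝ) ^ (2 * (((i : ℕ) : ℝ) + 1)) = 3000 * (Y * l) := by
      rw [hY]
      ring
    rw [h2, ← hY]
    have h3 : Y ≤ Y * l := by nlinarith
    linarith

theorem prod_Phi (r s M : ℕ) (α : Fin r → ℝ) (hr : 20 ≤ r) (hs : 1 ≤ s) (hM : 2 ≤ M) (h : Good r M α) :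
    ∏ i : Fin r, Phi (α i) (s * M ^ ((i : ℕ) + 1)) ≤
      (3000 * (s : ℝ) ^ 2 * (1 + Real.log ((s : ℝ) * (M : ℝ) ^ r))) ^ r *
        (M : ℝ) ^ ((r : ℝ) * (r + 1) - 9 * (r : ℝ) ^ 2 / 400) := by
  have hM0 : (0 : ℝ) < M := by
    have : 0 < M := by omega
    exact_mod_cast this
  have hM1 : (1 : ℝ) ≤ M := by
    have : 1 ≤ M := by omega
    exact_mod_cast this
  have hs1 : (1 : ℝ) ≤ s := by exact_mod_cast hs
  have hMr : (1 : ℝ) ≤ (M : ℝ) ^ r := one_le_pow₀ hM1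
  have hl : (1 : ℝ) ≤ 1 + Real.log ((s : ℝ) * (M : ℝ) ^ r) := by
    have h1 : (1 : ℝ) ≤ (s : ℝ) * (M : ℝ) ^ r := by nlinarith
    have := Real.log_nonneg h1
    linarith
  have h1 : ∏ i : Fin r, Phi (α i) (s * M ^ ((i : ℕ) + 1)) ≤
      ∏ i : Fin r, (3000 * (s : ℝ) ^ 2 * (1 + Real.log ((s : ℝ) * (M : ℝ) ^ r)) * (M : ℝ) ^ VProdE r i) :=
    Finset.prod_le_prod (fun i _ => Phi_nonneg _ _) fun i _ => VProd_one r s M α hs hM h i
  refine h1.trans ?_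
  rw [Finset.prod_mul_distrib, Finset.prod_const, Finset.card_univ, Fintype.card_fin,
    ← Real.rpow_sum_of_pos hM0]
  refine mul_le_mul_of_nonneg_left ?_ (pow_nonneg (by positivity) _)
  refine Real.rpow_le_rpow_of_exponent_le hM1 ?_
  have h2 := VProd_sum r hr
  rw [Finset.sum_range] at h2
  exact h2

end Pool.Agent.Lib.MP_50b5e1_nt
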