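import Pool.Agent.Lib.MP_50b5e1_nt.V.HHol
import Pool.Agent.Lib.MP_50b5e1_nt.V.VMV
import Pool.Agent.Lib.MP_50b5e1_nt.V.VProd

/-!
# V/VDS (JOB VDS): the bound for the double sum

`t = 6 r`, `s = r t = 6 r^2`. `mean_u`: `JN s r M ≤ exp (100 r^2 (6r+1)^2 (1 + log r)) M^(2s - r(r+1)/2 + η)`, `η = (r(r+1)/2)(1-1/r)^(6r) ≤ (r(r+1)/2) exp (-6) ≤ (r(r+1)/2)/400` (`1 - x ≤ exp (-x)`: `Real.one_sub_le_exp_neg`; `exp 6 ≥ 400`: `exp 1 > 2.7182`).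
`WW_le`, `prod_Phi`: `‖WW‖^(4s^2) ≤ M^(8s^2-4s) exp (200 r^2 (6r+1)^2 (1+log r)) M^(4s - r(r+1) + 2η) (3000 s^2 ℓ)^r M^(r(r+1) - 9r^2/400)`, `ℓ = 1 + log (s M^r)`,
`= exp (200 r^2 (6r+1)^2 (1 + log r)) (3000 s^2 ℓ)^r M^(8s^2 + 2η - 9r^2/400)`, and `2η ≤ r(r+1)/400 ≤ 1.05 r^2/400`, so `2η - 9r^2/400 ≤ - r^2/60` (`7.95/400 = 0.0198 ≥ 1/60 = 0.0167`).
`4 s^2 = 144 r^4 =: n`. Claim: the right side is `≤ (A r^A (1 + log M) M^(2 - 1/(8640 r^2)))^n`, `A = exp 200`: `n (2 - 1/(8640 r^2)) = 8 s^2 - r^2/60`. ✓.; `exp (200 r^2 (6r+1)^2 (1+log r)) ≤ exp (69 n (1 + log r)) = (exp 69 · r^69)^n` as `(6r+1)^2 ≤ 49 r^2` and `200·49/144 ≤ 69`;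
`(3000 s^2 ℓ)^r ≤ (3000 s^2 ℓ)^n` (base `≥ 1`, `r ≤ n`), `3000 s^2 = 108000 r^4`, `ℓ = 1 + log (6r^2) + r log M ≤ 6 r^2 (1 + log M)` (`1 + log x ≤ x`). So base `≤ exp 69 · r^69 · 648000 r^6 (1+log M) M^(..) ≤ A r^A (1 + log M) M^(..)`, `r ≥ 1`, `A = exp 200 ≥ 75`, `648000 exp 69 ≤ exp 200`.
Conclude by `pow_le_pow_left₀` contrapositive (`lt_of_pow_lt_pow_left₀` / `pow_le_pow_iff_left₀`, `n ≠ 0`).
-/

set_option autoImplicit false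

open Finset Real
open Pool.Agent.Lib.MP_2a816b_nt (e norm_e conj_e e_add e_neg)

namespace Pool.Agent.Lib.MP_50b5e1_nt

private theorem VDS_q (r : ℕ) (hr : 20 ≤ r) : (1 - 1 / (r : ℝ)) ^ (6 * r) ≤ 1 / 400 := by
  have hR : (20 : ℝ) ≤ r := by exact_mod_cast hr
  have h0 : 0 ≤ 1 - 1 / (r : ℝ) := by
    rw [sub_nonneg, div_le_one (by linarith)]
    linarith
  have h1 : 1 - 1 / (r : ℝ) ≤ Real.exp (-(1 / (r : ℝ))) := Real.one_sub_le_exp_neg _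
  have h2 : (1 - 1 / (r : ℝ)) ^ (6 * r) ≤ Real.exp (-(1 / (r : ℝ))) ^ (6 * r) :=
    pow_le_pow_left₀ h0 h1 _
  have h3 : Real.exp (-(1 / (r : ℝ))) ^ (6 * r) = Real.exp (-6) := by
    rw [← Real.exp_nat_mul]
    congr 1
    push_cast
    field_simp
  have h4 : (400 : ℝ) ≤ Real.exp 6 := by
    have h5 : Real.exp 6 = Real.exp 1 ^ 6 := by
      rw [← Real.exp_nat_mul]
      norm_num
    rw [h5]
    have h6 : (2.718 : ℝ) ≤ Real.exp 1 := by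
      have := Real.exp_one_gt_d9
      linarith
    calc (400 : ℝ) ≤ 2.718 ^ 6 := by norm_num
      _ ≤ _ := pow_le_pow_left₀ (by norm_num) h6 6
  rw [h3] at h2
  refine h2.trans ?_
  rw [Real.exp_neg, one_div]
  exact inv_anti₀ (by norm_num) h4

private theorem VDS_c : 648000 * Real.exp 69 ≤ Real.exp 200 := by
  have h1 : Real.exp 200 = Real.exp 131 * Real.exp 69 := by
    rw [← Real.exp_add]
    norm_num
  rw [h1]
  refine mul_le_mul_of_nonneg_right ?_ (Real.exp_pos _).le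
  have h2 : Real.exp 14 ≤ Real.exp 131 := Real.exp_le_exp.2 (by norm_num)
  refine le_trans ?_ h2
  have h5 : Real.exp 14 = Real.exp 1 ^ 14 := by
    rw [← Real.exp_nat_mul]
    norm_num
  rw [h5]
  have h6 : (2.7 : ℝ) ≤ Real.exp 1 := by
    have := Real.exp_one_gt_d9
    linarith
  calc (648000 : ℝ) ≤ 2.7 ^ 14 := by norm_num
    _ ≤ _ := pow_le_pow_left₀ (by norm_num) h6 14

/-- the base of the constant -/
private theorem VDS_B (R L : ℝ) (hR : 20 ≤ R) (hL : 0 ≤ L) :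
    Real.exp (69 * (1 + Real.log R)) * (648000 * R ^ 6 * (1 + L)) ≤
      Real.exp 200 * R ^ (Real.exp 200) * (1 + L) := by
  have hR0 : 0 < R := by linarith
  have h1 : Real.exp (69 * (1 + Real.log R)) = Real.exp 69 * R ^ (69 : ℕ) := by
    rw [mul_add, mul_one, Real.exp_add]
    congr 1
    have h2 : (69 : ℝ) * Real.log R = ((69 : ℕ) : ℝ) * Real.log R := by norm_num
    rw [h2, Real.exp_nat_mul, Real.exp_log hR0]
  rw [h1]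
  have h2 : R ^ (75 : ℕ) ≤ R ^ (Real.exp 200) := by
    rw [← Real.rpow_natCast]
    refine Real.rpow_le_rpow_of_exponent_le (by linarith) ?_
    have := Real.add_one_le_exp (200 : ℝ)
    push_cast
    linarith
  have h3 : Real.exp 69 * R ^ (69 : ℕ) * (648000 * R ^ 6 * (1 + L)) =
      (648000 * Real.exp 69) * R ^ (75 : ℕ) * (1 + L) := by ring
  rw [h3]
  refine mul_le_mul_of_nonneg_right ?_ (by linarith)
  exact mul_le_mul VDS_c h2 (by positivity) (Real.exp_pos _).le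

private theorem VDS_ell (r : ℕ) (hr : 20 ≤ r) (m : ℝ) (hm : 2 ≤ m) :
    0 ≤ Real.log (6 * (r : ℝ) ^ 2 * m ^ r) ∧
      1 + Real.log (6 * (r : ℝ) ^ 2 * m ^ r) ≤ 6 * (r : ℝ) ^ 2 * (1 + Real.log m) := by
  have hR : (20 : ℝ) ≤ r := by exact_mod_cast hr
  have hm0 : 0 < m := by linarith
  have hlm : 0 ≤ Real.log m := Real.log_nonneg (by linarith)
  have h1 : (1 : ℝ) ≤ 6 * (r : ℝ) ^ 2 := by nlinarith
  have h2 : (1 : ℝ) ≤ m ^ r := one_le_pow₀ (by linarith)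
  refine ⟨Real.log_nonneg (one_le_mul_of_one_le_of_one_le h1 h2), ?_⟩
  rw [Real.log_mul (by positivity) (by positivity), Real.log_pow]
  have h3 : Real.log (6 * (r : ℝ) ^ 2) ≤ 6 * (r : ℝ) ^ 2 - 1 :=
    Real.log_le_sub_one_of_pos (by positivity)
  have h4 : (r : ℝ) * Real.log m ≤ 6 * (r : ℝ) ^ 2 * Real.log m := by
    refine mul_le_mul_of_nonneg_right ?_ hlm
    nlinarith
  linarith

/-- the exponent of `M` -/
private theorem VDS_exp (R q : ℝ) (hR : 20 ≤ R) (hq : q ≤ 1 / 400) :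
    (8 * (6 * R ^ 2) ^ 2 - 4 * (6 * R ^ 2)) +
      2 * (2 * R * (6 * R) - R * (R + 1) / 2 + R * (R + 1) / 2 * q) +
      (R * (R + 1) - 9 * R ^ 2 / 400) ≤ (2 - 1 / (8640 * R ^ 2)) * (144 * R ^ 4) := by
  have hR0 : 0 < R := by linarith
  have h1 : (2 - 1 / (8640 * R ^ 2)) * (144 * R ^ 4) = 288 * R ^ 4 - R ^ 2 / 60 := by
    field_simp
    ring
  rw [h1]
  have h2 : R * (R + 1) * q ≤ R * (R + 1) * (1 / 400) :=
    mul_le_mul_of_nonneg_left hq (by positivity)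
  nlinarith

theorem WW_bound (r M : ℕ) (α : Fin r → ℝ) (hr : 20 ≤ r) (hM : 2 ≤ M) (h : Good r M α) :
    ‖WW r M α‖ ≤ Real.exp 200 * (r : ℝ) ^ (Real.exp 200) * (1 + Real.log M) *
      (M : ℝ) ^ (2 - 1 / (8640 * (r : ℝ) ^ 2)) := by
  have hR : (20 : ℝ) ≤ r := by exact_mod_cast hr
  have hR0 : (0 : ℝ) < r := by linarith
  have hm : (2 : ℝ) ≤ M := by exact_mod_cast hM
  have hm0 : (0 : ℝ) < M := by linarith
  have hlm : 0 ≤ Real.log (M : ℝ) := Real.log_nonneg (by linarith)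
  have hs1 : 1 ≤ r * (6 * r) := by nlinarith
  have h1 := WW_le r (r * (6 * r)) M hs1 α
  have h2 := mean_u r (6 * r) (by omega) M (by omega)
  have h3 := prod_Phi r (r * (6 * r)) M α hr hs1 hM h
  have hsR : ((r * (6 * r) : ℕ) : ℝ) = 6 * (r : ℝ) ^ 2 := by
    push_cast
    ring
  have h6R : ((6 * r : ℕ) : ℝ) = 6 * (r : ℝ) := by push_cast; ring
  rw [hsR] at h3
  rw [h6R] at h2
  obtain ⟨q, hq⟩ : ∃ q : ℝ, q = (1 - 1 / (r : ℝ)) ^ (6 * r) := ⟨_, rfl⟩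
  have hq4 : q ≤ 1 / 400 := by
    rw [hq]
    exact VDS_q r hr
  rw [← hq] at h2
  obtain ⟨n, hn⟩ : ∃ n : ℕ, n = 4 * (r * (6 * r)) ^ 2 := ⟨_, rfl⟩
  have hnR : (n : ℝ) = 144 * (r : ℝ) ^ 4 := by
    rw [hn]
    push_cast
    ring
  rw [← hn] at h1
  have hn0 : n ≠ 0 := by
    rw [hn]
    positivity
  have hrn : r ≤ n := by
    rw [hn]
    nlinarith [hs1, hr]
  obtain ⟨ell, hell⟩ : ∃ ell : ℝ, ell = Real.log (6 * (r : ℝ) ^ 2 * (M : ℝ) ^ r) := ⟨_, rfl⟩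
  obtain ⟨hell0, hell1⟩ := VDS_ell r hr (M : ℝ) hm
  rw [← hell] at hell0 hell1 h3
  -- the constants
  obtain ⟨B, hB⟩ : ∃ B : ℝ, B = 3000 * (6 * (r : ℝ) ^ 2) ^ 2 * (1 + ell) := ⟨_, rfl⟩
  rw [← hB] at h3
  have hR2 : (1 : ℝ) ≤ 6 * (r : ℝ) ^ 2 := by nlinarith
  have hB1 : 1 ≤ B := by
    rw [hB]
    have h5 : (1 : ℝ) ≤ (6 * (r : ℝ) ^ 2) ^ 2 := one_le_pow₀ hR2
    nlinarith
  have hB2 : B ≤ 648000 * (r : ℝ) ^ 6 * (1 + Real.log M) := by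
    rw [hB]
    calc 3000 * (6 * (r : ℝ) ^ 2) ^ 2 * (1 + ell) ≤
        3000 * (6 * (r : ℝ) ^ 2) ^ 2 * (6 * (r : ℝ) ^ 2 * (1 + Real.log M)) :=
          mul_le_mul_of_nonneg_left hell1 (by positivity)
      _ = _ := by ring
  obtain ⟨X, hX⟩ : ∃ X : ℝ, X = 100 * (r : ℝ) ^ 2 * (6 * (r : ℝ) + 1) ^ 2 * (1 + Real.log r) :=
    ⟨_, rfl⟩
  rw [← hX] at h2
  have hlr : 0 ≤ Real.log (r : ℝ) := Real.log_nonneg (by linarith)
  have hX2 : 2 * X ≤ (n : ℝ) * (69 * (1 + Real.log r)) := by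
    rw [hX, hnR]
    have h5 : (6 * (r : ℝ) + 1) ^ 2 ≤ 49 * (r : ℝ) ^ 2 := by nlinarith
    have h6 : 2 * (100 * (r : ℝ) ^ 2 * (6 * (r : ℝ) + 1) ^ 2) ≤ 144 * (r : ℝ) ^ 4 * 69 := by
      have h7 : 200 * (r : ℝ) ^ 2 * (6 * (r : ℝ) + 1) ^ 2 ≤ 200 * (r : ℝ) ^ 2 * (49 * (r : ℝ) ^ 2) :=
        mul_le_mul_of_nonneg_left h5 (by positivity)
      have h8 : (0 : ℝ) ≤ (r : ℝ) ^ 4 := by positivity
      nlinarith
    have h9 := mul_le_mul_of_nonneg_right h6 (by linarith : (0 : ℝ) ≤ 1 + Real.log r)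
    linarith
  -- the exponents
  obtain ⟨E, hE⟩ : ∃ E : ℝ, E = 2 * (r : ℝ) * (6 * (r : ℝ)) - (r : ℝ) * ((r : ℝ) + 1) / 2 +
    (r : ℝ) * ((r : ℝ) + 1) / 2 * q := ⟨_, rfl⟩
  rw [← hE] at h2
  obtain ⟨F, hF⟩ : ∃ F : ℝ, F = (r : ℝ) * ((r : ℝ) + 1) - 9 * (r : ℝ) ^ 2 / 400 := ⟨_, rfl⟩
  rw [← hF] at h3
  have hsub : ((8 * (r * (6 * r)) ^ 2 - 4 * (r * (6 * r)) : ℕ) : ℝ) =
      8 * (6 * (r : ℝ) ^ 2) ^ 2 - 4 * (6 * (r : ℝ) ^ 2) := by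
    rw [Nat.cast_sub (by nlinarith)]
    push_cast
    ring
  have hexp : ((8 * (r * (6 * r)) ^ 2 - 4 * (r * (6 * r)) : ℕ) : ℝ) + 2 * E + F ≤
      (2 - 1 / (8640 * (r : ℝ) ^ 2)) * n := by
    rw [hsub, hE, hF, hnR]
    exact VDS_exp (r : ℝ) q hR hq4
  -- the right side
  obtain ⟨Y, hY⟩ : ∃ Y : ℝ, Y = Real.exp 200 * (r : ℝ) ^ (Real.exp 200) * (1 + Real.log M) :=
    ⟨_, rfl⟩
  have hY0 : 0 ≤ Y := by
    rw [hY]
    positivity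
  have hYB : Real.exp (69 * (1 + Real.log r)) * B ≤ Y := by
    rw [hY]
    refine le_trans ?_ (VDS_B (r : ℝ) (Real.log M) hR hlm)
    exact mul_le_mul_of_nonneg_left hB2 (Real.exp_pos _).le
  rw [← hY]
  have hZ0 : 0 ≤ Y * (M : ℝ) ^ (2 - 1 / (8640 * (r : ℝ) ^ 2)) :=
    mul_nonneg hY0 (Real.rpow_nonneg hm0.le _)
  refine (pow_le_pow_iff_left₀ (norm_nonneg _) hZ0 hn0).1 ?_
  have hJ0 : (0 : ℝ) ≤ (VM.JN (r * (6 * r)) r M : ℝ) := Nat.cast_nonneg _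
  have hP : (M : ℝ) ^ (8 * (r * (6 * r)) ^ 2 - 4 * (r * (6 * r))) *
      (VM.JN (r * (6 * r)) r M : ℝ) ^ 2 *
      ∏ i : Fin r, Phi (α i) (r * (6 * r) * M ^ ((i : ℕ) + 1)) ≤
      (M : ℝ) ^ (8 * (r * (6 * r)) ^ 2 - 4 * (r * (6 * r))) *
      (Real.exp X * (M : ℝ) ^ E) ^ 2 * (B ^ r * (M : ℝ) ^ F) := by
    have h5 : (VM.JN (r * (6 * r)) r M : ℝ) ^ 2 ≤ (Real.exp X * (M : ℝ) ^ E) ^ 2 :=
      pow_le_pow_left₀ hJ0 h2 2
    have h6 : (M : ℝ) ^ (8 * (r * (6 * r)) ^ 2 - 4 * (r * (6 * r))) *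
        (VM.JN (r * (6 * r)) r M : ℝ) ^ 2 ≤
        (M : ℝ) ^ (8 * (r * (6 * r)) ^ 2 - 4 * (r * (6 * r))) *
        (Real.exp X * (M : ℝ) ^ E) ^ 2 := mul_le_mul_of_nonneg_left h5 (by positivity)
    refine mul_le_mul h6 h3 ?_ (by positivity)
    refine Finset.prod_nonneg fun i _ => ?_
    unfold Phi
    exact Finset.sum_nonneg fun _ _ => norm_nonneg _
  refine h1.trans (hP.trans ?_)
  have h10 : (M : ℝ) ^ (8 * (r * (6 * r)) ^ 2 - 4 * (r * (6 * r))) *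
      (Real.exp X * (M : ℝ) ^ E) ^ 2 * (B ^ r * (M : ℝ) ^ F) =
      (Real.exp (2 * X) * B ^ r) *
        (M : ℝ) ^ (((8 * (r * (6 * r)) ^ 2 - 4 * (r * (6 * r)) : ℕ) : ℝ) + 2 * E + F) := by
    rw [Real.rpow_add hm0, Real.rpow_add hm0, Real.rpow_natCast, mul_pow]
    have h11 : Real.exp (2 * X) = Real.exp X ^ 2 := by
      rw [two_mul, Real.exp_add, sq]
    have h12 : (M : ℝ) ^ (2 * E) = ((M : ℝ) ^ E) ^ 2 := by
      rw [two_mul, Real.rpow_add hm0, sq]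
    rw [h11, h12]
    ring
  rw [h10, mul_pow Y]
  have h13 : Real.exp (2 * X) * B ^ r ≤ Y ^ n := by
    calc Real.exp (2 * X) * B ^ r ≤ Real.exp ((n : ℝ) * (69 * (1 + Real.log r))) * B ^ n :=
          mul_le_mul (Real.exp_le_exp.2 hX2) (pow_le_pow_right₀ hB1 hrn) (by positivity)
            (Real.exp_pos _).le
      _ = (Real.exp (69 * (1 + Real.log r)) * B) ^ n := by
          rw [Real.exp_nat_mul, mul_pow]
      _ ≤ Y ^ n := pow_le_pow_left₀ (by positivity) hYB n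
  have h14 : (M : ℝ) ^ (((8 * (r * (6 * r)) ^ 2 - 4 * (r * (6 * r)) : ℕ) : ℝ) + 2 * E + F) ≤
      ((M : ℝ) ^ (2 - 1 / (8640 * (r : ℝ) ^ 2))) ^ n := by
    rw [← Real.rpow_natCast ((M : ℝ) ^ (2 - 1 / (8640 * (r : ℝ) ^ 2))), ← Real.rpow_mul hm0.le]
    exact Real.rpow_le_rpow_of_exponent_le (by linarith) hexp
  exact mul_le_mul h13 h14 (Real.rpow_nonneg hm0.le _) (by positivity)

end Pool.Agent.Lib.MP_50b5e1_nt
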