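import Mathlib
import Pool.Agent.Lib.MP_2a816b_nt.Expo
import Pool.Agent.Lib.MP_570bef_ntV.VM.Nat

/-!
# V/VDef: definitions for the Vinogradov double sums

`e x = exp (2 π i x)`; `VM.JN s r M` is the number of solutions of the Vinogradov system of degree `r` with `s + s` variables from `0, …, M - 1`.
-/

set_option autoImplicit false

open Finset Real
open Pool.Agent.Lib.MP_2a816b_nt (e norm_e conj_e e_add e_neg)

namespace Pool.Agent.Lib.MP_50b5e1_nt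

/-- the box of the vectors `l` with `|l i| ≤ s M ^ (i + 1)` -/
noncomputable def box (r s M : ℕ) : Finset (Fin r → ℤ) :=
  Fintype.piFinset fun i => Icc (-((s * M ^ ((i : ℕ) + 1) : ℕ) : ℤ)) ((s * M ^ ((i : ℕ) + 1) : ℕ) : ℤ)

/-- the number of the `(x, y)` with `∑ x_k ^ (i + 1) - ∑ y_k ^ (i + 1) = l i` for all `i < r` -/
noncomputable def nu (s r M : ℕ) (l : Fin r → ℤ) : ℕ :=
  ((Finset.univ : Finset ((Fin s → Fin M) × (Fin s → Fin M))).filter (fun q =>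
    ∀ i : Fin r, (∑ k, ((q.1 k : ℕ) : ℤ) ^ ((i : ℕ) + 1)) - ∑ k, ((q.2 k : ℕ) : ℤ) ^ ((i : ℕ) + 1) = l i)).card

/-- the sum of the geometric sums -/
noncomputable def Phi (α : ℝ) (L : ℕ) : ℝ :=
  ∑ m ∈ Icc (-(L : ℤ)) L, ‖∑ l ∈ Icc (-(L : ℤ)) L, e (α * l * m)‖

/-- the double sum -/
noncomputable def WW (r M : ℕ) (α : Fin r → ℝ) : ℂ :=
  ∑ u ∈ range M, ∑ v ∈ range M, e (∑ i : Fin r, α i * ((u : ℝ) ^ ((i : ℕ) + 1) * (v : ℝ) ^ ((i : ℕ) + 1)))

end Pool.Agent.Lib.MP_50b5e1_nt
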