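import Pool.Agent.Lib.MP_50b5e1_nt.V.VTI
import Pool.Agent.Lib.MP_50b5e1_nt.V.VBL
import Pool.Agent.Lib.MP_50b5e1_nt.X.Pr

/-!
# V/VPS (JOB VPS): the exponential sum over primes, `|y| ≤ exp ((1 + log K)^θ)`, `θ < 3/2`

Adapt X/PS.lean (`PS_tw`, `PS_bound`, `PS_log`, `PS_floor`, copy with new names) and X/Pr.lean (`Pr_diff`, `Pr_small`, copy).
`x = 1 + log K`, `U = ⌊x^12⌋₊` (`1 ≤ U`, `U ≥ x^12/4`, `U^3 ≤ x^36 ≤ 4K` for `K ≥ K₀`), `L = Nat.log 2 (4K+1) + 1 ≤ 4 x`. `typeI' θ 20`: bound `C₁ K/x^20` (`≥ 1` for `K ≥ K₀`: needed for the `C ≥ 1` hypothesis of `core1`: use `max 1 (C₁ K/x^20)` or `K ≥ K₀`);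
`block' θ 6`: `T₀ = C₂ (K/√U + K/x^6) ≤ C₂ (2 K/x^6 + K/x^6)`. `core1`: `‖∑ Λ(n) e(y/n)‖ ≤ 4 L U (C₁ K/x^20) + 2 L^4 T₀ ≤ 16 C₁ K/x^7 + 1536 C₂ K/x^2 ≤ (ε/2) K` for `K ≥ K₀` (`x → ∞`).
Then from prime powers to primes as in X/Pr.
-/

set_option autoImplicit false

open Finset Real
open Pool.Agent.Lib.MP_2a816b_nt (e norm_e conj_e e_add e_neg PrI OpB tw vM core1 typeII1)

namespace Pool.Agent.Lib.MP_50b5e1_nt

private lemma VPS_tw (K : ℕ) (y : ℝ) :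
    tw (4 * K) (kap K y) vM = ∑ n ∈ Ioc K (4 * K), (vM n : ℂ) * e (y / n) := by
  unfold tw
  symm
  have h1 : ∑ n ∈ Ioc K (4 * K), (vM n : ℂ) * e (y / n) = ∑ n ∈ Ioc K (4 * K), (vM n : ℂ) * kap K y n := by
    apply sum_congr rfl; intro n hn
    rw [mem_Ioc] at hn
    unfold kap
    rw [if_pos hn]
  rw [h1]
  apply sum_subset
  · intro n hn
    rw [mem_Ioc] at hn ⊢
    omega
  · intro n _ hn
    rw [mem_Ioc] at hn
    unfold kap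
    rw [if_neg hn, mul_zero]

/-- type I and type II together -/
private lemma VPS_bound (K U L : ℕ) (y C T₀ : ℝ) (hU3 : U * U * U ≤ 4 * K)
    (hL : 4 * K + 1 < 2 ^ L) (hC : 1 ≤ C) (hT : 0 ≤ T₀)
    (hI : ∀ m t : ℕ, ‖∑ d ∈ range t, kap K y (m * d)‖ ≤ C)
    (hII : ∀ i : ℕ, 2 ^ i ≤ 4 * K → U < 2 ^ (i + 1) → 2 ^ i * U ≤ 4 * K →
      ∃ B : ℝ, 0 ≤ B ∧ OpB (fun m n => kap K y (m * n)) (2 ^ (i + 1)) (4 * K / 2 ^ i + 1) B ∧
        B * (√(2 ^ i) * √(2 * ((4 * K : ℕ) : ℝ) / 2 ^ i)) ≤ T₀) :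
    ‖tw (4 * K) (kap K y) vM‖ ≤ 4 * L * U * C + 2 * ((L : ℝ) ^ 2 * (L : ℝ) ^ 2 * T₀) := by
  apply core1 (kap K y) (4 * K) U L hU3 hL _ _ (kap_zero K y)
  · intro n
    exact (norm_kap_le K y n).trans hC
  · exact hI
  · intro f g hf hg hf0
    classical
    set Bd : ℕ → ℝ := fun i => if h : 2 ^ i ≤ 4 * K ∧ U < 2 ^ (i + 1) ∧ 2 ^ i * U ≤ 4 * K then
      (hII i h.1 h.2.1 h.2.2).choose else 0 with hBd
    have hB1 : ∀ i (h : 2 ^ i ≤ 4 * K ∧ U < 2 ^ (i + 1) ∧ 2 ^ i * U ≤ 4 * K), Bd i = (hII i h.1 h.2.1 h.2.2).choose := by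
      intro i h
      rw [hBd]
      simp only [dif_pos h]
    have hB0 : ∀ i, 0 ≤ Bd i := by
      intro i
      by_cases h : 2 ^ i ≤ 4 * K ∧ U < 2 ^ (i + 1) ∧ 2 ^ i * U ≤ 4 * K
      · rw [hB1 i h]
        exact (hII i h.1 h.2.1 h.2.2).choose_spec.1
      · rw [hBd]
        simp only [dif_neg h, le_refl]
    apply typeII1 (fun m n => kap K y (m * n)) (4 * K) U L hL T₀ hT Bd hB0
    · intro i h1 h2 h3
      rw [hB1 i ⟨h1, h2, h3⟩]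
      exact (hII i h1 h2 h3).choose_spec.2.1
    · intro i h1 h2 h3
      rw [hB1 i ⟨h1, h2, h3⟩]
      exact (hII i h1 h2 h3).choose_spec.2.2
    · positivity
    · exact hf
    · exact hg
    · exact hf0

private lemma VPS_log (K : ℕ) (hK : 5 ≤ K) : ((Nat.log 2 (4 * K + 1) + 1 : ℕ) : ℝ) ≤ 4 * Real.log K := by
  have hKr : (5 : ℝ) ≤ K := by exact_mod_cast hK
  have h1 : 2 ^ Nat.log 2 (4 * K + 1) ≤ 4 * K + 1 := Nat.pow_log_le_self 2 (by omega)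
  have h2 : (2 : ℝ) ^ Nat.log 2 (4 * K + 1) ≤ 4 * K + 1 := by exact_mod_cast h1
  have h3 : (4 : ℝ) * K + 1 ≤ (K : ℝ) ^ 2 := by nlinarith
  have h4 : Real.log ((2 : ℝ) ^ Nat.log 2 (4 * K + 1)) ≤ Real.log ((K : ℝ) ^ 2) :=
    Real.log_le_log (by positivity) (h2.trans h3)
  rw [Real.log_pow, Real.log_pow] at h4
  have h5 : (0.69 : ℝ) < Real.log 2 := by have := Real.log_two_gt_d9; linarith
  have h6 : (1 : ℝ) ≤ Real.log K := by
    have h7 : Real.log (Real.exp 1) ≤ Real.log K := by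
      apply Real.log_le_log (Real.exp_pos _)
      have := Real.exp_one_lt_d9
      linarith
    rwa [Real.log_exp] at h7
  push_cast at h4 ⊢
  have h8 : (0 : ℝ) ≤ (Nat.log 2 (4 * K + 1) : ℝ) := by positivity
  nlinarith

private lemma VPS_floor (x : ℝ) (hx : 1 ≤ x) : 1 ≤ ⌊x⌋₊ ∧ (⌊x⌋₊ : ℝ) ≤ x ∧ x / 4 ≤ (⌊x⌋₊ : ℝ) := by
  have h1 : 1 ≤ ⌊x⌋₊ := (Nat.one_le_floor_iff x).mpr hx
  have h2 : (⌊x⌋₊ : ℝ) ≤ x := Nat.floor_le (by linarith)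
  have h3 : x < ⌊x⌋₊ + 1 := Nat.lt_floor_add_one x
  have h4 : (1 : ℝ) ≤ ⌊x⌋₊ := by exact_mod_cast h1
  exact ⟨h1, h2, by linarith⟩

private lemma VPS_Pr_diff (K : ℕ) (y : ℝ) :
    ‖∑ p ∈ PrI K (4 * K), (Real.log p : ℂ) * e (y / p)‖ ≤
      ‖∑ n ∈ Ioc K (4 * K), (vM n : ℂ) * e (y / n)‖ +
        (Chebyshev.psi ((4 * K : ℕ) : ℝ) - Chebyshev.theta ((4 * K : ℕ) : ℝ)) := by
  have h1 : ∑ n ∈ Ioc K (4 * K), (vM n : ℂ) * e (y / n) =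
      (∑ p ∈ PrI K (4 * K), (Real.log p : ℂ) * e (y / p)) +
        ∑ n ∈ (Ioc K (4 * K)).filter (fun n => ¬ n.Prime), (vM n : ℂ) * e (y / n) := by
    rw [← Finset.sum_filter_add_sum_filter_not (Ioc K (4 * K)) Nat.Prime]
    congr 1
    unfold PrI
    refine sum_congr rfl fun p hp => ?_
    rw [mem_filter] at hp
    have h2 : vM p = Real.log p := ArithmeticFunction.vonMangoldt_apply_prime hp.2
    rw [h2]
  have h3 : ∑ p ∈ PrI K (4 * K), (Real.log p : ℂ) * e (y / p) =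
      ∑ n ∈ Ioc K (4 * K), (vM n : ℂ) * e (y / n) -
        ∑ n ∈ (Ioc K (4 * K)).filter (fun n => ¬ n.Prime), (vM n : ℂ) * e (y / n) := by
    rw [h1]
    ring
  rw [h3]
  refine (norm_sub_le _ _).trans (add_le_add le_rfl ?_)
  rw [Chebyshev.psi_sub_theta_eq_sum_not_prime, Nat.floor_natCast]
  refine (norm_sum_le _ _).trans ?_
  have h4 : ∀ n, ‖(vM n : ℂ) * e (y / n)‖ = ArithmeticFunction.vonMangoldt n := by
    intro n
    have h5 : 0 ≤ vM n := ArithmeticFunction.vonMangoldt_nonneg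
    rw [norm_mul, norm_e, mul_one, Complex.norm_real, Real.norm_eq_abs, abs_of_nonneg h5]
    rfl
  rw [sum_congr rfl fun n _ => h4 n]
  refine sum_le_sum_of_subset_of_nonneg ?_ fun n _ _ => ArithmeticFunction.vonMangoldt_nonneg
  intro n hn
  rw [mem_filter, mem_Ioc] at hn ⊢
  exact ⟨⟨by omega, hn.1.2⟩, hn.2⟩

private lemma VPS_Pr_small (ε : ℝ) (hε : 0 < ε) (K : ℕ) (hK : (64 / ε) ^ 4 ≤ K) :
    Chebyshev.psi ((4 * K : ℕ) : ℝ) - Chebyshev.theta ((4 * K : ℕ) : ℝ) ≤ ε / 2 * K := by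
  have hKpos : (0 : ℝ) < K := lt_of_lt_of_le (by positivity) hK
  have hK1 : (1 : ℝ) ≤ K := by
    have : 0 < K := by exact_mod_cast hKpos
    exact_mod_cast this
  set z : ℝ := √(√(K : ℝ)) with hz
  have hz1 : z ^ 2 = √(K : ℝ) := sq_sqrt (sqrt_nonneg _)
  have hz2 : z ^ 4 = K := by
    have : z ^ 4 = (z ^ 2) ^ 2 := by ring
    rw [this, hz1, sq_sqrt hKpos.le]
  have hz0 : 0 ≤ z := sqrt_nonneg _
  have hzε : 64 / ε ≤ z := by
    by_contra hc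
    push Not at hc
    have : z ^ 4 < (64 / ε) ^ 4 := by gcongr
    rw [hz2] at this
    linarith
  have hzpos : 0 < z := lt_of_lt_of_le (by positivity) hzε
  have hcast : (((4 * K : ℕ)) : ℝ) = 4 * (K : ℝ) := by push_cast; ring
  rw [hcast]
  have h1 := Chebyshev.psi_sub_theta_le (x := 4 * (K : ℝ)) (by linarith)
  have h5 : √(4 * (K : ℝ)) = 2 * z ^ 2 := by
    rw [sqrt_mul (by norm_num), hz1]
    congr 1
    rw [show (4 : ℝ) = 2 ^ 2 by norm_num, sqrt_sq (by norm_num)]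
  have h6 : Real.log (4 * K) ≤ 8 * z := by
    have e1 : (4 : ℝ) * K ≤ (2 * z) ^ 4 := by
      have : (2 * z) ^ 4 = 16 * K := by rw [mul_pow, hz2]; norm_num
      rw [this]; linarith
    calc Real.log (4 * K) ≤ Real.log ((2 * z) ^ 4) := Real.log_le_log (by linarith) e1
      _ = 4 * Real.log (2 * z) := by rw [Real.log_pow]; norm_num
      _ ≤ 4 * (2 * z) := by
          have := Real.log_le_sub_one_of_pos (x := 2 * z) (by linarith)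
          linarith
      _ = 8 * z := by ring
  rw [h5] at h1
  have h7 : 2 * (2 * z ^ 2) * Real.log (4 * K) ≤ 32 * z ^ 3 := by
    calc 2 * (2 * z ^ 2) * Real.log (4 * K) ≤ 2 * (2 * z ^ 2) * (8 * z) := by gcongr
      _ = 32 * z ^ 3 := by ring
  have h8 : 32 * z ^ 3 ≤ ε / 2 * K := by
    rw [← hz2]
    have h9 : 64 ≤ z * ε := by rwa [div_le_iff₀ hε] at hzε
    have h10 : 0 ≤ z ^ 3 := by positivity
    nlinarith
  linarith

private lemma VPS_ev (M : ℝ) : ∃ K₀ : ℕ, 5 ≤ K₀ ∧ ∀ K : ℕ, K₀ ≤ K →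
    (1 + Real.log K) ^ 36 ≤ (K : ℝ) ∧ M ≤ 1 + Real.log K := by
  have h1 := (isLittleO_log_rpow_rpow_atTop (36 : ℝ) one_pos).def (show (0 : ℝ) < 1 / 2 ^ 36 by positivity)
  have h2 := (tendsto_natCast_atTop_atTop (R := ℝ)).eventually h1
  have h3 := (tendsto_natCast_atTop_atTop (R := ℝ)).eventually (Real.tendsto_log_atTop.eventually_ge_atTop (max M 1))
  obtain ⟨K₁, hK₁⟩ := Filter.eventually_atTop.mp (h2.and h3)
  refine ⟨max K₁ 5, le_max_right _ _, fun K hK => ?_⟩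
  obtain ⟨h4, h5⟩ := hK₁ K (le_trans (le_max_left _ _) hK)
  have hK5 : 5 ≤ K := le_trans (le_max_right _ _) hK
  have hKr : (1 : ℝ) ≤ K := by
    have : 1 ≤ K := by omega
    exact_mod_cast this
  have hl1 : 1 ≤ Real.log K := (le_max_right _ _).trans h5
  have hlM : M ≤ Real.log K := (le_max_left _ _).trans h5
  rw [Real.norm_of_nonneg (by positivity), Real.norm_of_nonneg (by positivity), Real.rpow_one] at h4
  have h6 : (Real.log K) ^ (36 : ℝ) = (Real.log K) ^ 36 := by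
    rw [← Real.rpow_natCast]
    norm_num
  rw [h6] at h4
  refine ⟨?_, by linarith⟩
  calc (1 + Real.log K) ^ 36 ≤ (2 * Real.log K) ^ 36 := pow_le_pow_left₀ (by linarith) (by linarith) _
    _ = 2 ^ 36 * (Real.log K) ^ 36 := mul_pow _ _ _
    _ ≤ 2 ^ 36 * (1 / 2 ^ 36 * K) := mul_le_mul_of_nonneg_left h4 (by positivity)
    _ = K := by ring

private lemma VPS_vM (θ ε : ℝ) (hθ1 : 1 ≤ θ) (hθ : θ < 3 / 2) (hε : 0 < ε) : ∃ K₀ : ℕ, ∀ (K : ℕ) (y : ℝ), K₀ ≤ K →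
    (K : ℝ) ^ (1.9 : ℝ) ≤ |y| → |y| ≤ Real.exp ((1 + Real.log K) ^ θ) →
      ‖∑ n ∈ Ioc K (4 * K), (vM n : ℂ) * e (y / n)‖ ≤ ε * K := by
  obtain ⟨C₁, hC₁, hI⟩ := typeI' θ 20 hθ1 hθ (by norm_num)
  obtain ⟨C₂, hC₂, hII⟩ := block' θ 6 hθ1 hθ (by norm_num)
  have hC₁0 : 0 < C₁ := by linarith
  have hC₂0 : 0 < C₂ := by linarith
  obtain ⟨K₀, hK₀5, hK₀⟩ := VPS_ev ((16 * C₁ + 1536 * C₂) / ε)
  refine ⟨K₀, fun K y hK hy1 hy2 => ?_⟩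
  obtain ⟨hx36, hxM⟩ := hK₀ K hK
  have hK5 : 5 ≤ K := hK₀5.trans hK
  have hK1 : 1 ≤ K := by omega
  have hKr : (1 : ℝ) ≤ K := by exact_mod_cast hK1
  have hKpos : (0 : ℝ) < K := by linarith
  have hI' := hI K y hK1 hy1 hy2
  have hII' := fun (U i : ℕ) (hU : 1 ≤ U) => hII K U i y hK1 hU hy1 hy2
  have hlog0 : 0 ≤ Real.log K := Real.log_nonneg hKr
  have e20 : (1 + Real.log K) ^ (20 : ℝ) = (1 + Real.log K) ^ 20 := by
    rw [← Real.rpow_natCast]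
    norm_num
  have e6 : (1 + Real.log K) ^ (6 : ℝ) = (1 + Real.log K) ^ 6 := by
    rw [← Real.rpow_natCast]
    norm_num
  rw [e20] at hI'
  rw [e6] at hII'
  have hLlog := VPS_log K hK5
  set x : ℝ := 1 + Real.log K with hx
  have hx1 : 1 ≤ x := by linarith
  have hx0 : 0 < x := by linarith
  obtain ⟨U, hU⟩ : ∃ U : ℕ, U = ⌊x ^ 12⌋₊ := ⟨_, rfl⟩
  obtain ⟨hU1, hU2, hU3⟩ := VPS_floor (x ^ 12) (one_le_pow₀ hx1)
  rw [← hU] at hU1 hU2 hU3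
  obtain ⟨L, hL⟩ : ∃ L : ℕ, L = Nat.log 2 (4 * K + 1) + 1 := ⟨_, rfl⟩
  rw [← hL] at hLlog
  have hLx : (L : ℝ) ≤ 4 * x := by linarith
  have hL2 : 4 * K + 1 < 2 ^ L := by
    rw [hL]
    exact Nat.lt_pow_succ_log_self (by norm_num) _
  have hUUU : U * U * U ≤ 4 * K := by
    have h1 : ((U * U * U : ℕ) : ℝ) ≤ K := by
      push_cast
      calc (U : ℝ) * U * U = (U : ℝ) ^ 3 := by ring
        _ ≤ (x ^ 12) ^ 3 := pow_le_pow_left₀ (Nat.cast_nonneg _) hU2 3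
        _ = x ^ 36 := by rw [← pow_mul]
        _ ≤ K := hx36
    have h3 : U * U * U ≤ K := by exact_mod_cast h1
    omega
  have hsU : x ^ 6 / 2 ≤ √U := by
    apply Real.le_sqrt_of_sq_le
    have h2 : (x ^ 6 / 2) ^ 2 = x ^ 12 / 4 := by ring
    rw [h2]
    exact hU3
  have hsU0 : 0 < √(U : ℝ) := lt_of_lt_of_le (by positivity) hsU
  have hCc : 1 ≤ C₁ * K / x ^ 20 := by
    rw [one_le_div (by positivity)]
    calc x ^ 20 ≤ x ^ 36 := pow_le_pow_right₀ hx1 (by norm_num)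
      _ ≤ K := hx36
      _ ≤ C₁ * K := le_mul_of_one_le_left hKpos.le hC₁
  have hT0 : 0 ≤ C₂ * (K / √U + K / x ^ 6) := by positivity
  have hmain := VPS_bound K U L y (C₁ * K / x ^ 20) (C₂ * (K / √U + K / x ^ 6)) hUUU hL2 hCc hT0 hI'
    (fun i h1 h2 h3 => hII' U i hU1 h1 h2 h3)
  rw [VPS_tw] at hmain
  refine hmain.trans ?_
  have hK6 : (K : ℝ) / √U ≤ 2 * (K / x ^ 6) := by
    calc (K : ℝ) / √U ≤ K / (x ^ 6 / 2) := div_le_div_of_nonneg_left hKpos.le (by positivity) hsU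
      _ = 2 * (K / x ^ 6) := by field_simp
  have hT1 : C₂ * (K / √U + K / x ^ 6) ≤ 3 * C₂ * (K / x ^ 6) := by
    calc C₂ * (K / √U + K / x ^ 6) ≤ C₂ * (2 * (K / x ^ 6) + K / x ^ 6) :=
          mul_le_mul_of_nonneg_left (by linarith) hC₂0.le
      _ = _ := by ring
  have hL4 : (L : ℝ) ^ 2 * (L : ℝ) ^ 2 ≤ 256 * x ^ 4 := by
    calc (L : ℝ) ^ 2 * (L : ℝ) ^ 2 = (L : ℝ) ^ 4 := by ring
      _ ≤ (4 * x) ^ 4 := pow_le_pow_left₀ (Nat.cast_nonneg _) hLx 4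
      _ = 256 * x ^ 4 := by ring
  have hterm1 : 4 * (L : ℝ) * U * (C₁ * K / x ^ 20) ≤ 16 * C₁ * (K / x ^ 2) := by
    have h1 : 4 * (L : ℝ) * U ≤ 4 * (4 * x) * x ^ 12 :=
      mul_le_mul (mul_le_mul_of_nonneg_left hLx (by norm_num)) hU2 (Nat.cast_nonneg _) (by positivity)
    calc 4 * (L : ℝ) * U * (C₁ * K / x ^ 20) ≤ 4 * (4 * x) * x ^ 12 * (C₁ * K / x ^ 20) :=
          mul_le_mul_of_nonneg_right h1 (by positivity)
      _ = 16 * C₁ * (K / x ^ 7) := by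
          field_simp
          ring
      _ ≤ 16 * C₁ * (K / x ^ 2) :=
          mul_le_mul_of_nonneg_left (div_le_div_of_nonneg_left hKpos.le (by positivity)
            (pow_le_pow_right₀ hx1 (by norm_num))) (by positivity)
  have hterm2 : 2 * ((L : ℝ) ^ 2 * (L : ℝ) ^ 2 * (C₂ * (K / √U + K / x ^ 6))) ≤ 1536 * C₂ * (K / x ^ 2) := by
    calc 2 * ((L : ℝ) ^ 2 * (L : ℝ) ^ 2 * (C₂ * (K / √U + K / x ^ 6))) ≤
          2 * (256 * x ^ 4 * (3 * C₂ * (K / x ^ 6))) :=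
          mul_le_mul_of_nonneg_left (mul_le_mul hL4 hT1 hT0 (by positivity)) (by norm_num)
      _ = 1536 * C₂ * (K / x ^ 2) := by
          field_simp
          ring
  have hfin : (16 * C₁ + 1536 * C₂) * (K / x ^ 2) ≤ ε * K := by
    have h1 : (16 * C₁ + 1536 * C₂) ≤ ε * x ^ 2 := by
      rw [div_le_iff₀ hε] at hxM
      calc (16 * C₁ + 1536 * C₂) ≤ x * ε := hxM
        _ ≤ x ^ 2 * ε := mul_le_mul_of_nonneg_right (by nlinarith) hε.le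
        _ = ε * x ^ 2 := mul_comm _ _
    calc (16 * C₁ + 1536 * C₂) * (K / x ^ 2) ≤ ε * x ^ 2 * (K / x ^ 2) :=
          mul_le_mul_of_nonneg_right h1 (by positivity)
      _ = ε * K := by field_simp
  calc _ ≤ 16 * C₁ * (K / x ^ 2) + 1536 * C₂ * (K / x ^ 2) := add_le_add hterm1 hterm2
    _ = (16 * C₁ + 1536 * C₂) * (K / x ^ 2) := by ring
    _ ≤ ε * K := hfin

theorem prime_sum' (θ ε : ℝ) (hθ1 : 1 ≤ θ) (hθ : θ < 3 / 2) (hε : 0 < ε) : ∃ K₀ : ℕ, ∀ (K : ℕ) (y : ℝ), K₀ ≤ K →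
    (K : ℝ) ^ (1.9 : ℝ) ≤ |y| → |y| ≤ Real.exp ((1 + Real.log K) ^ θ) →
      ‖∑ p ∈ PrI K (4 * K), (Real.log p : ℂ) * e (y / p)‖ ≤ ε * K := by
  obtain ⟨K₁, hK₁⟩ := VPS_vM θ (ε / 2) hθ1 hθ (by positivity)
  refine ⟨max K₁ ⌈(64 / ε) ^ 4⌉₊, fun K y hK h1 h2 => ?_⟩
  have h3 := hK₁ K y (le_trans (le_max_left _ _) hK) h1 h2
  have h4 : (64 / ε) ^ 4 ≤ (K : ℝ) := by
    have h5 : ⌈(64 / ε) ^ 4⌉₊ ≤ K := le_trans (le_max_right _ _) hK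
    exact (Nat.le_ceil _).trans (by exact_mod_cast h5)
  have h6 := VPS_Pr_small ε hε K h4
  have h7 := VPS_Pr_diff K y
  linarith

end Pool.Agent.Lib.MP_50b5e1_nt
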