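import Pool.Agent.Lib.MP_50b5e1_nt.V.VDef

/-!
# V/VPhi (JOB VPhi): sums of geometric sums

`nn x = |x - round x|` (MP_2a816b_nt/Expo), `D K x = ∑_{u<K} e (u x)`, `norm_D_mul_nn : ‖D K x‖ * (2 nn x) ≤ 1`, `norm_D_le`.
For `m` put `β = α m`; `∑_{|l| ≤ L} e (β l) = e (-(L β)) D (2L+1) β` (shift `l = u - L`), so its norm is `≤ 2L+1` and `≤ 1/(2 nn β)`.
`Phi_triv`: `(2L+1)` terms, each `≤ 2L+1`.
`Phi_good`: let `a = |α|`, `0 < a ≤ 1` (we may take `α > 0`: `m ↦ -m`). Let `K = ⌊1/a⌋₊ ≥ 1`, so `K a ≤ 1` and `1/K ≤ 2 a`. Cut `Icc (-L) L` into at most `(2L+1)/K + 1 ≤ 4 a L + 2a + 1 ≤ 6 (a L + 1)` blocks of at most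
`K' = min K (2L+1)` consecutive integers `m_0, …, m_0 + K' - 1`. In a block the numbers `α m` lie in an interval of length `≤ (K-1) a ≤ 1 - a`. Claim: the block sum is `≤ 2 (2L+1) + (1/a) (1 + log (2L+1))·2`.
Proof of the claim: let `c` be real with all `α m ∈ [c, c + 1 - a]`; each `α m` has a nearest integer, only `⌈c⌉ - 1, ⌈c⌉, ⌈c⌉ + 1`.. occur; simplest: for `m` in the block `nn (α m) ≥ min over the (at most three) integers z`; for a fixed integer `z`
the `m` of the block with `nn (α m) = |α m - z|` are at distances `|α m - z|`; those with `α m ≥ z`: ordered increasingly the `j`-th (`j = 0, 1, …`) has `α m - z ≥ j a`, so the sum over them is `≤ (2L+1) + ∑_{j=1}^{2L} 1/(2 j a)`, the same for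
`α m < z`. At most 3 integers `z`, both sides: block sum `≤ 6 (2L+1) + 6/(2a) (1 + log (2L))`. Total `≤ 6 (a L + 1) (6 (2L+1) + (3/a) (1 + log (2L)))`; if this gives more than the constant 100, use the constant you get: THE CONSTANT IN THE STATEMENT IS 1000.
(ALTERNATIVE: a lemma `∑ min (P, 1/nn (α n + β)) ≤ 4 (N/q + 1) (P + q log q)`-like for `|α - a/q| ≤ 1/q^2` may exist in the library; here `q = ⌊1/a⌋₊`: `|a - 1/q| ≤ 1/q^2`.)
-/

set_option autoImplicit false

open Finset Real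
open Pool.Agent.Lib.MP_2a816b_nt (e norm_e conj_e e_add e_neg)

namespace Pool.Agent.Lib.MP_50b5e1_nt

open Pool.Agent.Lib.MP_2a816b_nt (nn D nn_le norm_D_le norm_D_mul_nn)

private theorem VPhi_inner (α : ℝ) (L : ℕ) (m : ℤ) :
    ‖∑ l ∈ Icc (-(L : ℤ)) L, e (α * l * m)‖ = ‖D (2 * L + 1) (α * m)‖ := by
  have h1 : ∑ l ∈ Icc (-(L : ℤ)) L, e (α * l * m) = e (-(L * (α * m))) * D (2 * L + 1) (α * m) := by
    unfold D
    rw [mul_sum]
    refine (Finset.sum_nbij' (fun u : ℕ => (u : ℤ) - L) (fun l : ℤ => (l + L).toNat) ?_ ?_ ?_ ?_ ?_).symm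
    · intro u hu
      rw [mem_range] at hu
      rw [mem_Icc]
      constructor <;> omega
    · intro l hl
      rw [mem_Icc] at hl
      rw [mem_range]
      omega
    · intro u hu
      simp
    · intro l hl
      rw [mem_Icc] at hl
      have : 0 ≤ l + L := by omega
      change ((l + L).toNat : ℤ) - L = l
      rw [Int.toNat_of_nonneg this]
      ring
    · intro u hu
      rw [← e_add]
      congr 1
      push_cast
      ring
  rw [h1, norm_mul, norm_e, one_mul]

private theorem VPhi_le (α : ℝ) (L : ℕ) (m : ℤ) :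
    ‖∑ l ∈ Icc (-(L : ℤ)) L, e (α * l * m)‖ ≤ 2 * (L : ℝ) + 1 := by
  rw [VPhi_inner]
  refine (norm_D_le _ _).trans (le_of_eq ?_)
  push_cast
  ring

theorem Phi_nonneg (α : ℝ) (L : ℕ) : 0 ≤ Phi α L := by
  unfold Phi
  exact Finset.sum_nonneg fun m _ => norm_nonneg _

theorem Phi_triv (α : ℝ) (L : ℕ) : Phi α L ≤ (2 * (L : ℝ) + 1) ^ 2 := by
  unfold Phi
  refine (Finset.sum_le_sum fun m _ => VPhi_le α L m).trans (le_of_eq ?_)
  rw [sum_const, Int.card_Icc, nsmul_eq_mul]
  have h1 : ((L : ℤ) + 1 - -(L : ℤ)).toNat = 2 * L + 1 := by omega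
  rw [h1]
  push_cast
  ring

theorem Phi_good (α : ℝ) (L : ℕ) (hL : 1 ≤ L) (h0 : 0 < |α|) (h1 : |α| ≤ 1) :
    Phi α L ≤ 1000 * (|α| * (L : ℝ) ^ 2 + L * (1 + Real.log L) + (1 + Real.log L) / |α|) := by
  set a := |α| with ha
  have hL' : (1 : ℝ) ≤ L := by exact_mod_cast hL
  have hL0 : (0 : ℝ) < L := by linarith
  have hlog : 0 ≤ Real.log L := Real.log_nonneg hL'
  set B : ℤ := ⌊a * L + 1 / 2⌋ with hB
  have hB0 : 0 ≤ B := Int.floor_nonneg.2 (by positivity)
  have hBle : (B : ℝ) ≤ a * L + 1 / 2 := Int.floor_le _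
  let f : ℤ → ℤ × (Bool × ℕ) := fun m => (round (α * m), (decide (0 ≤ α * m - round (α * m)),
    ⌊|α * m - round (α * m)| / a⌋₊))
  let c : ℤ × (Bool × ℕ) → ℝ := fun x => if x.2.2 = 0 then 2 * (L : ℝ) + 1 else 1 / (2 * (x.2.2 : ℝ) * a)
  let T : Finset (ℤ × (Bool × ℕ)) := Icc (-B) B ×ˢ ((univ : Finset Bool) ×ˢ range (L + 1))
  have hc0 : ∀ x, 0 ≤ c x := by
    intro x
    simp only [c]
    split_ifs
    · positivity
    · positivity
  -- the bound of one term
  have hterm : ∀ m ∈ Icc (-(L : ℤ)) L, ‖∑ l ∈ Icc (-(L : ℤ)) L, e (α * l * m)‖ ≤ c (f m) := by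
    intro m _
    simp only [c, f]
    split_ifs with h
    · exact VPhi_le α L m
    · rw [VPhi_inner]
      have h2 := norm_D_mul_nn (2 * L + 1) (α * m)
      have h3 : ((⌊|α * m - round (α * m)| / a⌋₊ : ℕ) : ℝ) ≤ |α * m - round (α * m)| / a :=
        Nat.floor_le (by positivity)
      have h4 : (0 : ℝ) < ((⌊|α * m - round (α * m)| / a⌋₊ : ℕ) : ℝ) := by
        exact_mod_cast Nat.pos_of_ne_zero h
      rw [le_div_iff₀ h0] at h3
      rw [le_div_iff₀ (by positivity)]
      unfold nn at h2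
      refine le_trans ?_ h2
      refine mul_le_mul_of_nonneg_left ?_ (norm_nonneg _)
      nlinarith
  have hinj : Set.InjOn f (Icc (-(L : ℤ)) L : Finset ℤ) := by
    intro m _ m' _ h
    simp only [f, Prod.mk.injEq] at h
    obtain ⟨h2, h3, h4⟩ := h
    by_contra hne
    have h5 : (1 : ℝ) ≤ |(m : ℝ) - m'| := by
      have : 1 ≤ |m - m'| := Int.one_le_abs (sub_ne_zero.2 hne)
      exact_mod_cast this
    have h6 : a ≤ |(α * m - round (α * m)) - (α * m' - round (α * m'))| := by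
      rw [h2]
      have h7 : (α * m - (round (α * m') : ℝ)) - (α * m' - round (α * m')) = α * ((m : ℝ) - m') := by ring
      rw [h7, abs_mul, ← ha]
      nlinarith
    have hsame : |(α * m - round (α * m)) - (α * m' - round (α * m'))| =
        |(|α * m - round (α * m)| - |α * m' - round (α * m')|)| := by
      rw [decide_eq_decide] at h3
      by_cases h8 : 0 ≤ α * m - round (α * m)
      · rw [abs_of_nonneg h8, abs_of_nonneg (h3.1 h8)]
      · have h9 : ¬ 0 ≤ α * m' - round (α * m') := fun h => h8 (h3.2 h)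
        push Not at h8 h9
        rw [abs_of_neg h8, abs_of_neg h9, ← abs_neg]
        congr 1
        ring
    rw [hsame] at h6
    -- the floors
    set x := |α * m - round (α * m)| with hx
    set y := |α * m' - round (α * m')| with hy
    have hx1 : ((⌊x / a⌋₊ : ℕ) : ℝ) ≤ x / a := Nat.floor_le (by positivity)
    have hx2 : x / a < ((⌊x / a⌋₊ : ℕ) : ℝ) + 1 := Nat.lt_floor_add_one _
    have hy1 : ((⌊y / a⌋₊ : ℕ) : ℝ) ≤ y / a := Nat.floor_le (by positivity)
    have hy2 : y / a < ((⌊y / a⌋₊ : ℕ) : ℝ) + 1 := Nat.lt_floor_add_one _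
    rw [h4] at hx1 hx2
    have h10 : |x / a - y / a| < 1 := by
      rw [abs_lt]
      constructor <;> linarith
    rw [← sub_div, abs_div, abs_of_pos h0, div_lt_one h0] at h10
    linarith
  have himg : (Icc (-(L : ℤ)) L : Finset ℤ).image f ⊆ T := by
    intro x hx
    rw [mem_image] at hx
    obtain ⟨m, hm, rfl⟩ := hx
    rw [mem_Icc] at hm
    have hm' : |(m : ℝ)| ≤ L := by
      rw [abs_le]
      constructor
      · exact_mod_cast hm.1
      · exact_mod_cast hm.2
    have h2 : |α * m| ≤ a * L := by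
      rw [abs_mul, ← ha]
      exact mul_le_mul_of_nonneg_left hm' h0.le
    have h3 : |α * m - round (α * m)| ≤ 1 / 2 := abs_sub_round _
    simp only [T, f, mem_product, mem_Icc, mem_univ, true_and, mem_range]
    rw [abs_le] at h2 h3
    refine ⟨⟨?_, ?_⟩, ?_⟩
    · have h4 : -(round (α * m)) ≤ B := by
        rw [hB, Int.le_floor]
        push_cast
        linarith
      omega
    · rw [hB, Int.le_floor]
      linarith
    · rw [Nat.lt_succ_iff]
      have h4 := nn_le (α * m) 0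
      unfold nn at h4
      rw [Int.cast_zero, sub_zero, abs_mul, ← ha] at h4
      have h5 : |α * m - round (α * m)| / a ≤ L := by
        rw [div_le_iff₀ h0]
        nlinarith
      exact Nat.floor_le_of_le h5
  have hsum : Phi α L ≤ ∑ x ∈ T, c x := by
    unfold Phi
    refine (Finset.sum_le_sum hterm).trans ?_
    rw [← Finset.sum_image (f := c) hinj]
    exact Finset.sum_le_sum_of_subset_of_nonneg himg fun x _ _ => hc0 x
  have hT : ∑ x ∈ T, c x = (2 * (B : ℝ) + 1) * (2 * ∑ j ∈ range (L + 1), if j = 0 then 2 * (L : ℝ) + 1 else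
      1 / (2 * (j : ℝ) * a)) := by
    simp only [T, c]
    rw [Finset.sum_product]
    simp only [Finset.sum_product, sum_const, Int.card_Icc, nsmul_eq_mul, card_univ, Fintype.card_bool]
    have h2 : ((B + 1 - -B).toNat : ℝ) = 2 * (B : ℝ) + 1 := by
      have h3 : ((B + 1 - -B).toNat : ℤ) = 2 * B + 1 := by
        rw [Int.toNat_of_nonneg (by omega)]
        ring
      exact_mod_cast h3
    rw [h2]
    push_cast
    ring
  have hH : (∑ j ∈ range (L + 1), if j = 0 then 2 * (L : ℝ) + 1 else 1 / (2 * (j : ℝ) * a)) ≤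
      2 * (L : ℝ) + 1 + (1 + Real.log L) / (2 * a) := by
    rw [Finset.sum_range_succ', if_pos rfl, add_comm]
    refine add_le_add le_rfl ?_
    have h2 : ∀ j ∈ range L, (if j + 1 = 0 then 2 * (L : ℝ) + 1 else 1 / (2 * ((j + 1 : ℕ) : ℝ) * a)) =
        ((j + 1 : ℕ) : ℝ)⁻¹ * (1 / (2 * a)) := by
      intro j _
      rw [if_neg (Nat.succ_ne_zero j)]
      field_simp
    rw [Finset.sum_congr rfl h2, ← Finset.sum_mul]
    have h3 : ∑ j ∈ range L, ((j + 1 : ℕ) : ℝ)⁻¹ = ((harmonic L : ℚ) : ℝ) := by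
      unfold harmonic
      push_cast
      rfl
    rw [h3, mul_one_div]
    exact div_le_div_of_nonneg_right (harmonic_le_one_add_log L) (by positivity)
  have hB1 : 2 * (B : ℝ) + 1 ≤ 2 * (a * L) + 2 := by linarith
  have hB2 : (0 : ℝ) ≤ 2 * (B : ℝ) + 1 := by
    have : (0 : ℝ) ≤ B := by exact_mod_cast hB0
    linarith
  have hS0 : 0 ≤ ∑ j ∈ range (L + 1), (if j = 0 then 2 * (L : ℝ) + 1 else 1 / (2 * (j : ℝ) * a)) := by
    refine Finset.sum_nonneg fun j _ => ?_
    split_ifs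
    · positivity
    · positivity
  have hfin : Phi α L ≤ (2 * (a * L) + 2) * (2 * (2 * (L : ℝ) + 1 + (1 + Real.log L) / (2 * a))) := by
    rw [hT] at hsum
    refine hsum.trans ?_
    exact mul_le_mul hB1 (by linarith) (by linarith) (by positivity)
  refine hfin.trans ?_
  have h5 : (2 * (a * L) + 2) * (2 * (2 * (L : ℝ) + 1 + (1 + Real.log L) / (2 * a))) =
      4 * (a * L) * (2 * L + 1) + 4 * (2 * L + 1) + 2 * L * (1 + Real.log L) + 2 * ((1 + Real.log L) / a) := by
    field_simp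
    ring
  rw [h5]
  have h6 : 0 ≤ (1 + Real.log L) / a := by positivity
  have h7 : 0 ≤ L * Real.log L := by positivity
  have h8 : 0 ≤ a * L * (L - 1) := mul_nonneg (by positivity) (by linarith)
  have h9 : 0 ≤ a * (L : ℝ) ^ 2 := by positivity
  nlinarith

end Pool.Agent.Lib.MP_50b5e1_nt
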