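import Mathlib
import Pool.Agent.Lib.MP_2a816b_nt.Sums
import Pool.Agent.Lib.MP_570bef_ntV.VM.Primes

/-!
# V/VPr (JOB VPr): many primes of the size `N^(1/r)`, explicit

Let `Q` be the least natural number with `N ≤ Q ^ r` (`Nat.find`); `(Q - 1) ^ r < N`. From `(10^9 r^4)^r ≤ N ≤ Q^r`: `Q ≥ 10^9 r^4`. `theta_block` (MP_2a816b_nt/Sums, for `Q ≥ 10^8`): `∑_{Q < p ≤ 4Q} log p ≥ Q`, so the number of
primes in `(Q, 4Q]` is at least `Q / log (4Q) ≥ 2 r^3 + 1`: `log (4Q) ≤ 4 (4Q)^(1/4)` (`Real.log_le_rpow_div` / `log x = 4 log x^(1/4) ≤ 4 x^(1/4)`), `≤ 5.7 Q^(1/4)`, and `Q^(3/4) ≥ 5·10^6 r^3`. (Or: `r^4 ≤ Q/10^9`, and compare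
`(2r^3+1) log (4Q) ≤ 3 r^3 · 5.7 Q^(1/4) ≤ Q` since `r^3 ≤ (Q/10^9)^(3/4)`.) Take `P` = a subset of exactly `2 r^3 + 1` of these primes (`Finset.exists_subset_card_eq`).
For `p ∈ P`: `p > Q ≥ 10^9 r^4 > r`; `N ≤ Q^r ≤ p^r`; `p^r ≤ (4Q)^r ≤ (8 (Q-1))^r ≤ 8^r N`.
Separation: EXACTLY as in the proof of `VM.primes` (MP_570bef_ntV/VM/Primes.lean; copy it): a nonzero difference `x i - x k` has absolute value `< N ≤ p^r`, so fewer than `r` primes of `P` divide it (their product would be `≥ N`: each `p ≥ N^(1/r)`),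
there are at most `2 r^2` ordered pairs for `x` and `y`, so at most `2 r^2 (r - 1) < 2 r^3 + 1` bad primes.
-/

set_option autoImplicit false

open Finset Real

namespace Pool.Agent.Lib.MP_50b5e1_nt

theorem primes_u (r : ℕ) (hr : 1 ≤ r) (N : ℕ) (hN : (10 ^ 9 * r ^ 4) ^ r ≤ N) : ∃ P : Finset ℕ, P.card ≤ 2 * r ^ 3 + 1 ∧
    (∀ p ∈ P, p.Prime ∧ r < p ∧ N ≤ p ^ r ∧ p ^ r ≤ 8 ^ r * N) ∧
    ∀ x y : Fin r → ℤ, (∀ i, 1 ≤ x i ∧ x i ≤ N) → (∀ i, 1 ≤ y i ∧ y i ≤ N) → Function.Injective x →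
      Function.Injective y → ∃ p ∈ P, (∀ i k, i ≠ k → ¬ ((p : ℤ) ∣ x i - x k)) ∧
        (∀ i k, i ≠ k → ¬ ((p : ℤ) ∣ y i - y k)) := by
  classical
  have hex : ∃ n : ℕ, N ≤ n ^ r := ⟨N, Nat.le_self_pow (by omega) N⟩
  set Q := Nat.find hex with hQ
  have h1 : N ≤ Q ^ r := Nat.find_spec hex
  have h2 : ∀ n, n < Q → n ^ r < N := fun n hn => not_le.1 (Nat.find_min hex hn)
  have hr4 : 1 ≤ r ^ 4 := Nat.one_le_pow _ _ (by omega)
  have h3 : 10 ^ 9 * r ^ 4 ≤ Q := (Nat.pow_le_pow_iff_left (by omega : r ≠ 0)).1 (hN.trans h1)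
  have hQ9 : 10 ^ 9 ≤ Q := by omega
  have hrQ : r ≤ Q := by
    have h4 : r ≤ r ^ 4 := Nat.le_self_pow (by norm_num) r
    omega
  -- many primes
  have hcard : 2 * r ^ 3 + 1 ≤ (Pool.Agent.Lib.MP_2a816b_nt.PrI Q (4 * Q)).card := by
    by_contra hc
    push Not at hc
    have h4 := Pool.Agent.Lib.MP_2a816b_nt.theta_block (Q : ℝ) (by
      have : ((10 ^ 9 : ℕ) : ℝ) ≤ (Q : ℝ) := by exact_mod_cast hQ9
      push_cast at this
      linarith)
    have h5 : (4 * (Q : ℝ)) = ((4 * Q : ℕ) : ℝ) := by push_cast; ring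
    rw [h5, Pool.Agent.Lib.MP_2a816b_nt.theta_sub _ _ (by omega)] at h4
    have hQr : (10 : ℝ) ^ 9 * (r : ℝ) ^ 4 ≤ (Q : ℝ) := by exact_mod_cast h3
    have hr1 : (1 : ℝ) ≤ (r : ℝ) := by exact_mod_cast hr
    have hQ0 : (0 : ℝ) < (Q : ℝ) := by
      have : (0 : ℝ) < (10 : ℝ) ^ 9 * (r : ℝ) ^ 4 := by positivity
      linarith
    set t : ℝ := √(√(4 * (Q : ℝ))) with ht
    have ht0 : 0 ≤ t := Real.sqrt_nonneg _
    have ht4 : t ^ 4 = 4 * (Q : ℝ) := by
      have h6 : t ^ 2 = √(4 * (Q : ℝ)) := Real.sq_sqrt (Real.sqrt_nonneg _)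
      have h7 : t ^ 4 = (t ^ 2) ^ 2 := by ring
      rw [h7, h6, Real.sq_sqrt (by positivity)]
    have htpos : 0 < t := by
      rcases ht0.lt_or_eq with h | h
      · exact h
      · rw [← h] at ht4
        norm_num at ht4
        linarith
    have hlog : Real.log (4 * (Q : ℝ)) ≤ 4 * t := by
      rw [← ht4, Real.log_pow]
      have h6 := Real.log_le_sub_one_of_pos htpos
      push_cast
      linarith
    have h6 : ∑ p ∈ Pool.Agent.Lib.MP_2a816b_nt.PrI Q (4 * Q), Real.log p ≤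
        ∑ p ∈ Pool.Agent.Lib.MP_2a816b_nt.PrI Q (4 * Q), (4 * t) := by
      refine Finset.sum_le_sum fun p hp => ?_
      unfold Pool.Agent.Lib.MP_2a816b_nt.PrI at hp
      rw [mem_filter, mem_Ioc] at hp
      have hp0 : (0 : ℝ) < p := by exact_mod_cast hp.2.pos
      refine (Real.log_le_log hp0 ?_).trans hlog
      rw [h5]
      exact_mod_cast hp.1.2
    rw [sum_const, nsmul_eq_mul] at h6
    have h7 : ((Pool.Agent.Lib.MP_2a816b_nt.PrI Q (4 * Q)).card : ℝ) ≤ 2 * (r : ℝ) ^ 3 := by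
      have : (Pool.Agent.Lib.MP_2a816b_nt.PrI Q (4 * Q)).card ≤ 2 * r ^ 3 := by omega
      exact_mod_cast this
    have h8 : (Q : ℝ) ≤ 2 * (r : ℝ) ^ 3 * (4 * t) :=
      (h4.trans h6).trans (mul_le_mul_of_nonneg_right h7 (by positivity))
    have h9 : t ^ 3 ≤ 32 * (r : ℝ) ^ 3 := by
      have h10 : t * t ^ 3 ≤ t * (32 * (r : ℝ) ^ 3) := by nlinarith
      exact le_of_mul_le_mul_left h10 htpos
    have h10 : t ≤ 4 * r := by
      by_contra hc'
      push Not at hc'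
      have h11 : (4 * (r : ℝ)) ^ 3 < t ^ 3 := pow_lt_pow_left₀ hc' (by positivity) (by norm_num)
      have h12 : (0 : ℝ) < (r : ℝ) ^ 3 := by positivity
      nlinarith
    have h11 : t ^ 4 ≤ (4 * (r : ℝ)) ^ 4 := pow_le_pow_left₀ ht0 h10 4
    rw [ht4] at h11
    have h12 : (0 : ℝ) < (r : ℝ) ^ 4 := by positivity
    nlinarith
  obtain ⟨P, hPsub, hPcard⟩ := Finset.exists_subset_card_eq hcard
  have hP : ∀ p ∈ P, p.Prime ∧ Q < p ∧ p ≤ 4 * Q := by
    intro p hp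
    have h4 := hPsub hp
    unfold Pool.Agent.Lib.MP_2a816b_nt.PrI at h4
    rw [mem_filter, mem_Ioc] at h4
    exact ⟨h4.2, h4.1.1, h4.1.2⟩
  refine ⟨P, hPcard.le, ?_, ?_⟩
  · intro p hp
    obtain ⟨h4, h5, h6⟩ := hP p hp
    refine ⟨h4, by omega, h1.trans (Nat.pow_le_pow_left h5.le r), ?_⟩
    calc p ^ r ≤ (8 * (Q - 1)) ^ r := Nat.pow_le_pow_left (by omega) r
      _ = 8 ^ r * (Q - 1) ^ r := mul_pow _ _ _
      _ ≤ 8 ^ r * N := Nat.mul_le_mul_left _ (h2 (Q - 1) (by omega)).le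
  · intro x y hx hy hxi hyi
    by_contra hcon
    push Not at hcon
    -- the product of the differences
    set Δ : ℤ := ∏ i, ∏ k ∈ univ.erase i, ((x i - x k) * (y i - y k)) with hΔ
    have hΔ0 : Δ ≠ 0 := by
      rw [hΔ, Finset.prod_ne_zero_iff]
      intro i _
      rw [Finset.prod_ne_zero_iff]
      intro k hk
      have hik : i ≠ k := (Finset.ne_of_mem_erase hk).symm
      exact mul_ne_zero (sub_ne_zero.2 fun h => hik (hxi h)) (sub_ne_zero.2 fun h => hik (hyi h))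
    have hΔle : Δ.natAbs ≤ N ^ (2 * r * (r - 1)) := by
      have hna : ∀ {ι : Type} (s : Finset ι) (g : ι → ℤ), (∏ i ∈ s, g i).natAbs = ∏ i ∈ s, (g i).natAbs :=
        fun s g => map_prod Int.natAbsHom g s
      rw [hΔ, hna]
      have h6 : ∀ i : Fin r, (∏ k ∈ univ.erase i, ((x i - x k) * (y i - y k))).natAbs ≤
          N ^ (2 * (r - 1)) := by
        intro i
        rw [hna]
        refine (Finset.prod_le_prod' (g := fun _ => N ^ 2) fun k _ => ?_).trans ?_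
        · rw [Int.natAbs_mul, pow_two]
          have a1 := hx i
          have a2 := hx k
          have a3 := hy i
          have a4 := hy k
          exact Nat.mul_le_mul (by omega) (by omega)
        · rw [Finset.prod_const, Finset.card_erase_of_mem (mem_univ i), card_univ, Fintype.card_fin,
            ← pow_mul]
      refine (Finset.prod_le_prod' fun i _ => h6 i).trans ?_
      rw [Finset.prod_const, card_univ, Fintype.card_fin, ← pow_mul]
      refine le_of_eq ?_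
      congr 1
      ring
    have hdvd : ∏ p ∈ P, p ∣ Δ.natAbs := by
      refine Finset.prod_primes_dvd _ (fun p hp => (hP p hp).1.prime) (fun p hp => ?_)
      · have h6 : (p : ℤ) ∣ Δ := by
          by_cases h7 : ∀ i k, i ≠ k → ¬ ((p : ℤ) ∣ x i - x k)
          · obtain ⟨i, k, hik, h8⟩ := hcon p hp h7
            refine (dvd_mul_of_dvd_right h8 (x i - x k)).trans ?_
            exact (Finset.dvd_prod_of_mem (fun k => (x i - x k) * (y i - y k))
              (Finset.mem_erase.2 ⟨hik.symm, mem_univ k⟩)).trans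
              (Finset.dvd_prod_of_mem (fun i => ∏ k ∈ univ.erase i, ((x i - x k) * (y i - y k))) (mem_univ i))
          · push Not at h7
            obtain ⟨i, k, hik, h8⟩ := h7
            refine (dvd_mul_of_dvd_left h8 (y i - y k)).trans ?_
            exact (Finset.dvd_prod_of_mem (fun k => (x i - x k) * (y i - y k))
              (Finset.mem_erase.2 ⟨hik.symm, mem_univ k⟩)).trans
              (Finset.dvd_prod_of_mem (fun i => ∏ k ∈ univ.erase i, ((x i - x k) * (y i - y k))) (mem_univ i))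
        exact Int.natCast_dvd.1 h6
    have hle := Nat.le_of_dvd (Int.natAbs_pos.2 hΔ0) hdvd
    have h6 : Q ^ (2 * r ^ 3 + 1) ≤ ∏ p ∈ P, p := by
      rw [← hPcard, ← Finset.prod_const]
      exact Finset.prod_le_prod' fun p hp => (hP p hp).2.1.le
    have hN1 : 1 ≤ N := by
      have h7 : 1 ≤ (10 ^ 9 * r ^ 4) ^ r := Nat.one_le_pow _ _ (by omega)
      omega
    have h7 : N ^ (2 * r * (r - 1)) ≤ Q ^ (2 * r ^ 3) := by
      calc N ^ (2 * r * (r - 1)) ≤ N ^ (2 * r ^ 2) := by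
            refine Nat.pow_le_pow_right hN1 ?_
            obtain ⟨r', rfl⟩ := Nat.exists_eq_add_of_le hr
            rw [Nat.add_sub_cancel_left]
            nlinarith
        _ ≤ (Q ^ r) ^ (2 * r ^ 2) := Nat.pow_le_pow_left h1 _
        _ = Q ^ (2 * r ^ 3) := by rw [← pow_mul]; congr 1; ring
    have h8 : Q ^ (2 * r ^ 3) < Q ^ (2 * r ^ 3 + 1) := Nat.pow_lt_pow_right (by omega) (by omega)
    omega

end Pool.Agent.Lib.MP_50b5e1_nt
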