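import Pool.Agent.Lib.MP_50b5e1_nt.V.VPr
import Pool.Agent.Lib.MP_570bef_ntV.VM.Rec

/-!
# V/VRec (JOB VRec): the recursion for Vinogradov's mean value with an explicit constant

The proof of `rec_of` in MP_570bef_ntV/VM/Asm.lean (copy it), with `primes_u` in place of `VM.primes`, `C0 = 2 r^3 + 1`, and `coinc`, `well`, `JN_le_W` (as in MP_570bef_ntV/VM/Rec.lean) for `H1`, `H2`, `H3`.
* `N < (10^9 r^4)^r`: let `p` be the least natural number with `N ≤ p^r` (`p ≥ 1`); `p^r ≤ 2^r (p-1)^r ≤ 2^r N` for `p ≥ 2`, `p = 1`: `1 ≤ N`. `JN (r+s) r N ≤ N^(2(r+s)) ≤ (10^9 r^4)^(2r(r+s))` (`JN_le`), the other factors are `≥ 1` (`JN_pos`).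
* `N ≥ (10^9 r^4)^r`: `rec_of` gives `JN ≤ (4 C0 r^r + K^(2(r+s))) G` with `K = 4 r^2`, `G = N^r p^(2s + r(r-1)/2) JN s r (N/p+1)`. And `4 (2r^3+1) r^r + (4r^2)^(2(r+s)) ≤ (10^9 r^4)^(2r(r+s))`:
  `(4r^2)^(2(r+s)) = (16 r^4)^(r+s)`, `4 (2r^3+1) r^r ≤ 12 r^3 r^r ≤ 12 (r^4)^(r+s)` (`r^3 r^r ≤ r^(4r)`), the sum is `≤ (28 r^4)^(r+s)·..≤ (10^9 r^4)^(r+s) ≤ (10^9 r^4)^(2r(r+s))`.
-/

set_option autoImplicit false

open Finset Real

namespace Pool.Agent.Lib.MP_50b5e1_nt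

open Pool.Agent.Lib.MP_570bef_ntV.VM in
theorem VRec_num (r s : ℕ) (hr : 1 ≤ r) : 4 * ((2 * r ^ 3 + 1 : ℕ) : ℝ) * (r : ℝ) ^ r + (4 * (r : ℝ) ^ 2) ^ (2 * (r + s)) ≤
    (10 ^ 9 * (r : ℝ) ^ 4) ^ (2 * r * (r + s)) := by
  have hr1 : (1 : ℝ) ≤ r := by exact_mod_cast hr
  have hX : (1 : ℝ) ≤ (r : ℝ) ^ 4 := one_le_pow₀ hr1
  have h1 : (4 * (r : ℝ) ^ 2) ^ (2 * (r + s)) = (16 * (r : ℝ) ^ 4) ^ (r + s) := by
    rw [pow_mul]
    congr 1
    ring
  have h2 : 4 * ((2 * r ^ 3 + 1 : ℕ) : ℝ) * (r : ℝ) ^ r ≤ (12 * (r : ℝ) ^ 4) ^ (r + s) := by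
    have h3 : ((2 * r ^ 3 + 1 : ℕ) : ℝ) ≤ 3 * (r : ℝ) ^ 3 := by
      push_cast
      have : (1 : ℝ) ≤ (r : ℝ) ^ 3 := one_le_pow₀ hr1
      linarith
    calc 4 * ((2 * r ^ 3 + 1 : ℕ) : ℝ) * (r : ℝ) ^ r ≤ 4 * (3 * (r : ℝ) ^ 3) * (r : ℝ) ^ r :=
          mul_le_mul_of_nonneg_right (mul_le_mul_of_nonneg_left h3 (by norm_num)) (by positivity)
      _ = 12 * (r : ℝ) ^ (r + 3) := by rw [pow_add]; ring
      _ ≤ 12 ^ (r + s) * ((r : ℝ) ^ 4) ^ (r + s) := by
          refine mul_le_mul (le_self_pow₀ (by norm_num) (by omega)) ?_ (by positivity) (by positivity)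
          rw [← pow_mul]
          exact pow_le_pow_right₀ hr1 (by omega)
      _ = _ := (mul_pow _ _ _).symm
  rw [h1]
  calc _ ≤ (12 * (r : ℝ) ^ 4) ^ (r + s) + (16 * (r : ℝ) ^ 4) ^ (r + s) := by linarith
    _ ≤ (12 * (r : ℝ) ^ 4 + 16 * (r : ℝ) ^ 4) ^ (r + s) := pow_add_pow_le (by positivity) (by positivity) (by omega)
    _ ≤ (10 ^ 9 * (r : ℝ) ^ 4) ^ (r + s) := pow_le_pow_left₀ (by positivity) (by linarith) _
    _ ≤ _ := pow_le_pow_right₀ (by linarith) (by nlinarith)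

open Pool.Agent.Lib.MP_570bef_ntV.VM in
theorem rec_u (r s : ℕ) (hr : 1 ≤ r) (N : ℕ) (hN : 1 ≤ N) : ∃ p : ℕ, 1 ≤ p ∧ (N : ℝ) ≤ (p : ℝ) ^ r ∧
    (p : ℝ) ^ r ≤ 8 ^ r * N ∧
    (VM.JN (r + s) r N : ℝ) ≤ (10 ^ 9 * (r : ℝ) ^ 4) ^ (2 * r * (r + s)) *
      ((N : ℝ) ^ r * (p : ℝ) ^ (2 * s + r * (r - 1) / 2) * (VM.JN s r (N / p + 1) : ℝ)) := by
  classical
  set C0 : ℕ := 2 * r ^ 3 + 1 with hC0d
  set K : ℝ := 4 * (r : ℝ) ^ 2 with hK
  have hr0 : (1 : ℝ) ≤ r := by exact_mod_cast hr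
  have hK0 : 0 < K := by positivity
  set C : ℝ := (10 ^ 9 * (r : ℝ) ^ 4) ^ (2 * r * (r + s)) with hC
  have hC0' : (0 : ℝ) ≤ (C0 : ℝ) := Nat.cast_nonneg _
  have hCa : 0 ≤ 4 * C0 * (r : ℝ) ^ r := by positivity
  have hCb : 0 ≤ K ^ (2 * (r + s)) := by positivity
  have hNr : (1 : ℝ) ≤ N := by exact_mod_cast hN
  rcases Nat.lt_or_ge N ((10 ^ 9 * r ^ 4) ^ r) with hlt | hge
  · -- small `N`
    have hex : ∃ p : ℕ, N ≤ p ^ r := ⟨N, Nat.le_self_pow (by omega) N⟩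
    have hp := Nat.find_spec hex
    have hmin : ∀ m < Nat.find hex, ¬ N ≤ m ^ r := fun m hm => Nat.find_min hex hm
    set p := Nat.find hex
    have hp1 : 1 ≤ p := by
      rcases Nat.eq_zero_or_pos p with h0 | h0
      · rw [h0, zero_pow (by omega)] at hp
        omega
      · exact h0
    have hpR : (1 : ℝ) ≤ p := by exact_mod_cast hp1
    refine ⟨p, hp1, by exact_mod_cast hp, ?_, ?_⟩
    · have h1 : p ^ r ≤ 8 ^ r * N := by
        rcases Nat.lt_or_ge p 2 with h2 | h2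
        · have h3 : p = 1 := by omega
          rw [h3, one_pow]
          exact Nat.succ_le_of_lt (Nat.mul_pos (by positivity) hN)
        · have h3 : (p - 1) ^ r < N := not_le.1 (hmin (p - 1) (by omega))
          calc p ^ r ≤ (8 * (p - 1)) ^ r := Nat.pow_le_pow_left (by omega) r
            _ = 8 ^ r * (p - 1) ^ r := mul_pow _ _ _
            _ ≤ 8 ^ r * N := Nat.mul_le_mul_left _ h3.le
      exact_mod_cast h1
    · have h1 : (VM.JN (r + s) r N : ℝ) ≤ (N : ℝ) ^ (2 * (r + s)) := by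
        exact_mod_cast Pool.Agent.Lib.MP_570bef_ntV.VM.JN_le (r + s) r N
      have h2 : (N : ℝ) ^ (2 * (r + s)) ≤ C := by
        have h3 : (N : ℝ) ≤ (10 ^ 9 * (r : ℝ) ^ 4) ^ r := by exact_mod_cast hlt.le
        calc (N : ℝ) ^ (2 * (r + s)) ≤ ((10 ^ 9 * (r : ℝ) ^ 4) ^ r) ^ (2 * (r + s)) :=
              pow_le_pow_left₀ (by positivity) h3 _
          _ = C := by
              rw [hC, ← pow_mul]
              congr 1
              ring
      have h3 : (1 : ℝ) ≤ (VM.JN s r (N / p + 1) : ℝ) := by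
        exact_mod_cast Pool.Agent.Lib.MP_570bef_ntV.VM.JN_pos s r (N / p + 1) (Nat.le_add_left 1 _)
      have h4 : (1 : ℝ) ≤ (N : ℝ) ^ r * (p : ℝ) ^ (2 * s + r * (r - 1) / 2) *
          (VM.JN s r (N / p + 1) : ℝ) :=
        one_le_mul_of_one_le_of_one_le (one_le_mul_of_one_le_of_one_le (one_le_pow₀ hNr) (one_le_pow₀ hpR)) h3
      have hC1 : 0 ≤ C := by positivity
      calc (VM.JN (r + s) r N : ℝ) ≤ C := by linarith
        _ ≤ _ := le_mul_of_one_le_right hC1 h4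
  · obtain ⟨P, hPc, hP, hsep⟩ := primes_u r hr N hge
    have hrN : r ≤ N := by
      refine le_trans ?_ hge
      calc r ≤ r ^ 4 := Nat.le_self_pow (by norm_num) r
        _ ≤ 10 ^ 9 * r ^ 4 := Nat.le_mul_of_pos_left _ (by norm_num)
        _ ≤ (10 ^ 9 * r ^ 4) ^ r := Nat.le_self_pow (by omega) _
    -- `P` is not empty
    have hPne : P.Nonempty := by
      obtain ⟨p, hp, -⟩ := hsep (fun i => ((i : ℕ) : ℤ) + 1) (fun i => ((i : ℕ) : ℤ) + 1)
        (fun i => by have := i.2; omega) (fun i => by have := i.2; omega)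
        (fun i j h => Fin.ext (by simpa using h)) (fun i j h => Fin.ext (by simpa using h))
      exact ⟨p, hp⟩
    let F : ℕ → ℕ := fun p => p ^ (2 * s) * (N ^ r * (r ^ r * p ^ (r * (r - 1) / 2)) * _root_.VM.JN s r (N / p + 1))
    obtain ⟨p, hp, hmax⟩ := P.exists_max_image F hPne
    obtain ⟨hpp, hrp, hNp, hpN⟩ := hP p hp
    set S := Finset.Ico (0 : ℤ) N with hS
    set Wt := W (tup r S) (vs r) (tup s S) (vs r) with hWt
    -- the injective part
    have hinj : ((((tup r S ×ˢ tup r S) ×ˢ (tup s S ×ˢ tup s S)).filter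
        (fun z => vs r z.1.1 + vs r z.2.1 = vs r z.1.2 + vs r z.2.2)).filter
          (fun z => Function.Injective z.1.1 ∧ Function.Injective z.1.2)).card ≤ C0 * F p := by
      have h1 : (((tup r S ×ˢ tup r S) ×ˢ (tup s S ×ˢ tup s S)).filter
          (fun z => vs r z.1.1 + vs r z.2.1 = vs r z.1.2 + vs r z.2.2)).filter
            (fun z => Function.Injective z.1.1 ∧ Function.Injective z.1.2) ⊆
          P.biUnion fun p => (((((tup r S).filter (fun x => ∀ i k, i ≠ k → ¬ ((p : ℤ) ∣ x i - x k))) ×ˢ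
            ((tup r S).filter (fun x => ∀ i k, i ≠ k → ¬ ((p : ℤ) ∣ x i - x k)))) ×ˢ
              (tup s S ×ˢ tup s S)).filter
              (fun z => vs r z.1.1 + vs r z.2.1 = vs r z.1.2 + vs r z.2.2)) := by
        intro z hz
        rw [mem_filter, mem_filter, mem_product, mem_product, mem_product] at hz
        have hb : ∀ x ∈ tup r S, ∀ i, 1 ≤ x i + 1 ∧ x i + 1 ≤ N := by
          intro x hx i
          have h2 := Finset.mem_Ico.1 (Fintype.mem_piFinset.1 hx i)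
          omega
        obtain ⟨q, hq, hq1, hq2⟩ := hsep (fun i => z.1.1 i + 1) (fun i => z.1.2 i + 1)
          (hb _ hz.1.1.1.1) (hb _ hz.1.1.1.2)
          (fun i j h => hz.2.1 (by simpa using h)) (fun i j h => hz.2.2 (by simpa using h))
        rw [mem_biUnion]
        refine ⟨q, hq, ?_⟩
        rw [mem_filter, mem_product, mem_product, mem_product, mem_filter, mem_filter]
        refine ⟨⟨⟨⟨hz.1.1.1.1, fun i k hik h => ?_⟩, ⟨hz.1.1.1.2, fun i k hik h => ?_⟩⟩, hz.1.1.2⟩, hz.1.2⟩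
        · exact hq1 i k hik (by rw [add_sub_add_right_eq_sub]; exact h)
        · exact hq2 i k hik (by rw [add_sub_add_right_eq_sub]; exact h)
      refine (Finset.card_le_card h1).trans (Finset.card_biUnion_le.trans ?_)
      calc _ ≤ ∑ q ∈ P, F p := Finset.sum_le_sum fun q hq => by
            obtain ⟨hqp, hrq, hNq, hqN⟩ := hP q hq
            exact (Pool.Agent.Lib.MP_570bef_ntV.VM.well r s N q hN hqp hrq hNq).trans (hmax q hq)
        _ = P.card * F p := by rw [Finset.sum_const, smul_eq_mul]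
        _ ≤ C0 * F p := Nat.mul_le_mul_right _ hPc
    have hsplit := asm_split r s S
    have hsplit' : (Wt : ℝ) ≤ C0 * F p + 2 * ∑ ij ∈ (univ : Finset (Fin r)).offDiag,
        (W4 ((tup r S).filter (fun x => x ij.1 = x ij.2)) (tup r S) (vs r) (tup s S) (vs r) : ℝ) := by
      have h1 := hsplit.trans (Nat.add_le_add_right hinj _)
      exact_mod_cast h1
    set w : ℝ := (Wt : ℝ) with hw
    have hw0 : 0 ≤ w := Nat.cast_nonneg _
    have hcoin : K * ∑ ij ∈ (univ : Finset (Fin r)).offDiag,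
        (W4 ((tup r S).filter (fun x => x ij.1 = x ij.2)) (tup r S) (vs r) (tup s S) (vs r) : ℝ) ≤
        (r : ℝ) ^ 2 * (w + K ^ (r + s) * √w) := by
      rw [Finset.mul_sum]
      refine (Finset.sum_le_sum fun ij hij => Pool.Agent.Lib.MP_570bef_ntV.VM.coinc r s S ij.1 ij.2 (mem_offDiag.1 hij).2.2 K hK0.le).trans ?_
      rw [Finset.sum_const, nsmul_eq_mul]
      refine mul_le_mul_of_nonneg_right ?_ (by positivity)
      have h2 : (univ : Finset (Fin r)).offDiag.card ≤ r ^ 2 := by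
        rw [offDiag_card, card_univ, Fintype.card_fin, pow_two]
        exact Nat.sub_le _ _
      exact_mod_cast h2
    have hcoin' : 2 * ∑ ij ∈ (univ : Finset (Fin r)).offDiag,
        (W4 ((tup r S).filter (fun x => x ij.1 = x ij.2)) (tup r S) (vs r) (tup s S) (vs r) : ℝ) ≤
        (w + K ^ (r + s) * √w) / 2 := by
      set Q := ∑ ij ∈ (univ : Finset (Fin r)).offDiag,
        (W4 ((tup r S).filter (fun x => x ij.1 = x ij.2)) (tup r S) (vs r) (tup s S) (vs r) : ℝ)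
      have hr2 : (0 : ℝ) < (r : ℝ) ^ 2 := by positivity
      have h1 : (r : ℝ) ^ 2 * (4 * Q) ≤ (r : ℝ) ^ 2 * (w + K ^ (r + s) * √w) := by
        calc (r : ℝ) ^ 2 * (4 * Q) = K * Q := by rw [hK]; ring
          _ ≤ _ := hcoin
      have h2 := le_of_mul_le_mul_left h1 hr2
      linarith
    have hamgm : K ^ (r + s) * √w ≤ w / 2 + K ^ (2 * (r + s)) / 2 := by
      have h1 : 0 ≤ (K ^ (r + s) - √w) ^ 2 := sq_nonneg _
      have h2 : √w ^ 2 = w := Real.sq_sqrt hw0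
      have h3 : K ^ (2 * (r + s)) = (K ^ (r + s)) ^ 2 := by rw [← pow_mul, Nat.mul_comm]
      rw [h3]
      nlinarith
    have hWle : w ≤ 4 * (C0 * F p) + K ^ (2 * (r + s)) := by linarith
    have hp1 : 1 ≤ p := hpp.one_lt.le
    have hpR : (1 : ℝ) ≤ p := by exact_mod_cast hp1
    refine ⟨p, hp1, by exact_mod_cast hNp, ?_, ?_⟩
    · exact_mod_cast hpN
    · have h1 : (_root_.VM.JN (r + s) r N : ℝ) ≤ w := by
        rw [hw]
        exact_mod_cast Pool.Agent.Lib.MP_570bef_ntV.VM.JN_le_W r s N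
      have h2 : (1 : ℝ) ≤ (_root_.VM.JN s r (N / p + 1) : ℝ) := by
        exact_mod_cast JN_pos s r (N / p + 1) (Nat.le_add_left 1 _)
      set G : ℝ := (N : ℝ) ^ r * (p : ℝ) ^ (2 * s + r * (r - 1) / 2) * (_root_.VM.JN s r (N / p + 1) : ℝ)
        with hG
      have h3 : (1 : ℝ) ≤ G :=
        one_le_mul_of_one_le_of_one_le (one_le_mul_of_one_le_of_one_le (one_le_pow₀ hNr) (one_le_pow₀ hpR)) h2
      have h4 : (F p : ℝ) = (r : ℝ) ^ r * G := by
        rw [hG]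
        simp only [F]
        push_cast
        rw [pow_add]
        ring
      calc (_root_.VM.JN (r + s) r N : ℝ) ≤ 4 * (C0 * F p) + K ^ (2 * (r + s)) := h1.trans hWle
        _ = (4 * C0 * (r : ℝ) ^ r) * G + K ^ (2 * (r + s)) * 1 := by rw [h4]; ring
        _ ≤ (4 * C0 * (r : ℝ) ^ r) * G + K ^ (2 * (r + s)) * G := by
            have := mul_le_mul_of_nonneg_left h3 hCb
            linarith
        _ = (4 * C0 * (r : ℝ) ^ r + K ^ (2 * (r + s))) * G := by ring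
        _ ≤ C * G := mul_le_mul_of_nonneg_right (VRec_num r s hr) (by linarith)


end Pool.Agent.Lib.MP_50b5e1_nt
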