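import Pool.Agent.Lib.MP_50b5e1_nt.V.VDef

/-!
# V/VSh (JOB VSh): from `∑ e (y/n)` to the double sums

Let `f n = e (y/n)`, `h = u v`, `u, v < M` (so `h ≤ M^2`).
(1) `‖∑_{n ∈ Ico a b} f n - ∑_{n ∈ Ico a b} f (n + h)‖ ≤ 2 h`: the second sum is the sum over `Ico (a+h) (b+h)` (`Finset.sum_Ico_add'`); if `a + h ≤ b` the difference is the sum over `Ico a (a+h)` minus the sum over `Ico b (b+h)`; otherwise (`b - a < h`) trivially `≤ 2 (b - a)`.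
(2) Sum over `u, v < M`: `‖M^2 ∑_n f n - ∑_n ∑_{u,v} f (n + u v)‖ ≤ M^2 · 2 M^2`.
(3) `1/(n+h) = ∑_{j=0}^{r} (-1)^j h^j/n^(j+1) + (-1)^(r+1) h^(r+1)/(n^(r+1) (n+h))` (finite geometric series, induction on `r`; `n ≥ 1`). So `y/(n+h) = y/n + ∑_{i : Fin r} ((-1)^(i+1) y / n^(i+2)) h^(i+1) + E`, `|E| ≤ |y| h^(r+1)/n^(r+2)`.
(4) `‖e (x + E) - e x‖ ≤ 2 π |E|` (`norm_e_sub_one`: `‖e E - 1‖ = 2 |sin (π E)| ≤ 2 π |E|`). So `∑_{u,v} f (n + u v) = e (y/n) WW r M (α^(n)) + O(M^2 · 2 π |y| (M^2)^(r+1)/n^(r+2))`, `α^(n)_i = (-1)^(i+1) y/n^(i+2)`, `h^(i+1) = u^(i+1) v^(i+1)`.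
(5) `n ≥ G`, at most `16 G` values of `n`: sum and divide by `M^2`.
-/

set_option autoImplicit false
set_option linter.unusedSectionVars false

open Finset Real
open Pool.Agent.Lib.MP_2a816b_nt (e norm_e conj_e e_add e_neg)

namespace Pool.Agent.Lib.MP_50b5e1_nt

/-- the coefficients of the Taylor polynomial of `y / (n + h)` -/
noncomputable def al (r : ℕ) (y : ℝ) (n : ℕ) : Fin r → ℝ := fun i => (-1) ^ ((i : ℕ) + 1) * y / (n : ℝ) ^ ((i : ℕ) + 2)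

private lemma VSh_shift (g : ℕ → ℂ) (hg : ∀ n, ‖g n‖ ≤ 1) (a b h : ℕ) :
    ‖∑ n ∈ Ico a b, g n - ∑ n ∈ Ico a b, g (n + h)‖ ≤ 2 * h := by
  rcases le_or_gt a b with hab | hab
  · induction h with
    | zero =>
      simp
    | succ h ih =>
      have h1 : ∑ n ∈ Ico a b, g n - ∑ n ∈ Ico a b, g (n + (h + 1)) =
          (∑ n ∈ Ico a b, g n - ∑ n ∈ Ico a b, g (n + h)) -
            ∑ n ∈ Ico a b, (g (n + 1 + h) - g (n + h)) := by
        rw [Finset.sum_sub_distrib]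
        have h2 : ∑ n ∈ Ico a b, g (n + (h + 1)) = ∑ n ∈ Ico a b, g (n + 1 + h) := by
          refine Finset.sum_congr rfl fun n _ => ?_
          congr 1
          omega
        rw [h2]
        ring
      have h3 : ∑ n ∈ Ico a b, (g (n + 1 + h) - g (n + h)) = g (b + h) - g (a + h) :=
        Finset.sum_Ico_sub (fun n => g (n + h)) hab
      rw [h1, h3]
      have h4 : ‖g (b + h) - g (a + h)‖ ≤ 2 := by
        refine le_trans (norm_sub_le _ _) ?_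
        have h5 := hg (b + h)
        have h6 := hg (a + h)
        linarith
      refine le_trans (norm_sub_le _ _) ?_
      push_cast
      linarith
  · rw [Finset.Ico_eq_empty (by omega)]
    simp

private lemma VSh_geom (y n h : ℝ) (hn : 0 < n) (hh : 0 ≤ h) (r : ℕ) :
    y / (n + h) - y / n - ∑ i ∈ range r, (-1) ^ (i + 1) * y / n ^ (i + 2) * h ^ (i + 1) =
      (-1) ^ (r + 1) * y * h ^ (r + 1) / (n ^ (r + 1) * (n + h)) := by
  have hn0 : n ≠ 0 := hn.ne'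
  have hnh : n + h ≠ 0 := by positivity
  induction r with
  | zero =>
    rw [Finset.sum_range_zero]
    field_simp
    ring
  | succ r ih =>
    rw [Finset.sum_range_succ]
    have h1 : y / (n + h) - y / n - (∑ i ∈ range r, (-1) ^ (i + 1) * y / n ^ (i + 2) * h ^ (i + 1) +
        (-1) ^ (r + 1) * y / n ^ (r + 2) * h ^ (r + 1)) =
        (y / (n + h) - y / n - ∑ i ∈ range r, (-1) ^ (i + 1) * y / n ^ (i + 2) * h ^ (i + 1)) -
        (-1) ^ (r + 1) * y / n ^ (r + 2) * h ^ (r + 1) := by ring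
    rw [h1, ih]
    field_simp
    ring

private lemma VSh_taylor (r : ℕ) (y : ℝ) (n h : ℕ) (hn : 1 ≤ n) :
    |y / ((n + h : ℕ) : ℝ) - (y / n + ∑ i : Fin r, al r y n i * (h : ℝ) ^ ((i : ℕ) + 1))| ≤
      |y| * (h : ℝ) ^ (r + 1) / (n : ℝ) ^ (r + 2) := by
  have hn0 : (0 : ℝ) < n := by exact_mod_cast hn
  have hh0 : (0 : ℝ) ≤ h := Nat.cast_nonneg h
  have h1 : ∑ i : Fin r, al r y n i * (h : ℝ) ^ ((i : ℕ) + 1) =
      ∑ i ∈ range r, (-1) ^ (i + 1) * y / (n : ℝ) ^ (i + 2) * (h : ℝ) ^ (i + 1) :=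
    Fin.sum_univ_eq_sum_range
      (fun i => (-1) ^ (i + 1) * y / (n : ℝ) ^ (i + 2) * (h : ℝ) ^ (i + 1)) r
  have h2 := VSh_geom y n h hn0 hh0 r
  have h3 : y / ((n + h : ℕ) : ℝ) - (y / n + ∑ i : Fin r, al r y n i * (h : ℝ) ^ ((i : ℕ) + 1)) =
      (-1) ^ (r + 1) * y * (h : ℝ) ^ (r + 1) / ((n : ℝ) ^ (r + 1) * (n + h)) := by
    rw [← h2, h1]
    push_cast
    ring
  rw [h3, abs_div, abs_mul, abs_mul, abs_pow, abs_neg, abs_one, one_pow, one_mul,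
    abs_of_nonneg (pow_nonneg hh0 (r + 1)),
    abs_of_pos (mul_pos (pow_pos hn0 (r + 1)) (by linarith : (0 : ℝ) < n + h))]
  refine div_le_div_of_nonneg_left (mul_nonneg (abs_nonneg y) (pow_nonneg hh0 _))
    (pow_pos hn0 _) ?_
  rw [pow_succ (n : ℝ) (r + 1)]
  exact mul_le_mul_of_nonneg_left (by linarith) (pow_nonneg hn0.le _)

private lemma VSh_e (x z : ℝ) : ‖e x - e z‖ ≤ 2 * π * |x - z| := by
  have h1 : e x - e z = e z * (e (x - z) - 1) := by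
    rw [mul_sub, ← e_add, mul_one]
    congr 2
    ring
  rw [h1, norm_mul, norm_e, one_mul, Pool.Agent.Lib.MP_2a816b_nt.norm_e_sub_one, mul_assoc]
  have h2 : |sin (π * (x - z))| ≤ |π * (x - z)| := Real.abs_sin_le_abs
  rw [abs_mul, abs_of_pos Real.pi_pos] at h2
  linarith

private lemma VSh_pt (r M : ℕ) (y : ℝ) (n : ℕ) (hn : 1 ≤ n) :
    ‖∑ u ∈ range M, ∑ v ∈ range M, e (y / ((n + u * v : ℕ) : ℝ))‖ ≤ ‖WW r M (al r y n)‖ +
      (M : ℝ) ^ 2 * (2 * π * (|y| * ((M : ℝ) ^ 2) ^ (r + 1) / (n : ℝ) ^ (r + 2))) := by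
  have hn0 : (0 : ℝ) < n := by exact_mod_cast hn
  have h1 : ∑ u ∈ range M, ∑ v ∈ range M, e (y / ((n + u * v : ℕ) : ℝ)) =
      e (y / n) * WW r M (al r y n) + ∑ u ∈ range M, ∑ v ∈ range M,
        (e (y / ((n + u * v : ℕ) : ℝ)) -
          e (y / n + ∑ i : Fin r, al r y n i * ((u * v : ℕ) : ℝ) ^ ((i : ℕ) + 1))) := by
    unfold WW
    rw [Finset.mul_sum, ← Finset.sum_add_distrib]
    refine Finset.sum_congr rfl fun u _ => ?_
    rw [Finset.mul_sum, ← Finset.sum_add_distrib]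
    refine Finset.sum_congr rfl fun v _ => ?_
    rw [e_add]
    have h2 : ∑ i : Fin r, al r y n i * ((u : ℝ) ^ ((i : ℕ) + 1) * (v : ℝ) ^ ((i : ℕ) + 1)) =
        ∑ i : Fin r, al r y n i * ((u * v : ℕ) : ℝ) ^ ((i : ℕ) + 1) := by
      refine Finset.sum_congr rfl fun i _ => ?_
      rw [Nat.cast_mul, mul_pow]
    rw [h2]
    ring
  rw [h1]
  refine le_trans (norm_add_le _ _) (add_le_add ?_ ?_)
  · rw [norm_mul, norm_e, one_mul]
  · have h3 : ∀ u ∈ range M, ∀ v ∈ range M, ‖e (y / ((n + u * v : ℕ) : ℝ)) -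
        e (y / n + ∑ i : Fin r, al r y n i * ((u * v : ℕ) : ℝ) ^ ((i : ℕ) + 1))‖ ≤
        2 * π * (|y| * ((M : ℝ) ^ 2) ^ (r + 1) / (n : ℝ) ^ (r + 2)) := by
      intro u hu v hv
      refine le_trans (VSh_e _ _) (mul_le_mul_of_nonneg_left ?_ (by positivity))
      refine le_trans (VSh_taylor r y n (u * v) hn) ?_
      refine div_le_div_of_nonneg_right (mul_le_mul_of_nonneg_left ?_ (abs_nonneg y))
        (pow_nonneg hn0.le _)
      refine pow_le_pow_left₀ (Nat.cast_nonneg _) ?_ (r + 1)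
      have h4 : u * v ≤ M ^ 2 := by
        rw [sq]
        exact Nat.mul_le_mul (Finset.mem_range.1 hu).le (Finset.mem_range.1 hv).le
      exact_mod_cast h4
    refine le_trans (norm_sum_le _ _) ?_
    refine le_trans (Finset.sum_le_sum fun u hu => le_trans (norm_sum_le _ _)
      (Finset.sum_le_sum fun v hv => h3 u hu v hv)) ?_
    rw [Finset.sum_const, Finset.sum_const, Finset.card_range, nsmul_eq_mul, nsmul_eq_mul,
      ← mul_assoc, ← sq]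

theorem shift_bound (r M G a b : ℕ) (y : ℝ) (hM : 1 ≤ M) (hG : 1 ≤ G) (ha : G ≤ a) (hb : b ≤ 16 * G) :
    ‖∑ n ∈ Ico a b, e (y / n)‖ ≤ (∑ n ∈ Ico a b, ‖WW r M (al r y n)‖) / (M : ℝ) ^ 2 + 2 * (M : ℝ) ^ 2 +
      2 * π * (16 * G) * |y| * ((M : ℝ) ^ 2) ^ (r + 1) / (G : ℝ) ^ (r + 2) := by
  have hM0 : (0 : ℝ) < M := by exact_mod_cast hM
  have hG0 : (0 : ℝ) < G := by exact_mod_cast hG
  have hM2 : (0 : ℝ) < (M : ℝ) ^ 2 := pow_pos hM0 2
  have h1 : ((M : ℂ) ^ 2) * ∑ n ∈ Ico a b, e (y / n) =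
      (∑ u ∈ range M, ∑ v ∈ range M, (∑ n ∈ Ico a b, e (y / (n : ℝ)) -
        ∑ n ∈ Ico a b, e (y / ((n + u * v : ℕ) : ℝ)))) +
      ∑ n ∈ Ico a b, ∑ u ∈ range M, ∑ v ∈ range M, e (y / ((n + u * v : ℕ) : ℝ)) := by
    have h2 : ∑ n ∈ Ico a b, ∑ u ∈ range M, ∑ v ∈ range M, e (y / ((n + u * v : ℕ) : ℝ)) =
        ∑ u ∈ range M, ∑ v ∈ range M, ∑ n ∈ Ico a b, e (y / ((n + u * v : ℕ) : ℝ)) := by
      rw [Finset.sum_comm]
      refine Finset.sum_congr rfl fun u _ => ?_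
      rw [Finset.sum_comm]
    rw [h2, ← Finset.sum_add_distrib]
    have h3 : ∀ u ∈ range M, (∑ v ∈ range M, (∑ n ∈ Ico a b, e (y / (n : ℝ)) -
        ∑ n ∈ Ico a b, e (y / ((n + u * v : ℕ) : ℝ)))) +
        ∑ v ∈ range M, ∑ n ∈ Ico a b, e (y / ((n + u * v : ℕ) : ℝ)) =
        M * ∑ n ∈ Ico a b, e (y / (n : ℝ)) := by
      intro u _
      rw [← Finset.sum_add_distrib]
      have h4 : ∀ v ∈ range M, (∑ n ∈ Ico a b, e (y / (n : ℝ)) -
          ∑ n ∈ Ico a b, e (y / ((n + u * v : ℕ) : ℝ))) +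
          ∑ n ∈ Ico a b, e (y / ((n + u * v : ℕ) : ℝ)) = ∑ n ∈ Ico a b, e (y / (n : ℝ)) :=
        fun v _ => sub_add_cancel _ _
      rw [Finset.sum_congr rfl h4, Finset.sum_const, Finset.card_range, nsmul_eq_mul]
    rw [Finset.sum_congr rfl h3, Finset.sum_const, Finset.card_range, nsmul_eq_mul]
    ring
  have h5 : ‖∑ u ∈ range M, ∑ v ∈ range M, (∑ n ∈ Ico a b, e (y / (n : ℝ)) -
      ∑ n ∈ Ico a b, e (y / ((n + u * v : ℕ) : ℝ)))‖ ≤ (M : ℝ) ^ 2 * (2 * (M : ℝ) ^ 2) := by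
    have h6 : ∀ u ∈ range M, ∀ v ∈ range M, ‖∑ n ∈ Ico a b, e (y / (n : ℝ)) -
        ∑ n ∈ Ico a b, e (y / ((n + u * v : ℕ) : ℝ))‖ ≤ 2 * (M : ℝ) ^ 2 := by
      intro u hu v hv
      refine le_trans (VSh_shift (fun n => e (y / (n : ℝ))) (fun n => (norm_e _).le) a b (u * v)) ?_
      have h4 : u * v ≤ M ^ 2 := by
        rw [sq]
        exact Nat.mul_le_mul (Finset.mem_range.1 hu).le (Finset.mem_range.1 hv).le
      have h7 : ((u * v : ℕ) : ℝ) ≤ (M : ℝ) ^ 2 := by exact_mod_cast h4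
      linarith
    refine le_trans (norm_sum_le _ _) ?_
    refine le_trans (Finset.sum_le_sum fun u hu => le_trans (norm_sum_le _ _)
      (Finset.sum_le_sum fun v hv => h6 u hu v hv)) ?_
    rw [Finset.sum_const, Finset.sum_const, Finset.card_range, nsmul_eq_mul, nsmul_eq_mul,
      ← mul_assoc, ← sq]
  have h8 : ‖∑ n ∈ Ico a b, ∑ u ∈ range M, ∑ v ∈ range M, e (y / ((n + u * v : ℕ) : ℝ))‖ ≤
      (∑ n ∈ Ico a b, ‖WW r M (al r y n)‖) +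
        (16 * G) * ((M : ℝ) ^ 2 * (2 * π * (|y| * ((M : ℝ) ^ 2) ^ (r + 1) / (G : ℝ) ^ (r + 2)))) := by
    have h9 : ∀ n ∈ Ico a b, ‖∑ u ∈ range M, ∑ v ∈ range M, e (y / ((n + u * v : ℕ) : ℝ))‖ ≤
        ‖WW r M (al r y n)‖ +
          (M : ℝ) ^ 2 * (2 * π * (|y| * ((M : ℝ) ^ 2) ^ (r + 1) / (G : ℝ) ^ (r + 2))) := by
      intro n hn
      have hn1 : G ≤ n := le_trans ha (Finset.mem_Ico.1 hn).1
      have hn2 : (G : ℝ) ≤ n := by exact_mod_cast hn1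
      refine le_trans (VSh_pt r M y n (le_trans hG hn1)) (add_le_add le_rfl ?_)
      refine mul_le_mul_of_nonneg_left (mul_le_mul_of_nonneg_left ?_ (by positivity)) hM2.le
      refine div_le_div_of_nonneg_left (by positivity) (pow_pos hG0 _) ?_
      exact pow_le_pow_left₀ hG0.le hn2 _
    refine le_trans (norm_sum_le _ _) (le_trans (Finset.sum_le_sum h9) ?_)
    rw [Finset.sum_add_distrib, Finset.sum_const, nsmul_eq_mul, Nat.card_Ico]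
    refine add_le_add le_rfl (mul_le_mul_of_nonneg_right ?_ (by positivity))
    have h10 : b - a ≤ 16 * G := le_trans (Nat.sub_le b a) hb
    exact_mod_cast h10
  have h11 : (M : ℝ) ^ 2 * ‖∑ n ∈ Ico a b, e (y / n)‖ ≤ (M : ℝ) ^ 2 * (2 * (M : ℝ) ^ 2) +
      ((∑ n ∈ Ico a b, ‖WW r M (al r y n)‖) +
        (16 * G) * ((M : ℝ) ^ 2 * (2 * π * (|y| * ((M : ℝ) ^ 2) ^ (r + 1) / (G : ℝ) ^ (r + 2))))) := by
    have h12 : (M : ℝ) ^ 2 * ‖∑ n ∈ Ico a b, e (y / n)‖ =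
        ‖((M : ℂ) ^ 2) * ∑ n ∈ Ico a b, e (y / n)‖ := by
      rw [norm_mul, norm_pow, Complex.norm_natCast]
    rw [h12, h1]
    exact le_trans (norm_add_le _ _) (add_le_add h5 h8)
  have h13 : (M : ℝ) ^ 2 * ‖∑ n ∈ Ico a b, e (y / n)‖ ≤ (M : ℝ) ^ 2 *
      ((∑ n ∈ Ico a b, ‖WW r M (al r y n)‖) / (M : ℝ) ^ 2 + 2 * (M : ℝ) ^ 2 +
      2 * π * (16 * G) * |y| * ((M : ℝ) ^ 2) ^ (r + 1) / (G : ℝ) ^ (r + 2)) := by
    refine le_trans h11 (le_of_eq ?_)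
    have h14 : (M : ℝ) ^ 2 * ((∑ n ∈ Ico a b, ‖WW r M (al r y n)‖) / (M : ℝ) ^ 2) =
        ∑ n ∈ Ico a b, ‖WW r M (al r y n)‖ := mul_div_cancel₀ _ hM2.ne'
    rw [mul_add, mul_add, h14]
    ring
  exact le_of_mul_le_mul_left h13 hM2

end Pool.Agent.Lib.MP_50b5e1_nt
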