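import Pool.Agent.Lib.MP_50b5e1_nt.V.VWB
import Pool.Agent.Lib.MP_50b5e1_nt.X.KerDef

/-!
# V/VTI (JOB VTI): type I sums of the kernel, log-power savings

Adapt the proof of `typeI` in X/KerDef.lean (copy its private lemmas `KerDef_sum`, `KerDef_triv`, .. with new names). `m = 0`: all terms are `kap K y 0 = 0`. `m ≥ 1`: the nonzero terms are `d ∈ Ico (K/m + 1) (min t (4*K/m + 1))` (natural division), `e (y/(m d)) = e ((y/m)/d)`.
* `m^4 ≤ K`, `K ≥ K₀`: `G = K/m` (natural division), `G ≥ K^(3/4)/2 ≥ K^(1/2)`; `weylB (1/2) θ' B` with `θ' = (θ + 3/2)/2`: `|y/m| ≥ K^1.65 ≥ G^(3/2)`; `|y/m| ≤ |y| ≤ exp ((1 + log K)^θ) ≤ exp ((1 + log G)^θ')` because `1 + log G ≥ (1 + log K)/2` and `(x/2)^θ' ≥ x^θ` for `x ≥ 2^(θ'/(θ'-θ))`, `x = 1 + log K`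
  (`K ≥ K₀`). Result `≤ C₁ G/(1 + log G)^B ≤ C₁ K 2^B/(1 + log K)^B`.
* `m^4 > K`: at most `4K/m ≤ 4 K^(3/4)` terms, and `K^(3/4) (1 + log K)^B/K` is bounded.
* `K < K₀`: at most `4K` nonzero terms, `(1 + log K)^B ≤ (1 + log K₀)^B`.
-/

set_option autoImplicit false

open Finset Real
open Pool.Agent.Lib.MP_2a816b_nt (e norm_e conj_e e_add e_neg)

namespace Pool.Agent.Lib.MP_50b5e1_nt

private theorem VTI_sum (K : ℕ) (y : ℝ) {m : ℕ} (hm : 0 < m) (t : ℕ) :
    ∑ d ∈ range t, kap K y (m * d) =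
      ∑ d ∈ Ico (K / m + 1) (min t (4 * K / m + 1)), e (y / m / d) := by
  have h1 : ∀ d ∈ range t, kap K y (m * d) =
      if K / m + 1 ≤ d ∧ d < 4 * K / m + 1 then e (y / m / d) else 0 := by
    intro d _
    unfold kap
    have e1 : (K < m * d) ↔ (K / m + 1 ≤ d) := by
      rw [Nat.add_one_le_iff, Nat.div_lt_iff_lt_mul hm, mul_comm]
    have e2 : (m * d ≤ 4 * K) ↔ (d < 4 * K / m + 1) := by
      rw [Nat.lt_add_one_iff, Nat.le_div_iff_mul_le hm, mul_comm]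
    have e3 : y / ((m * d : ℕ) : ℝ) = y / m / d := by
      push_cast
      rw [div_div]
    rw [e3]
    simp only [e1, e2]
  rw [sum_congr rfl h1, ← sum_filter]
  apply sum_congr _ fun _ _ => rfl
  ext d
  simp only [mem_filter, mem_range, mem_Ico]
  omega

private theorem VTI_triv (y : ℝ) (a b : ℕ) : ‖∑ d ∈ Ico a b, e (y / d)‖ ≤ ((b - a : ℕ) : ℝ) := by
  calc ‖∑ d ∈ Ico a b, e (y / d)‖ ≤ ∑ d ∈ Ico a b, ‖e (y / d)‖ := norm_sum_le _ _
    _ = ∑ _d ∈ Ico a b, (1 : ℝ) := sum_congr rfl fun d _ => norm_e _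
    _ = ((b - a : ℕ) : ℝ) := by simp

private theorem VTI_sub (t a b : ℕ) : min t (a + 1) - (b + 1) ≤ a := by omega

private theorem VTI_log (B : ℝ) (hB : 0 ≤ B) {x : ℝ} (hx : 1 ≤ x) :
    x ^ B ≤ (4 * (B + 1)) ^ B * Real.exp (1 / 4) * Real.exp ((x - 1) / 4) := by
  have hx0 : 0 < x := by linarith
  have hB1 : 0 < 4 * (B + 1) := by linarith
  have h1 : x ≤ 4 * (B + 1) * Real.exp (x / (4 * (B + 1))) := by
    have h2 := Real.add_one_le_exp (x / (4 * (B + 1)))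
    have h3 : x / (4 * (B + 1)) ≤ Real.exp (x / (4 * (B + 1))) := by linarith
    calc x = 4 * (B + 1) * (x / (4 * (B + 1))) := by field_simp
      _ ≤ _ := mul_le_mul_of_nonneg_left h3 hB1.le
  calc x ^ B ≤ (4 * (B + 1) * Real.exp (x / (4 * (B + 1)))) ^ B := Real.rpow_le_rpow hx0.le h1 hB
    _ = (4 * (B + 1)) ^ B * Real.exp (x / (4 * (B + 1)) * B) := by
        rw [Real.mul_rpow hB1.le (Real.exp_pos _).le, ← Real.exp_mul]
    _ ≤ (4 * (B + 1)) ^ B * Real.exp (1 / 4 + (x - 1) / 4) := by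
        refine mul_le_mul_of_nonneg_left (Real.exp_le_exp.2 ?_) (Real.rpow_nonneg hB1.le _)
        rw [div_mul_eq_mul_div, div_le_iff₀ hB1]
        nlinarith
    _ = _ := by rw [Real.exp_add, mul_assoc]

theorem typeI' (θ B : ℝ) (hθ1 : 1 ≤ θ) (hθ : θ < 3 / 2) (hB : 0 ≤ B) : ∃ C : ℝ, 1 ≤ C ∧ ∀ (K : ℕ) (y : ℝ), 1 ≤ K →
    (K : ℝ) ^ (1.9 : ℝ) ≤ |y| → |y| ≤ Real.exp ((1 + Real.log K) ^ θ) → ∀ m t : ℕ,
      ‖∑ d ∈ range t, kap K y (m * d)‖ ≤ C * K / (1 + Real.log K) ^ B := by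
  set θ' : ℝ := (θ + 3 / 2) / 2 with hθ'
  have hθθ : 0 < θ' - θ := by linarith
  obtain ⟨C₁, hC₁, hW⟩ := weylB (1 / 2) θ' B (by norm_num) (by linarith) (by linarith) hB
  set X0 : ℝ := max ((2 : ℝ) ^ (θ' / (θ' - θ))) (1 + Real.log 16) with hX0
  have hX01 : 1 ≤ X0 := le_trans (by
    have := Real.log_nonneg (show (1 : ℝ) ≤ 16 by norm_num)
    linarith) (le_max_right _ _)
  set C' : ℝ := (4 * (B + 1)) ^ B * Real.exp (1 / 4) with hC'
  have hC'0 : 0 ≤ C' := by positivity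
  have hXB : 0 ≤ X0 ^ B := by positivity
  have h2B : (0 : ℝ) ≤ 2 ^ B := by positivity
  have hC₁2 : 0 ≤ C₁ * 2 ^ B := mul_nonneg (by linarith) h2B
  refine ⟨4 * X0 ^ B + C₁ * 2 ^ B + 4 * C' + 1, by linarith, ?_⟩
  intro K y hK hy1 hy2 m t
  have hK1 : (1 : ℝ) ≤ (K : ℝ) := by exact_mod_cast hK
  have hK0 : (0 : ℝ) < (K : ℝ) := by linarith
  set x : ℝ := 1 + Real.log K with hx
  have hlogK : 0 ≤ Real.log K := Real.log_nonneg hK1
  have hx1 : 1 ≤ x := by linarith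
  have hxB : 0 < x ^ B := by positivity
  rw [mul_div_assoc]
  set D : ℝ := (K : ℝ) / x ^ B with hD
  have hD0 : 0 < D := by positivity
  rcases Nat.eq_zero_or_pos m with hm | hm
  · have h0 : ∑ d ∈ range t, kap K y (m * d) = 0 := by
      apply sum_eq_zero
      intro d _
      rw [hm, Nat.zero_mul, kap_zero]
    rw [h0, norm_zero]
    positivity
  rw [VTI_sum K y hm t]
  have hm1 : (1 : ℝ) ≤ (m : ℝ) := by exact_mod_cast hm
  have hm0 : (0 : ℝ) < (m : ℝ) := by linarith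
  have hterm : ∀ E : ℝ, 0 ≤ E → E ≤ 4 * X0 ^ B + C₁ * 2 ^ B + 4 * C' →
      ‖∑ d ∈ Ico (K / m + 1) (min t (4 * K / m + 1)), e (y / m / d)‖ ≤ E * D →
      ‖∑ d ∈ Ico (K / m + 1) (min t (4 * K / m + 1)), e (y / m / d)‖ ≤
        (4 * X0 ^ B + C₁ * 2 ^ B + 4 * C' + 1) * D := fun E _ h2 h3 =>
    h3.trans (mul_le_mul_of_nonneg_right (by linarith) hD0.le)
  rcases lt_or_ge x X0 with hxs | hxl
  · refine hterm (4 * X0 ^ B) (by positivity) (by linarith) ?_
    have h1 : (min t (4 * K / m + 1) - (K / m + 1) : ℕ) ≤ 4 * K :=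
      (VTI_sub _ _ _).trans (Nat.div_le_self _ _)
    have h3 : ((min t (4 * K / m + 1) - (K / m + 1) : ℕ) : ℝ) ≤ 4 * K := by exact_mod_cast h1
    calc ‖∑ d ∈ Ico (K / m + 1) (min t (4 * K / m + 1)), e (y / m / d)‖ ≤
          ((min t (4 * K / m + 1) - (K / m + 1) : ℕ) : ℝ) := VTI_triv (y / m) _ _
      _ ≤ 4 * K := h3
      _ = 4 * x ^ B * D := by
          rw [hD]
          field_simp
      _ ≤ 4 * X0 ^ B * D := by
          refine mul_le_mul_of_nonneg_right ?_ hD0.le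
          have := Real.rpow_le_rpow (by linarith) hxs.le hB
          linarith
  have hK16 : 16 ≤ K := by
    have h1 : Real.log 16 ≤ Real.log K := by
      have := (le_max_right ((2 : ℝ) ^ (θ' / (θ' - θ))) (1 + Real.log 16)).trans hxl
      linarith
    have h2 := (Real.log_le_log_iff (by norm_num) hK0).1 h1
    exact_mod_cast h2
  by_cases hm4 : m ^ 4 ≤ K
  · -- the Weyl bound
    refine hterm (C₁ * 2 ^ B) hC₁2 (by linarith) ?_
    have hmK : m ≤ K := le_trans (Nat.le_self_pow (by norm_num) m) hm4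
    set G : ℕ := K / m with hG
    have hG1 : 1 ≤ G := by
      rw [hG, Nat.le_div_iff_mul_le hm, one_mul]
      exact hmK
    have hG1' : (1 : ℝ) ≤ (G : ℝ) := by exact_mod_cast hG1
    have hKlt : K < m * (G + 1) := by
      have h1 := Nat.lt_mul_div_succ K hm
      exact h1
    have hGm : G * m ≤ K := Nat.div_mul_le_self K m
    have hGK : G ≤ K := Nat.div_le_self K m
    have hGK' : (G : ℝ) ≤ (K : ℝ) := by exact_mod_cast hGK
    have hb : min t (4 * K / m + 1) ≤ 16 * G := by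
      have h1 : 4 * K / m < 4 * (G + 1) := by
        rw [Nat.div_lt_iff_lt_mul hm]
        nlinarith
      omega
    have hyabs : |y / m| = |y| / m := by
      rw [abs_div, abs_of_pos hm0]
    -- K ≤ G ^ 2
    have hKG : K ≤ G * G := by
      have h1 : K ≤ 2 * m * G := by nlinarith
      have h2 : 4 * m ^ 2 ≤ K := by
        have h3 : (4 * m ^ 2) ^ 2 ≤ K ^ 2 := by
          calc (4 * m ^ 2) ^ 2 = 16 * m ^ 4 := by ring
            _ ≤ K * K := Nat.mul_le_mul hK16 hm4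
            _ = K ^ 2 := by ring
        exact (Nat.pow_le_pow_iff_left (by norm_num)).mp h3
      have h4 : K * K ≤ K * (G * G) := by
        calc K * K ≤ (2 * m * G) * (2 * m * G) := Nat.mul_le_mul h1 h1
          _ = (4 * m ^ 2) * (G * G) := by ring
          _ ≤ K * (G * G) := Nat.mul_le_mul_right _ h2
      exact Nat.le_of_mul_le_mul_left h4 (by omega)
    have hlog : x / 2 ≤ 1 + Real.log G := by
      have h1 : Real.log K ≤ 2 * Real.log G := by
        have h2 : (K : ℝ) ≤ (G : ℝ) ^ 2 := by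
          rw [sq]
          exact_mod_cast hKG
        have h3 := Real.log_le_log hK0 h2
        rw [Real.log_pow] at h3
        exact_mod_cast h3
      linarith
    have c1 : (G : ℝ) ^ (1 + 1 / 2 : ℝ) ≤ |y / m| := by
      rw [hyabs, le_div_iff₀ hm0]
      have h1 : (G : ℝ) ^ (1 + 1 / 2 : ℝ) = (G : ℝ) * (G : ℝ) ^ (1 / 2 : ℝ) := by
        rw [Real.rpow_add (by linarith), Real.rpow_one]
      have h2 : (G : ℝ) ^ (1 / 2 : ℝ) ≤ (K : ℝ) ^ (0.9 : ℝ) :=
        (Real.rpow_le_rpow (by linarith) hGK' (by norm_num)).trans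
          (Real.rpow_le_rpow_of_exponent_le hK1 (by norm_num))
      have h3 : (G : ℝ) * m ≤ K := by exact_mod_cast hGm
      have h4 : (K : ℝ) ^ (1.9 : ℝ) = (K : ℝ) * (K : ℝ) ^ (0.9 : ℝ) := by
        have h5 : (1.9 : ℝ) = 1 + 0.9 := by norm_num
        rw [h5, Real.rpow_add hK0, Real.rpow_one]
      calc (G : ℝ) ^ (1 + 1 / 2 : ℝ) * m = ((G : ℝ) * m) * (G : ℝ) ^ (1 / 2 : ℝ) := by
            rw [h1]
            ring
        _ ≤ (K : ℝ) * (K : ℝ) ^ (0.9 : ℝ) :=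
            mul_le_mul h3 h2 (Real.rpow_nonneg (by linarith) _) hK0.le
        _ = (K : ℝ) ^ (1.9 : ℝ) := h4.symm
        _ ≤ |y| := hy1
    have hxx : x ^ θ ≤ (x / 2) ^ θ' := by
      have h1 : (2 : ℝ) ^ (θ' / (θ' - θ)) ≤ x := (le_max_left _ _).trans hxl
      have h2 : (2 : ℝ) ^ θ' ≤ x ^ (θ' - θ) := by
        calc (2 : ℝ) ^ θ' = ((2 : ℝ) ^ (θ' / (θ' - θ))) ^ (θ' - θ) := by
              rw [← Real.rpow_mul (by norm_num), div_mul_cancel₀ _ hθθ.ne']
          _ ≤ x ^ (θ' - θ) := Real.rpow_le_rpow (by positivity) h1 hθθ.le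
      have h3 : (0 : ℝ) < 2 ^ θ' := by positivity
      rw [Real.div_rpow (by linarith) (by norm_num), le_div_iff₀ h3]
      calc x ^ θ * 2 ^ θ' ≤ x ^ θ * x ^ (θ' - θ) := mul_le_mul_of_nonneg_left h2 (by positivity)
        _ = x ^ θ' := by
            rw [← Real.rpow_add (by linarith)]
            congr 1
            ring
    have c2 : |y / m| ≤ Real.exp ((1 + Real.log G) ^ θ') := by
      rw [hyabs]
      calc |y| / m ≤ |y| := div_le_self (abs_nonneg y) hm1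
        _ ≤ Real.exp (x ^ θ) := hy2
        _ ≤ Real.exp ((1 + Real.log G) ^ θ') := Real.exp_le_exp.2 (hxx.trans
            (Real.rpow_le_rpow (by linarith) hlog (by linarith)))
    have h := hW G (y / m) hG1 c1 c2 (G + 1) (min t (4 * K / m + 1)) (Nat.le_succ G) hb
    have hlB : 0 < (x / 2) ^ B := by positivity
    have hlB' : (x / 2) ^ B ≤ (1 + Real.log G) ^ B := Real.rpow_le_rpow (by linarith) hlog hB
    calc ‖∑ d ∈ Ico (G + 1) (min t (4 * K / m + 1)), e (y / m / d)‖ ≤ C₁ * G / (1 + Real.log G) ^ B := h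
      _ ≤ C₁ * K / (x / 2) ^ B := by
          refine div_le_div₀ (by positivity) (mul_le_mul_of_nonneg_left hGK' (by linarith)) hlB hlB'
      _ = C₁ * 2 ^ B * D := by
          rw [hD, Real.div_rpow (by linarith) (by norm_num)]
          field_simp
  · -- few terms
    refine hterm (4 * C') (by positivity) (by linarith) ?_
    have hm4' : K < m ^ 4 := not_le.mp hm4
    have h1 : (min t (4 * K / m + 1) - (K / m + 1) : ℕ) ≤ 4 * K / m := VTI_sub _ _ _
    have h2 : ((4 * K / m : ℕ) : ℝ) ≤ 4 * K / m := by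
      have h3 := Nat.cast_div_le (α := ℝ) (m := 4 * K) (n := m)
      push_cast at h3
      exact h3
    have h4 : (K : ℝ) ^ (1 / 4 : ℝ) ≤ m := by
      have h5 : (K : ℝ) ≤ (m : ℝ) ^ (4 : ℝ) := by
        have h6 : (K : ℝ) ≤ (m : ℝ) ^ (4 : ℕ) := by exact_mod_cast hm4'.le
        rw [← Real.rpow_natCast] at h6
        exact_mod_cast h6
      calc (K : ℝ) ^ (1 / 4 : ℝ) ≤ ((m : ℝ) ^ (4 : ℝ)) ^ (1 / 4 : ℝ) :=
            Real.rpow_le_rpow hK0.le h5 (by norm_num)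
        _ = m := by
            rw [← Real.rpow_mul hm0.le]
            norm_num
    have h7 : (K : ℝ) / m ≤ C' * D := by
      have h8 := VTI_log B hB hx1
      have h9 : Real.exp ((x - 1) / 4) = (K : ℝ) ^ (1 / 4 : ℝ) := by
        rw [Real.rpow_def_of_pos hK0, hx]
        congr 1
        ring
      rw [h9] at h8
      have h10 : x ^ B ≤ C' * m := h8.trans (mul_le_mul_of_nonneg_left h4 hC'0)
      rw [div_le_iff₀ hm0, hD]
      calc (K : ℝ) = K / x ^ B * x ^ B := by field_simp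
        _ ≤ K / x ^ B * (C' * m) := mul_le_mul_of_nonneg_left h10 (by positivity)
        _ = C' * (K / x ^ B) * m := by ring
    calc ‖∑ d ∈ Ico (K / m + 1) (min t (4 * K / m + 1)), e (y / m / d)‖ ≤
          ((min t (4 * K / m + 1) - (K / m + 1) : ℕ) : ℝ) := VTI_triv (y / m) _ _
      _ ≤ ((4 * K / m : ℕ) : ℝ) := by exact_mod_cast h1
      _ ≤ 4 * K / m := h2
      _ = 4 * (K / m) := by ring
      _ ≤ 4 * C' * D := by linarith

end Pool.Agent.Lib.MP_50b5e1_nt
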