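import Pool.Agent.Lib.MP_50b5e1_nt.V.VWR
import Pool.Agent.Lib.MP_50b5e1_nt.X.Weyl

/-!
# V/VWB (JOB VWB): log-power savings for `∑ e (y/n)`, `G^(1+c) ≤ |y| ≤ exp ((1 + log G)^θ)`, `θ < 3/2`

Let `x = 1 + log G ≥ 1`. The trivial bound is `16 G`, so finitely many `G < G₀` go into `C`.
* `|y| ≤ G^100`: `weyl c 100` (X/Weyl): `≤ C₁ G^(1-η)`, and `G^(-η) x^B` is bounded (`isLittleO_log_rpow_rpow_atTop` or `Real.log_le_rpow_div`).
* `|y| > G^100`, `G ≥ G₀ ≥ 2^170`: let `r = ⌈3 log |y| / log G⌉₊` (so `(r-1)/3 < log |y|/log G ≤ r/3`, `r ≥ 300`, and `G^((r-1)/3) ≤ |y| ≤ G^(r/3)`: exponentiate). `log |y| ≤ x^θ ≤ (2 log G)^θ`, so `r ≤ 3 · 2^θ (log G)^(θ-1) + 1 ≤ 10 (log G)^(θ-1)` (`θ ≥ 1`, `log G ≥ 1`).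
  `weylR`: `≤ A r^A (1 + log G) G · exp (- log G/(26000 r^2))`, `log G/(26000 r^2) ≥ c₁ (log G)^(3 - 2θ)`, `c₁ = 1/2600000`, `3 - 2θ > 0`; and `exp (-c₁ z^(3-2θ)) z^D → 0` for every `D` as `z = log G → ∞`
  (`w = z^(3-2θ) → ∞`, `exp (-c₁ w) w^(D/(3-2θ)) → 0`: `Real.tendsto_rpow_mul_exp_neg_mul_atTop_nhds_zero` / `isLittleO`): so `A r^A (1+log G) x^B exp (-..) ≤ 1` for `G ≥ G₀`.
-/

set_option autoImplicit false

open Finset Real
open Pool.Agent.Lib.MP_2a816b_nt (e norm_e conj_e e_add e_neg)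

namespace Pool.Agent.Lib.MP_50b5e1_nt

private theorem vwb_decay (c₁ δ D : ℝ) (hc : 0 < c₁) (hδ : 0 < δ) :
    ∃ K : ℝ, 1 ≤ K ∧ ∀ z : ℝ, 1 ≤ z → z ^ D * Real.exp (-(c₁ * z ^ δ)) ≤ K := by
  set n : ℕ := ⌈D / δ⌉₊ with hn
  have hpos : 0 ≤ (n.factorial : ℝ) / c₁ ^ n := by positivity
  refine ⟨1 + (n.factorial : ℝ) / c₁ ^ n, by linarith, fun z hz => ?_⟩
  have hz0 : 0 < z := by linarith
  set w : ℝ := z ^ δ with hw
  have hw1 : 1 ≤ w := Real.one_le_rpow hz hδ.le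
  have hw0 : 0 < w := by linarith
  have h1 : z ^ D = w ^ (D / δ) := by
    rw [hw, ← Real.rpow_mul hz0.le, mul_div_cancel₀ _ hδ.ne']
  have h2 : w ^ (D / δ) ≤ w ^ n := by
    rw [← Real.rpow_natCast]
    exact Real.rpow_le_rpow_of_exponent_le hw1 (Nat.le_ceil _)
  have h3 : (c₁ * w) ^ n / (n.factorial : ℝ) ≤ Real.exp (c₁ * w) :=
    Real.pow_div_factorial_le_exp _ (by positivity) n
  have h4 : w ^ n ≤ (n.factorial : ℝ) / c₁ ^ n * Real.exp (c₁ * w) := by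
    rw [mul_pow, div_le_iff₀ (by positivity)] at h3
    rw [div_mul_eq_mul_div, le_div_iff₀ (by positivity)]
    linarith
  calc z ^ D * Real.exp (-(c₁ * w))
      ≤ ((n.factorial : ℝ) / c₁ ^ n * Real.exp (c₁ * w)) * Real.exp (-(c₁ * w)) := by
        rw [h1]; exact mul_le_mul_of_nonneg_right (h2.trans h4) (Real.exp_pos _).le
    _ = (n.factorial : ℝ) / c₁ ^ n := by
        rw [mul_assoc, ← Real.exp_add, add_neg_cancel, Real.exp_zero, mul_one]
    _ ≤ _ := by linarith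

private theorem vwb_triv (G : ℕ) (y : ℝ) (a b : ℕ) (hb : b ≤ 16 * G) :
    ‖∑ n ∈ Ico a b, e (y / n)‖ ≤ 16 * G := by
  refine le_trans (norm_sum_le _ _) ?_
  have h1 : ∑ n ∈ Ico a b, ‖e (y / n)‖ = ((Ico a b).card : ℝ) := by
    simp only [norm_e, Finset.sum_const, nsmul_eq_mul, mul_one]
  rw [h1, Nat.card_Ico]
  have h2 : b - a ≤ 16 * G := by omega
  have h3 : ((b - a : ℕ) : ℝ) ≤ ((16 * G : ℕ) : ℝ) := by exact_mod_cast h2
  refine h3.trans (le_of_eq ?_)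
  push_cast; ring


theorem weylB (c θ B : ℝ) (hc : 0 < c) (hθ1 : 1 ≤ θ) (hθ : θ < 3 / 2) (hB : 0 ≤ B) : ∃ C : ℝ, 1 ≤ C ∧
    ∀ (G : ℕ) (y : ℝ), 1 ≤ G → (G : ℝ) ^ (1 + c) ≤ |y| → |y| ≤ Real.exp ((1 + Real.log G) ^ θ) →
      ∀ a b : ℕ, G ≤ a → b ≤ 16 * G → ‖∑ n ∈ Ico a b, e (y / n)‖ ≤ C * G / (1 + Real.log G) ^ B := by
  obtain ⟨η, hη, hη4, C₁, hC₁, hweyl⟩ := weyl c (100 + c) hc (by linarith)
  obtain ⟨A, hA, hwr⟩ := weylR
  obtain ⟨K₁, hK₁, hdec₁⟩ := vwb_decay η 1 B hη one_pos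
  set δ : ℝ := 3 - 2 * θ with hδdef
  have hδ : 0 < δ := by rw [hδdef]; linarith
  obtain ⟨K₂, hK₂, hdec₂⟩ := vwb_decay (1 / 2600000) δ (A + 1 + B) (by norm_num) hδ
  set T₀ : ℝ := 16 * 171 ^ B with hT₀
  set T₁ : ℝ := C₁ * (Real.exp η * K₁) with hT₁
  set T₂ : ℝ := A * 10 ^ A * 2 ^ (1 + B) * K₂ with hT₂
  have hT₀p : 0 < T₀ := by rw [hT₀]; positivity
  have hT₁p : 0 < T₁ := by rw [hT₁]; positivity
  have hT₂p : 0 < T₂ := by rw [hT₂]; positivity
  refine ⟨1 + T₀ + T₁ + T₂, by linarith, ?_⟩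
  intro G y hG hy1 hy2 a b ha hb
  have hG1 : (1 : ℝ) ≤ (G : ℝ) := by exact_mod_cast hG
  have hG0 : (0 : ℝ) < (G : ℝ) := by linarith
  set L : ℝ := Real.log G with hL
  have hL0 : 0 ≤ L := Real.log_nonneg hG1
  have hx1 : 1 ≤ 1 + L := by linarith
  have hx0 : 0 < 1 + L := by linarith
  have hGe : (G : ℝ) = Real.exp L := (Real.exp_log hG0).symm
  have hxB : 0 < (1 + L) ^ B := Real.rpow_pos_of_pos hx0 B
  rw [le_div_iff₀ hxB]
  have key : ∀ t : ℝ, 0 ≤ t → t ≤ 1 + T₀ + T₁ + T₂ → t * G ≤ (1 + T₀ + T₁ + T₂) * G :=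
    fun t _ ht => mul_le_mul_of_nonneg_right ht hG0.le
  rcases lt_or_ge G (2 ^ 170) with hsm | hbig
  · -- small `G`
    refine le_trans ?_ (key T₀ hT₀p.le (by linarith))
    have h1 : L ≤ 170 := by
      have h2 : (G : ℝ) ≤ (2 : ℝ) ^ (170 : ℕ) := by exact_mod_cast hsm.le
      have h3 : L ≤ Real.log ((2 : ℝ) ^ (170 : ℕ)) := Real.log_le_log hG0 h2
      rw [Real.log_pow] at h3
      have h4 := Real.log_two_lt_d9
      push_cast at h3
      linarith
    have h5 : (1 + L) ^ B ≤ (171 : ℝ) ^ B := Real.rpow_le_rpow hx0.le (by linarith) hB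
    calc ‖∑ n ∈ Ico a b, e (y / n)‖ * (1 + L) ^ B ≤ (16 * G) * (171 : ℝ) ^ B :=
          mul_le_mul (vwb_triv G y a b hb) h5 hxB.le (by positivity)
      _ = T₀ * G := by rw [hT₀]; ring
  · rcases le_or_gt (|y|) ((G : ℝ) ^ (100 + c)) with hyA | hyA
    · -- van der Corput range
      refine le_trans ?_ (key T₁ hT₁p.le (by linarith))
      have h1 := hweyl G y hG hy1 hyA a b ha hb
      have h2 := hdec₁ (1 + L) hx1
      rw [Real.rpow_one] at h2
      have h3 : (G : ℝ) ^ (1 - η) = G * (Real.exp η * Real.exp (-(η * (1 + L)))) := by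
        rw [Real.rpow_sub hG0, Real.rpow_one, ← Real.exp_add, hGe, ← Real.exp_mul, div_eq_mul_inv, ← Real.exp_neg]
        congr 2; ring
      calc ‖∑ n ∈ Ico a b, e (y / n)‖ * (1 + L) ^ B ≤ (C₁ * (G : ℝ) ^ (1 - η)) * (1 + L) ^ B :=
            mul_le_mul_of_nonneg_right h1 hxB.le
        _ = C₁ * (Real.exp η * ((1 + L) ^ B * Real.exp (-(η * (1 + L))))) * G := by rw [h3]; ring
        _ ≤ C₁ * (Real.exp η * K₁) * G := by gcongr
        _ = T₁ * G := by rw [hT₁]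
    · -- Vinogradov range
      refine le_trans ?_ (key T₂ hT₂p.le (by linarith))
      have hG2 : (2 : ℝ) ^ (170 : ℕ) ≤ (G : ℝ) := by exact_mod_cast hbig
      have hL100 : 100 ≤ L := by
        have h3 : Real.log ((2 : ℝ) ^ (170 : ℕ)) ≤ L := Real.log_le_log (by positivity) hG2
        rw [Real.log_pow] at h3
        have h4 := Real.log_two_gt_d9
        push_cast at h3
        linarith
      have hL1 : 1 ≤ L := by linarith
      have hLp : 0 < L := by linarith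
      have hyp : 0 < |y| := lt_of_le_of_lt (Real.rpow_nonneg hG0.le _) hyA
      set Y : ℝ := Real.log |y| with hY
      have hYe : |y| = Real.exp Y := (Real.exp_log hyp).symm
      have hY1 : (100 + c) * L < Y := by
        have h1 := Real.log_lt_log (Real.rpow_pos_of_pos hG0 _) hyA
        rwa [Real.log_rpow hG0] at h1
      have hY2 : Y ≤ (1 + L) ^ θ := by
        have h1 := Real.log_le_log hyp hy2
        rwa [Real.log_exp] at h1
      set q : ℝ := 3 * Y / L with hq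
      have hqY : q * L = 3 * Y := by rw [hq]; field_simp
      have hq300 : 300 < q := by
        rw [hq, lt_div_iff₀ hLp]
        nlinarith
      set r : ℕ := ⌈q⌉₊ with hr
      have hr1 : q ≤ r := Nat.le_ceil q
      have hr2 : (r : ℝ) < q + 1 := Nat.ceil_lt_add_one (by linarith)
      have hr300 : (300 : ℝ) < r := by linarith
      have hr100 : 100 ≤ r := by
        have : (100 : ℝ) ≤ r := by linarith
        exact_mod_cast this
      have hrp : (0 : ℝ) < r := by linarith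
      have hb1 : (G : ℝ) ^ (((r : ℝ) - 1) / 3) ≤ |y| := by
        rw [hYe, hGe, ← Real.exp_mul, Real.exp_le_exp]
        nlinarith
      have hb2 : |y| ≤ (G : ℝ) ^ ((r : ℝ) / 3) := by
        rw [hYe, hGe, ← Real.exp_mul, Real.exp_le_exp]
        nlinarith
      have hmain := hwr r G y hr100 hbig hb1 hb2 a b ha hb
      -- size of `r`
      have hx2 : 1 + L ≤ 2 * L := by linarith
      have h2θ : (2 : ℝ) ^ θ ≤ 3 := by
        have h1 : (2 : ℝ) ^ θ ≤ (2 : ℝ) ^ ((3 : ℝ) / 2) :=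
          Real.rpow_le_rpow_of_exponent_le (by norm_num) hθ.le
        have h2 : ((2 : ℝ) ^ ((3 : ℝ) / 2)) ^ 2 = 8 := by
          rw [← Real.rpow_natCast, ← Real.rpow_mul (by norm_num)]
          norm_num
        nlinarith [Real.rpow_nonneg (show (0 : ℝ) ≤ 2 by norm_num) ((3 : ℝ) / 2)]
      have hLθ : L ^ θ = L ^ (θ - 1) * L := by
        rw [← Real.rpow_add_one hLp.ne']; congr 1; ring
      have hz1 : 1 ≤ L ^ (θ - 1) := Real.one_le_rpow hL1 (by linarith)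
      have hq2 : q ≤ 9 * L ^ (θ - 1) := by
        have h1 : (1 + L) ^ θ ≤ (2 * L) ^ θ := Real.rpow_le_rpow hx0.le hx2 (by linarith)
        rw [Real.mul_rpow (by norm_num) hLp.le, hLθ] at h1
        have h3 : (2 : ℝ) ^ θ * (L ^ (θ - 1) * L) ≤ 3 * (L ^ (θ - 1) * L) :=
          mul_le_mul_of_nonneg_right h2θ (by positivity)
        have h4 : q * L ≤ 9 * L ^ (θ - 1) * L := by
          rw [hqY]; linarith
        exact le_of_mul_le_mul_right h4 hLp
      have hr10 : (r : ℝ) ≤ 10 * L ^ (θ - 1) := by linarith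
      have hrL : (r : ℝ) ≤ 10 * L := by
        refine hr10.trans ?_
        have h1 : L ^ (θ - 1) ≤ L ^ (1 : ℝ) := Real.rpow_le_rpow_of_exponent_le hL1 (by linarith)
        rw [Real.rpow_one] at h1
        linarith
      have hexp : 1 / 2600000 * L ^ δ ≤ L * (1 / (26000 * (r : ℝ) ^ 2)) := by
        have h1 : (r : ℝ) ^ 2 ≤ 100 * (L ^ (θ - 1)) ^ 2 := by
          have := mul_self_le_mul_self hrp.le hr10
          nlinarith
        have h2 : L ^ δ * (L ^ (θ - 1)) ^ 2 = L := by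
          rw [← Real.rpow_natCast (L ^ (θ - 1)) 2, ← Real.rpow_mul hLp.le, ← Real.rpow_add hLp, hδdef]
          have : 3 - 2 * θ + (θ - 1) * ((2 : ℕ) : ℝ) = 1 := by push_cast; ring
          rw [this, Real.rpow_one]
        have h3 : 0 < L ^ δ := Real.rpow_pos_of_pos hLp δ
        rw [mul_one_div, le_div_iff₀ (by positivity)]
        have h4 : L ^ δ * (r : ℝ) ^ 2 ≤ 100 * L := by
          calc L ^ δ * (r : ℝ) ^ 2 ≤ L ^ δ * (100 * (L ^ (θ - 1)) ^ 2) :=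
                mul_le_mul_of_nonneg_left h1 h3.le
            _ = 100 * (L ^ δ * (L ^ (θ - 1)) ^ 2) := by ring
            _ = 100 * L := by rw [h2]
        linarith
      have hGpow : (G : ℝ) ^ (1 - 1 / (26000 * (r : ℝ) ^ 2)) ≤ G * Real.exp (-(1 / 2600000 * L ^ δ)) := by
        rw [Real.rpow_sub hG0, Real.rpow_one, div_eq_mul_inv]
        refine mul_le_mul_of_nonneg_left ?_ hG0.le
        rw [← Real.rpow_neg hG0.le, hGe, ← Real.exp_mul, Real.exp_le_exp]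
        linarith
      have hrA : (r : ℝ) ^ A ≤ 10 ^ A * L ^ A := by
        rw [← Real.mul_rpow (by norm_num) hLp.le]
        exact Real.rpow_le_rpow hrp.le hrL (by linarith)
      have hxxB : (1 + L) * (1 + L) ^ B ≤ 2 ^ (1 + B) * L ^ (1 + B) := by
        rw [← Real.mul_rpow (by norm_num) hLp.le, ← Real.rpow_one_add' hx0.le (by linarith)]
        exact Real.rpow_le_rpow hx0.le hx2 (by linarith)
      have hLAB : L ^ A * L ^ (1 + B) = L ^ (A + 1 + B) := by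
        rw [← Real.rpow_add hLp]; congr 1; ring
      have hdec := hdec₂ L hL1
      have hA0 : 0 < A := by linarith
      calc ‖∑ n ∈ Ico a b, e (y / n)‖ * (1 + L) ^ B
          ≤ (A * (r : ℝ) ^ A * (1 + L) * (G : ℝ) ^ (1 - 1 / (26000 * (r : ℝ) ^ 2))) * (1 + L) ^ B :=
            mul_le_mul_of_nonneg_right hmain hxB.le
        _ = A * (r : ℝ) ^ A * ((1 + L) * (1 + L) ^ B) * (G : ℝ) ^ (1 - 1 / (26000 * (r : ℝ) ^ 2)) := by ring
        _ ≤ A * (10 ^ A * L ^ A) * (2 ^ (1 + B) * L ^ (1 + B)) * (G * Real.exp (-(1 / 2600000 * L ^ δ))) := by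
            gcongr
        _ = A * 10 ^ A * 2 ^ (1 + B) * ((L ^ A * L ^ (1 + B)) * Real.exp (-(1 / 2600000 * L ^ δ))) * G := by ring
        _ = A * 10 ^ A * 2 ^ (1 + B) * (L ^ (A + 1 + B) * Real.exp (-(1 / 2600000 * L ^ δ))) * G := by rw [hLAB]
        _ ≤ A * 10 ^ A * 2 ^ (1 + B) * K₂ * G := by gcongr
        _ = T₂ * G := by rw [hT₂]

end Pool.Agent.Lib.MP_50b5e1_nt
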