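import Pool.Agent.Lib.MP_50b5e1_nt.V.VDS
import Pool.Agent.Lib.MP_50b5e1_nt.V.VSh

/-!
# V/VWR (JOB VWR): Vinogradov's bound for `∑ e (y/n)`, degree `r`

`M = ⌊G^(1/3)⌋₊`: `M ≤ G^(1/3)`, `M ≥ G^(1/3)/2`, `M ≥ 2` (`G ≥ 2^170`). For `n ∈ Ico a b`: `G ≤ n ≤ 16 G`.
`Good r M (al r y n)`: `j = i + 1`, `9r ≤ 20 j ≤ 12 r`, `|al i| = |y|/n^(j+1)`.
* Upper: `|y|/n^(j+1) ≤ G^(r/3 - j - 1) ≤ G^(-j/6) ≤ M^(-j/2)` (`j ≥ 9r/20`, so `5j/6 ≥ 0.375 r ≥ r/3`; `M ≤ G^(1/3)`).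
* Lower: `|y|/n^(j+1) ≥ G^((r-1)/3) / (16 G)^(j+1)`, and `M^(-3j/2) ≤ (G^(1/3)/2)^(-3j/2) = 2^(3j/2) G^(-j/2)`. Need `G^((r-1)/3 - (j+1) + j/2) ≥ 16^(j+1) 2^(3j/2) = 2^(5.5 j + 4)`: exponent `(r-4)/3 - j/2 ≥ (r-4)/3 - 3r/10 = r/30 - 4/3 ≥ r/50` (`r ≥ 100`),
  `G^(r/50) ≥ 2^(3.4 r) ≥ 2^(3.3 r + 4) ≥ 2^(5.5 j + 4)` (`j ≤ 0.6 r`, `r ≥ 100`).
`shift_bound` + `WW_bound` (`A0 = exp 200`): first term `≤ 16 G A0 r^A0 (1 + log M) M^(-1/(8640 r^2))`, `M ≥ G^(1/3)/2`: `M^(-1/(8640r^2)) ≤ 2 G^(-1/(25920 r^2)) ≤ 2 G^(-1/(26000 r^2))`; second `≤ 2 G^(2/3)`; third `≤ 32 π G G^(r/3) G^(2(r+1)/3)/G^(r+2) = 32 π G^(-1/3)`.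
All are `≤ const · r^A0 (1 + log G) G^(1 - 1/(26000 r^2))`.
-/

set_option autoImplicit false

open Finset Real
open Pool.Agent.Lib.MP_2a816b_nt (e norm_e conj_e e_add e_neg)

namespace Pool.Agent.Lib.MP_50b5e1_nt

private theorem VWR_M {G : ℕ} (hG : 2 ^ 170 ≤ G) :
    ((⌊(G : ℝ) ^ ((1 : ℝ) / 3)⌋₊ : ℕ) : ℝ) ≤ (G : ℝ) ^ ((1 : ℝ) / 3) ∧
      (G : ℝ) ^ ((1 : ℝ) / 3) / 2 ≤ ((⌊(G : ℝ) ^ ((1 : ℝ) / 3)⌋₊ : ℕ) : ℝ) ∧ 2 ≤ ⌊(G : ℝ) ^ ((1 : ℝ) / 3)⌋₊ := by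
  have hG' : (2 : ℝ) ^ (170 : ℕ) ≤ (G : ℝ) := by exact_mod_cast hG
  have h1 : (8 : ℝ) ≤ (G : ℝ) ^ ((1 : ℝ) / 3) := by
    have h2 : ((2 : ℝ) ^ (9 : ℕ)) ^ ((1 : ℝ) / 3) ≤ (G : ℝ) ^ ((1 : ℝ) / 3) := by
      refine Real.rpow_le_rpow (by positivity) (le_trans ?_ hG') (by norm_num)
      exact pow_le_pow_right₀ (by norm_num) (by norm_num)
    have h3 : ((2 : ℝ) ^ (9 : ℕ)) ^ ((1 : ℝ) / 3) = 8 := by
      rw [← Real.rpow_natCast, ← Real.rpow_mul (by norm_num)]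
      have h4 : ((9 : ℕ) : ℝ) * (1 / 3) = ((3 : ℕ) : ℝ) := by norm_num
      rw [h4, Real.rpow_natCast]
      norm_num
    rw [h3] at h2
    exact h2
  have h5 : (G : ℝ) ^ ((1 : ℝ) / 3) < ((⌊(G : ℝ) ^ ((1 : ℝ) / 3)⌋₊ : ℕ) : ℝ) + 1 := Nat.lt_floor_add_one _
  refine ⟨Nat.floor_le (by linarith), by linarith, ?_⟩
  refine Nat.le_floor ?_
  push_cast
  linarith

private theorem VWR_good {r G : ℕ} {y : ℝ} (hr : 100 ≤ r) (hG : 2 ^ 170 ≤ G)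
    (hy1 : (G : ℝ) ^ (((r : ℝ) - 1) / 3) ≤ |y|) (hy2 : |y| ≤ (G : ℝ) ^ ((r : ℝ) / 3)) {n : ℕ} (hn1 : G ≤ n)
    (hn2 : n ≤ 16 * G) : Good r ⌊(G : ℝ) ^ ((1 : ℝ) / 3)⌋₊ (al r y n) := by
  obtain ⟨hM1, hM2, hM3⟩ := VWR_M hG
  obtain ⟨M, hM⟩ : ∃ M, M = ⌊(G : ℝ) ^ ((1 : ℝ) / 3)⌋₊ := ⟨_, rfl⟩
  rw [← hM] at hM1 hM2 hM3 ⊢
  have hM0 : (0 : ℝ) < M := by
    have : (2 : ℝ) ≤ M := by exact_mod_cast hM3
    linarith
  have hG' : (2 : ℝ) ^ (170 : ℝ) ≤ (G : ℝ) := by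
    have h1 : (2 : ℝ) ^ (170 : ℝ) = (2 : ℝ) ^ (170 : ℕ) := by
      rw [← Real.rpow_natCast]
      norm_num
    rw [h1]
    exact_mod_cast hG
  have hG1 : (1 : ℝ) ≤ (G : ℝ) := by
    refine le_trans ?_ hG'
    exact Real.one_le_rpow (by norm_num) (by norm_num)
  have hG0 : (0 : ℝ) < G := by linarith
  have hr' : (100 : ℝ) ≤ r := by exact_mod_cast hr
  intro i hi1 hi2
  obtain ⟨j, hj⟩ : ∃ j : ℝ, j = (i : ℕ) + 1 := ⟨_, rfl⟩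
  have hj1 : 9 * (r : ℝ) ≤ 20 * j := by
    rw [hj]
    exact_mod_cast hi1
  have hj2 : 20 * j ≤ 12 * (r : ℝ) := by
    rw [hj]
    exact_mod_cast hi2
  have hj0 : 0 < j := by rw [hj]; positivity
  have hal : |al r y n i| = |y| / (n : ℝ) ^ (j + 1) := by
    unfold al
    rw [abs_div, abs_mul, abs_pow, abs_neg, abs_one, one_pow, one_mul, abs_of_nonneg (by positivity : (0 : ℝ) ≤ (n : ℝ) ^ ((i : ℕ) + 2))]
    congr 1
    rw [← Real.rpow_natCast, hj]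
    congr 1
    push_cast
    ring
  have hn1' : (G : ℝ) ≤ n := by exact_mod_cast hn1
  have hn2' : (n : ℝ) ≤ 16 * G := by exact_mod_cast hn2
  have hn0 : (0 : ℝ) < n := by linarith
  rw [hal]
  have hi : ((i : ℕ) : ℝ) + 1 = j := hj.symm
  rw [hi]
  constructor
  · -- lower
    have h1 : (M : ℝ) ^ (-(3 * j / 2)) ≤ (2 : ℝ) ^ (3 * j / 2) * (G : ℝ) ^ (-(j / 2)) := by
      have h2 : (M : ℝ) ^ (-(3 * j / 2)) ≤ ((G : ℝ) ^ ((1 : ℝ) / 3) / 2) ^ (-(3 * j / 2)) :=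
        Real.rpow_le_rpow_of_nonpos (by positivity) hM2 (by linarith)
      refine h2.trans (le_of_eq ?_)
      rw [Real.div_rpow (by positivity) (by norm_num), ← Real.rpow_mul hG0.le, Real.rpow_neg (by norm_num : (0 : ℝ) ≤ 2),
        div_inv_eq_mul, mul_comm]
      congr 2
      ring
    have h3 : (G : ℝ) ^ (((r : ℝ) - 1) / 3) / (16 * (G : ℝ)) ^ (j + 1) ≤ |y| / (n : ℝ) ^ (j + 1) := by
      refine div_le_div₀ (abs_nonneg y) hy1 (by positivity) ?_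
      exact Real.rpow_le_rpow hn0.le hn2' (by linarith)
    refine h1.trans (le_trans ?_ h3)
    rw [le_div_iff₀ (by positivity), Real.mul_rpow (by norm_num) hG0.le]
    have h4 : (16 : ℝ) ^ (j + 1) = (2 : ℝ) ^ (4 * (j + 1)) := by
      rw [Real.rpow_mul (by norm_num)]
      congr 1
      norm_num
    have h5 : (2 : ℝ) ^ (3 * j / 2) * (G : ℝ) ^ (-(j / 2)) * ((16 : ℝ) ^ (j + 1) * (G : ℝ) ^ (j + 1)) =
        (2 : ℝ) ^ (11 * j / 2 + 4) * (G : ℝ) ^ (j / 2 + 1) := by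
      rw [h4]
      have h6 : (2 : ℝ) ^ (11 * j / 2 + 4) = (2 : ℝ) ^ (3 * j / 2) * (2 : ℝ) ^ (4 * (j + 1)) := by
        rw [← Real.rpow_add (by norm_num)]
        congr 1
        ring
      have h7 : (G : ℝ) ^ (j / 2 + 1) = (G : ℝ) ^ (-(j / 2)) * (G : ℝ) ^ (j + 1) := by
        rw [← Real.rpow_add hG0]
        congr 1
        ring
      rw [h6, h7]
      ring
    rw [h5]
    have h8 : (2 : ℝ) ^ (11 * j / 2 + 4) ≤ (G : ℝ) ^ ((r : ℝ) / 50) := by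
      have h9 : (2 : ℝ) ^ (11 * j / 2 + 4) ≤ (2 : ℝ) ^ (170 * ((r : ℝ) / 50)) :=
        Real.rpow_le_rpow_of_exponent_le (by norm_num) (by linarith)
      refine h9.trans ?_
      rw [Real.rpow_mul (by norm_num)]
      exact Real.rpow_le_rpow (by positivity) hG' (by positivity)
    have h10 : (G : ℝ) ^ ((r : ℝ) / 50) * (G : ℝ) ^ (j / 2 + 1) ≤ (G : ℝ) ^ (((r : ℝ) - 1) / 3) := by
      rw [← Real.rpow_add hG0]
      exact Real.rpow_le_rpow_of_exponent_le hG1 (by linarith)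
    refine le_trans (mul_le_mul_of_nonneg_right h8 (by positivity)) h10
  · -- upper
    have h1 : |y| / (n : ℝ) ^ (j + 1) ≤ (G : ℝ) ^ ((r : ℝ) / 3) / (G : ℝ) ^ (j + 1) := by
      refine div_le_div₀ (by positivity) hy2 (by positivity) ?_
      exact Real.rpow_le_rpow hG0.le hn1' (by linarith)
    refine h1.trans ?_
    rw [← Real.rpow_sub hG0]
    have h2 : (G : ℝ) ^ ((r : ℝ) / 3 - (j + 1)) ≤ (G : ℝ) ^ ((1 : ℝ) / 3 * (-(j / 2))) :=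
      Real.rpow_le_rpow_of_exponent_le hG1 (by linarith)
    refine h2.trans ?_
    rw [Real.rpow_mul hG0.le]
    exact Real.rpow_le_rpow_of_nonpos hM0 hM1 (by linarith)

theorem weylR : ∃ A : ℝ, 1 ≤ A ∧ ∀ (r G : ℕ) (y : ℝ), 100 ≤ r → 2 ^ 170 ≤ G → (G : ℝ) ^ (((r : ℝ) - 1) / 3) ≤ |y| →
    |y| ≤ (G : ℝ) ^ ((r : ℝ) / 3) → ∀ a b : ℕ, G ≤ a → b ≤ 16 * G →
      ‖∑ n ∈ Ico a b, e (y / n)‖ ≤ A * (r : ℝ) ^ A * (1 + Real.log G) * (G : ℝ) ^ (1 - 1 / (26000 * (r : ℝ) ^ 2)) := by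
  obtain ⟨A0, hA0⟩ : ∃ A0 : ℝ, A0 = Real.exp 200 := ⟨_, rfl⟩
  have hA01 : 1 ≤ A0 := by
    rw [hA0]
    exact Real.one_le_exp (by norm_num)
  refine ⟨32 * A0 + 130, by linarith, ?_⟩
  intro r G y hr hG hy1 hy2 a b ha hb
  obtain ⟨hM1, hM2, hM3⟩ := VWR_M hG
  have hgood : ∀ n ∈ Ico a b, Good r ⌊(G : ℝ) ^ ((1 : ℝ) / 3)⌋₊ (al r y n) := by
    intro n hn
    rw [Finset.mem_Ico] at hn
    exact VWR_good hr hG hy1 hy2 (ha.trans hn.1) (hn.2.le.trans hb)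
  obtain ⟨M, hM⟩ : ∃ M, M = ⌊(G : ℝ) ^ ((1 : ℝ) / 3)⌋₊ := ⟨_, rfl⟩
  rw [← hM] at hM1 hM2 hM3 hgood
  have hM2' : (2 : ℝ) ≤ M := by exact_mod_cast hM3
  have hM0 : (0 : ℝ) < M := by linarith
  have hG2 : (2 : ℝ) ≤ (G : ℝ) := by
    have h1 : 2 ≤ G := le_trans (by norm_num) hG
    exact_mod_cast h1
  have hG1 : (1 : ℝ) ≤ (G : ℝ) := by linarith
  have hG0 : (0 : ℝ) < G := by linarith
  have hr' : (100 : ℝ) ≤ r := by exact_mod_cast hr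
  have hr0 : (0 : ℝ) < r := by linarith
  have hGn : 1 ≤ G := le_trans (by norm_num) hG
  obtain ⟨E, hE⟩ : ∃ E : ℝ, E = (G : ℝ) ^ (1 - 1 / (26000 * (r : ℝ) ^ 2)) := ⟨_, rfl⟩
  have hr2 : (10000 : ℝ) ≤ (r : ℝ) ^ 2 := by nlinarith
  have hd1 : 1 / (26000 * (r : ℝ) ^ 2) ≤ 1 / 26000 := by
    apply one_div_le_one_div_of_le (by norm_num)
    nlinarith
  have hlogG : 0 ≤ Real.log G := Real.log_nonneg hG1
  have hlogM : Real.log M ≤ Real.log G := by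
    apply Real.log_le_log hM0
    refine hM1.trans ?_
    have h1 : (G : ℝ) ^ ((1 : ℝ) / 3) ≤ (G : ℝ) ^ (1 : ℝ) :=
      Real.rpow_le_rpow_of_exponent_le hG1 (by norm_num)
    rwa [Real.rpow_one] at h1
  have hrA : 1 ≤ (r : ℝ) ^ A0 := Real.one_le_rpow (by linarith) (by linarith)
  have hE1 : 1 ≤ E := by
    rw [hE]
    exact Real.one_le_rpow hG1 (by linarith)
  -- the three terms
  have hW : ∀ n ∈ Ico a b, ‖WW r M (al r y n)‖ ≤ A0 * (r : ℝ) ^ A0 * (1 + Real.log M) *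
      (M : ℝ) ^ (2 - 1 / (8640 * (r : ℝ) ^ 2)) := by
    intro n hn
    rw [hA0]
    exact WW_bound r M (al r y n) (by omega) hM3 (hgood n hn)
  have hcard : ((Ico a b).card : ℝ) ≤ 16 * G := by
    rw [Nat.card_Ico]
    have h1 : b - a ≤ 16 * G := (Nat.sub_le b a).trans hb
    exact_mod_cast h1
  have hMp : (M : ℝ) ^ (2 - 1 / (8640 * (r : ℝ) ^ 2)) = (M : ℝ) ^ 2 * (M : ℝ) ^ (-(1 / (8640 * (r : ℝ) ^ 2))) := by
    have h1 : 2 - 1 / (8640 * (r : ℝ) ^ 2) = ((2 : ℕ) : ℝ) + (-(1 / (8640 * (r : ℝ) ^ 2))) := by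
      push_cast
      ring
    rw [h1, Real.rpow_add hM0, Real.rpow_natCast]
  have hd2 : 1 / (8640 * (r : ℝ) ^ 2) ≤ 1 := by
    rw [div_le_one (by positivity)]
    nlinarith
  have hMd : (M : ℝ) ^ (-(1 / (8640 * (r : ℝ) ^ 2))) ≤ 2 * (G : ℝ) ^ (-(1 / (26000 * (r : ℝ) ^ 2))) := by
    have hd3 : 0 ≤ 1 / (8640 * (r : ℝ) ^ 2) := by positivity
    have h2 : (M : ℝ) ^ (-(1 / (8640 * (r : ℝ) ^ 2))) ≤
        ((G : ℝ) ^ ((1 : ℝ) / 3) / 2) ^ (-(1 / (8640 * (r : ℝ) ^ 2))) :=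
      Real.rpow_le_rpow_of_nonpos (by positivity) hM2 (by linarith)
    refine h2.trans ?_
    rw [Real.div_rpow (by positivity) (by norm_num), ← Real.rpow_mul hG0.le, Real.rpow_neg (by norm_num : (0 : ℝ) ≤ 2),
      div_inv_eq_mul, mul_comm]
    have h3 : (2 : ℝ) ^ (1 / (8640 * (r : ℝ) ^ 2)) ≤ 2 := by
      have h4 : (2 : ℝ) ^ (1 / (8640 * (r : ℝ) ^ 2)) ≤ (2 : ℝ) ^ (1 : ℝ) :=
        Real.rpow_le_rpow_of_exponent_le (by norm_num) hd2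
      rwa [Real.rpow_one] at h4
    have h5 : (G : ℝ) ^ ((1 : ℝ) / 3 * (-(1 / (8640 * (r : ℝ) ^ 2)))) ≤ (G : ℝ) ^ (-(1 / (26000 * (r : ℝ) ^ 2))) := by
      refine Real.rpow_le_rpow_of_exponent_le hG1 ?_
      have h6 : (1 : ℝ) / 3 * (-(1 / (8640 * (r : ℝ) ^ 2))) = -(1 / (25920 * (r : ℝ) ^ 2)) := by
        field_simp
        norm_num
      rw [h6, neg_le_neg_iff]
      apply one_div_le_one_div_of_le (by positivity)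
      nlinarith
    exact mul_le_mul h3 h5 (by positivity) (by norm_num)
  have hEG : (G : ℝ) * (G : ℝ) ^ (-(1 / (26000 * (r : ℝ) ^ 2))) = E := by
    rw [hE, sub_eq_add_neg, Real.rpow_add hG0, Real.rpow_one]
  have hsum : (∑ n ∈ Ico a b, ‖WW r M (al r y n)‖) / (M : ℝ) ^ 2 ≤
      32 * A0 * (r : ℝ) ^ A0 * (1 + Real.log G) * E := by
    rw [div_le_iff₀ (by positivity)]
    have h1 : ∑ n ∈ Ico a b, ‖WW r M (al r y n)‖ ≤ ((Ico a b).card : ℝ) * (A0 * (r : ℝ) ^ A0 * (1 + Real.log M) *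
        (M : ℝ) ^ (2 - 1 / (8640 * (r : ℝ) ^ 2))) := by
      have h2 := Finset.sum_le_card_nsmul (Ico a b) (fun n => ‖WW r M (al r y n)‖) _ hW
      rwa [nsmul_eq_mul] at h2
    refine h1.trans ?_
    rw [hMp]
    have hlogM0 : 0 ≤ Real.log M := Real.log_nonneg (by linarith)
    calc ((Ico a b).card : ℝ) * (A0 * (r : ℝ) ^ A0 * (1 + Real.log M) *
          ((M : ℝ) ^ 2 * (M : ℝ) ^ (-(1 / (8640 * (r : ℝ) ^ 2)))))
        ≤ (16 * G) * (A0 * (r : ℝ) ^ A0 * (1 + Real.log G) *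
          ((M : ℝ) ^ 2 * (2 * (G : ℝ) ^ (-(1 / (26000 * (r : ℝ) ^ 2)))))) := by
          refine mul_le_mul hcard ?_ (by positivity) (by positivity)
          refine mul_le_mul ?_ (mul_le_mul_of_nonneg_left hMd (by positivity)) (by positivity) (by positivity)
          exact mul_le_mul_of_nonneg_left (by linarith) (by positivity)
      _ = 32 * A0 * (r : ℝ) ^ A0 * (1 + Real.log G) * ((G : ℝ) * (G : ℝ) ^ (-(1 / (26000 * (r : ℝ) ^ 2)))) *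
          (M : ℝ) ^ 2 := by ring
      _ = 32 * A0 * (r : ℝ) ^ A0 * (1 + Real.log G) * E * (M : ℝ) ^ 2 := by rw [hEG]
  have hM2G : (M : ℝ) ^ 2 ≤ (G : ℝ) ^ ((2 : ℝ) / 3) := by
    have h1 : (M : ℝ) ^ 2 ≤ ((G : ℝ) ^ ((1 : ℝ) / 3)) ^ 2 := pow_le_pow_left₀ hM0.le hM1 2
    refine h1.trans (le_of_eq ?_)
    rw [← Real.rpow_natCast, ← Real.rpow_mul hG0.le]
    norm_num
  have hsec : 2 * (M : ℝ) ^ 2 ≤ 2 * E := by
    have h1 : (G : ℝ) ^ ((2 : ℝ) / 3) ≤ E := by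
      rw [hE]
      exact Real.rpow_le_rpow_of_exponent_le hG1 (by linarith)
    linarith
  have hthird : 2 * π * (16 * G) * |y| * ((M : ℝ) ^ 2) ^ (r + 1) / (G : ℝ) ^ (r + 2) ≤ 128 := by
    rw [div_le_iff₀ (by positivity)]
    have h1 : ((M : ℝ) ^ 2) ^ (r + 1) ≤ (G : ℝ) ^ ((2 : ℝ) / 3 * ((r : ℝ) + 1)) := by
      have h2 : ((M : ℝ) ^ 2) ^ (r + 1) ≤ ((G : ℝ) ^ ((2 : ℝ) / 3)) ^ (r + 1) :=
        pow_le_pow_left₀ (by positivity) hM2G _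
      refine h2.trans (le_of_eq ?_)
      rw [← Real.rpow_natCast, ← Real.rpow_mul hG0.le]
      push_cast
      rfl
    have h3 : (G : ℝ) * (G : ℝ) ^ ((r : ℝ) / 3) * (G : ℝ) ^ ((2 : ℝ) / 3 * ((r : ℝ) + 1)) ≤ (G : ℝ) ^ (r + 2) := by
      have h4 : (G : ℝ) * (G : ℝ) ^ ((r : ℝ) / 3) * (G : ℝ) ^ ((2 : ℝ) / 3 * ((r : ℝ) + 1)) =
          (G : ℝ) ^ (1 + (r : ℝ) / 3 + (2 : ℝ) / 3 * ((r : ℝ) + 1)) := by
        rw [Real.rpow_add hG0, Real.rpow_add hG0, Real.rpow_one]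
      rw [h4, ← Real.rpow_natCast]
      refine Real.rpow_le_rpow_of_exponent_le hG1 ?_
      push_cast
      linarith
    calc 2 * π * (16 * G) * |y| * ((M : ℝ) ^ 2) ^ (r + 1)
        ≤ 2 * 4 * (16 * G) * (G : ℝ) ^ ((r : ℝ) / 3) * (G : ℝ) ^ ((2 : ℝ) / 3 * ((r : ℝ) + 1)) := by
          refine mul_le_mul ?_ h1 (by positivity) (by positivity)
          refine mul_le_mul ?_ hy2 (abs_nonneg y) (by positivity)
          refine mul_le_mul_of_nonneg_right ?_ (by positivity)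
          linarith [Real.pi_le_four]
      _ = 128 * ((G : ℝ) * (G : ℝ) ^ ((r : ℝ) / 3) * (G : ℝ) ^ ((2 : ℝ) / 3 * ((r : ℝ) + 1))) := by ring
      _ ≤ 128 * (G : ℝ) ^ (r + 2) := mul_le_mul_of_nonneg_left h3 (by norm_num)
  have hmain := shift_bound r M G a b y (by omega) hGn ha hb
  rw [← hE]
  have hrA' : (r : ℝ) ^ A0 ≤ (r : ℝ) ^ (32 * A0 + 130) :=
    Real.rpow_le_rpow_of_exponent_le (by linarith) (by linarith)
  obtain ⟨R, hR⟩ : ∃ R : ℝ, R = (r : ℝ) ^ (32 * A0 + 130) := ⟨_, rfl⟩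
  rw [← hR] at hrA' ⊢
  obtain ⟨R0, hR0⟩ : ∃ R0 : ℝ, R0 = (r : ℝ) ^ A0 := ⟨_, rfl⟩
  rw [← hR0] at hrA' hrA hsum
  have h1 : 1 ≤ R := hrA.trans hrA'
  have h2 : 32 * A0 * R0 * (1 + Real.log G) * E ≤ 32 * A0 * R * (1 + Real.log G) * E := by
    refine mul_le_mul_of_nonneg_right ?_ (by linarith)
    refine mul_le_mul_of_nonneg_right ?_ (by linarith)
    exact mul_le_mul_of_nonneg_left hrA' (by linarith)
  have h3 : E ≤ R * (1 + Real.log G) * E := by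
    have h4 : 1 ≤ R * (1 + Real.log G) := by nlinarith
    nlinarith
  calc ‖∑ n ∈ Ico a b, e (y / n)‖ ≤ 32 * A0 * R0 * (1 + Real.log G) * E + 2 * E + 128 := by linarith
    _ ≤ 32 * A0 * R * (1 + Real.log G) * E + 130 * E := by linarith
    _ ≤ 32 * A0 * R * (1 + Real.log G) * E + 130 * (R * (1 + Real.log G) * E) := by linarith
    _ = (32 * A0 + 130) * R * (1 + Real.log G) * E := by ring

end Pool.Agent.Lib.MP_50b5e1_nt
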